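import Pool.Agent.Lib.MP_ab53ee_gt.GS.Defs

/-!
# GS-CardC: there are continuum many codes
Proof.  `Set ℕ ⊕ Code` injects into `Set ℕ ⊕ (Bool × (ℕ → Finset ℕ → ℝ) × (ℕ → Set ℕ) × (ℕ → ℕ → ℝ))`; all of these have cardinal at most the continuum
(`Cardinal.mk_real`, `Cardinal.continuum_power_aleph0`, `Cardinal.mk_pi`, ...).
-/

set_option autoImplicit false

namespace Pool.Agent.Lib.MP_ab53ee_gt.GS

open Set

private theorem cc_pi {α β : Type} [Countable β] (h : Cardinal.mk α ≤ Cardinal.continuum) :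
    Cardinal.mk (β → α) ≤ Cardinal.continuum := by
  rw [← Cardinal.power_def]
  calc Cardinal.mk α ^ Cardinal.mk β ≤ Cardinal.continuum ^ Cardinal.mk β :=
        Cardinal.power_le_power_right h
    _ ≤ Cardinal.continuum ^ Cardinal.aleph0 :=
        Cardinal.power_le_power_left Cardinal.continuum_ne_zero Cardinal.mk_le_aleph0
    _ = Cardinal.continuum := Cardinal.continuum_power_aleph0

private theorem cc_prod {α β : Type} (h : Cardinal.mk α ≤ Cardinal.continuum)
    (h' : Cardinal.mk β ≤ Cardinal.continuum) : Cardinal.mk (α × β) ≤ Cardinal.continuum := by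
  rw [Cardinal.mk_prod, Cardinal.lift_id, Cardinal.lift_id, ← Cardinal.continuum_mul_self]
  exact mul_le_mul' h h'

private theorem cc_real : Cardinal.mk ℝ ≤ Cardinal.continuum := by
  rw [Cardinal.mk_real]

private theorem cc_set : Cardinal.mk (Set ℕ) ≤ Cardinal.continuum := by
  rw [Cardinal.mk_set, Cardinal.mk_nat, Cardinal.two_power_aleph0]

theorem mk_code : Cardinal.mk (Set ℕ ⊕ Code) ≤ Cardinal.continuum := by
  have hcode : Cardinal.mk Code ≤ Cardinal.continuum := by
    have hinj : Function.Injective (fun c : Code => (c.i, c.q, c.x, c.r)) := by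
      rintro ⟨i, q, x, r⟩ ⟨i', q', x', r'⟩ h
      simp only [Prod.mk.injEq] at h
      obtain ⟨h1, h2, h3, h4⟩ := h
      subst h1 h2 h3 h4
      rfl
    refine (Cardinal.mk_le_of_injective hinj).trans ?_
    have hb : Cardinal.mk Bool ≤ Cardinal.continuum :=
      Cardinal.mk_le_aleph0.trans Cardinal.aleph0_le_continuum
    exact cc_prod hb (cc_prod (cc_pi (cc_pi cc_real)) (cc_prod (cc_pi cc_set) (cc_pi (cc_pi cc_real))))
  rw [Cardinal.mk_sum, Cardinal.lift_id, Cardinal.lift_id, ← Cardinal.continuum_add_self]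
  exact add_le_add cc_set hcode

end Pool.Agent.Lib.MP_ab53ee_gt.GS
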