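import Mathlib

/-!
# GS-Chain: a generic set for `ℵ₁` many dense sets of a countably closed preorder
Proof.  If `ι` is empty take for `G` a decreasing `ω₁`-sequence (or treat `D := univ`); otherwise let `W` be the well-ordered type of `ω₁` (all proper initial
segments countable, uncountable; e.g. `(Cardinal.aleph 1).ord.ToType`), `e : W → ι` such that every `ξ` has the form `e η` for unboundedly many `η` (compose a
surjection `W → W × ι` (cardinal of `W × ι` is `ℵ₁`) with the second projection: the fibre of `ξ` is uncountable, so it is not bounded, as bounded sets of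
`W` are countable).  By well-founded recursion choose `f : W → P` with `f η ∈ D (e η)`, `f η ≤ f ζ` for `ζ < η` and `f η ≤ p0`: the set `{f ζ | ζ < η}` is countable and a
chain, so it is empty or has a cofinal antitone sequence (or: enumerate it and take successive minima), hence a lower bound by `hσ`; then use `hD`.
`G := {p0} ∪ range f`: a countable subset of `G` is bounded by `f η` for an `η` above countably many indices.
-/

set_option autoImplicit false

namespace Pool.Agent.Lib.MP_ab53ee_gt.GS

open Set

theorem exists_generic {P : Type} [Preorder P]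
    (hσ : ∀ p : ℕ → P, Antitone p → ∃ q, ∀ n, q ≤ p n)
    {ι : Type} (hι : Cardinal.mk ι ≤ Cardinal.aleph 1) (D : ι → Set P)
    (hD : ∀ ξ p, ∃ q, q ≤ p ∧ q ∈ D ξ) (p0 : P) :
    ∃ G : Set P, p0 ∈ G ∧ (∀ S ⊆ G, S.Countable → ∃ g ∈ G, ∀ s ∈ S, g ≤ s) ∧
      ∀ ξ, ∀ g ∈ G, ∃ h ∈ G, h ≤ g ∧ h ∈ D ξ := by
  classical
  rcases isEmpty_or_nonempty ι with hE | hNe
  · refine ⟨{p0}, rfl, ?_, fun ξ => (hE.false ξ).elim⟩
    intro S hS _
    refine ⟨p0, rfl, fun s hs => ?_⟩
    rw [hS hs]
  · let W : Type := (Cardinal.aleph 1).ord.ToType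
    have hW : Cardinal.mk W = Cardinal.aleph 1 := Cardinal.mk_ord_toType _
    have hIio : ∀ w : W, (Iio w).Countable := by
      intro w
      rw [Cardinal.countable_iff_lt_aleph_one]
      exact Cardinal.mk_Iio_ord_toType w
    have hIic : ∀ w : W, (Iic w).Countable := by
      intro w
      have : Iic w = insert w (Iio w) := by
        ext x
        simp only [mem_Iic, mem_insert_iff, mem_Iio]
        exact le_iff_eq_or_lt
      rw [this]
      exact (hIio w).insert w
    have hunc : ¬ (univ : Set W).Countable := by
      rw [Cardinal.countable_iff_lt_aleph_one, Cardinal.mk_univ, hW]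
      exact lt_irrefl _
    have hbdd : ∀ C : Set W, C.Countable → ∃ η, ∀ c ∈ C, c < η := by
      intro C hC
      by_contra h
      push Not at h
      apply hunc
      refine (hC.biUnion (fun c _ => hIic c)).mono ?_
      intro η _
      obtain ⟨c, hc, hη⟩ := h η
      exact mem_iUnion₂.2 ⟨c, hc, hη⟩
    -- a map with unbounded fibres
    have hφ : ∃ φ : W → W × ι, Function.Surjective φ := by
      have hle : Cardinal.mk (W × ι) ≤ Cardinal.mk W := by
        rw [Cardinal.mk_prod, Cardinal.lift_id, Cardinal.lift_id, hW]
        calc Cardinal.aleph 1 * Cardinal.mk ι ≤ Cardinal.aleph 1 * Cardinal.aleph 1 := by gcongr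
          _ = Cardinal.aleph 1 := Cardinal.mul_eq_self (Cardinal.aleph0_le_aleph 1)
      obtain ⟨w0⟩ : Nonempty W := by
        rw [← Cardinal.mk_ne_zero_iff, hW]
        exact (Cardinal.aleph_pos 1).ne'
      obtain ⟨emb⟩ := (Cardinal.le_def _ _).1 hle
      haveI : Nonempty (W × ι) := ⟨(w0, Classical.arbitrary ι)⟩
      exact ⟨Function.invFun emb, Function.invFun_surjective emb.injective⟩
    obtain ⟨φ, hφ⟩ := hφ
    let e : W → ι := fun w => (φ w).2
    have he : ∀ (ξ : ι) (ζ : W), ∃ η, ζ < η ∧ e η = ξ := by
      intro ξ ζ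
      by_contra h
      push Not at h
      apply hunc
      have h1 : (φ '' (Iic ζ)).Countable := (hIic ζ).image φ
      have h2 : (Prod.fst '' (φ '' (Iic ζ))).Countable := h1.image _
      refine h2.mono ?_
      intro w _
      obtain ⟨η, hη⟩ := hφ (w, ξ)
      refine ⟨φ η, ⟨η, ?_, rfl⟩, by rw [hη]⟩
      rw [mem_Iic]
      by_contra hlt
      exact h η (not_le.1 hlt) (by show (φ η).2 = ξ; rw [hη])
    let f : W → P := WellFoundedLT.fix (fun η ih =>
      if h : ∃ q, q ∈ D (e η) ∧ q ≤ p0 ∧ ∀ ζ (hζ : ζ < η), q ≤ ih ζ hζ then h.choose else p0)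
    have hf : ∀ η, f η = if h : ∃ q, q ∈ D (e η) ∧ q ≤ p0 ∧ ∀ ζ (_ : ζ < η), q ≤ f ζ
        then h.choose else p0 := fun η => WellFoundedLT.fix_eq _ η
    have key : ∀ η, f η ∈ D (e η) ∧ f η ≤ p0 ∧ ∀ ζ, ζ < η → f η ≤ f ζ := by
      intro η
      induction η using WellFoundedLT.induction with
      | ind η ih =>
        have hq : ∃ q, q ∈ D (e η) ∧ q ≤ p0 ∧ ∀ ζ (_ : ζ < η), q ≤ f ζ := by
          have hq0 : ∃ q0, q0 ≤ p0 ∧ ∀ ζ, ζ < η → q0 ≤ f ζ := by
            rcases (Iio η).eq_empty_or_nonempty with hemp | hne
            · refine ⟨p0, le_rfl, fun ζ hζ => ?_⟩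
              have : ζ ∈ Iio η := hζ
              rw [hemp] at this
              exact this.elim
            · obtain ⟨g, hg⟩ := (hIio η).exists_eq_range hne
              have hgη : ∀ n, g n < η := by
                intro n
                have : g n ∈ Iio η := by rw [hg]; exact mem_range_self n
                exact this
              let s : ℕ → W := fun n => (Finset.range (n + 1)).sup' ⟨0, by simp⟩ g
              have hs : ∀ n, s n < η := by
                intro n
                rw [Finset.sup'_lt_iff]
                intro i _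
                exact hgη i
              have hsm : Monotone s := by
                intro a b hab
                apply Finset.sup'_le
                intro i hi
                apply Finset.le_sup'
                rw [Finset.mem_range] at hi ⊢
                omega
              have hfs : Antitone (fun n => f (s n)) := by
                intro a b hab
                rcases (hsm hab).eq_or_lt with h | h
                · show f (s b) ≤ f (s a)
                  rw [h]
                · exact (ih (s b) (hs b)).2.2 (s a) h
              obtain ⟨q, hq⟩ := hσ _ hfs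
              refine ⟨q, (hq 0).trans (ih (s 0) (hs 0)).2.1, fun ζ hζ => ?_⟩
              have hζ' : ζ ∈ Iio η := hζ
              rw [hg] at hζ'
              obtain ⟨n, rfl⟩ := hζ'
              have h1 : g n ≤ s n := Finset.le_sup' g (by simp)
              refine (hq n).trans ?_
              rcases h1.eq_or_lt with h | h
              · rw [← h]
              · exact (ih (s n) (hs n)).2.2 (g n) h
          obtain ⟨q0, h0, h1⟩ := hq0
          obtain ⟨q, hq1, hq2⟩ := hD (e η) q0
          exact ⟨q, hq2, hq1.trans h0, fun ζ hζ => hq1.trans (h1 ζ hζ)⟩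
        rw [hf η, dif_pos hq]
        exact hq.choose_spec
    refine ⟨insert p0 (range f), mem_insert _ _, ?_, ?_⟩
    · intro S hS hSc
      have hidx : ∀ s : P, ∃ w : W, s ∈ S → (s = p0 ∨ s = f w) := by
        intro s
        obtain ⟨w0⟩ : Nonempty W := by
          rw [← Cardinal.mk_ne_zero_iff, hW]
          exact (Cardinal.aleph_pos 1).ne'
        by_cases hs : s ∈ S
        · rcases hS hs with h | ⟨w, hw⟩
          · exact ⟨w0, fun _ => Or.inl h⟩
          · exact ⟨w, fun _ => Or.inr hw.symm⟩
        · exact ⟨w0, fun h => absurd h hs⟩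
      choose w hw using hidx
      obtain ⟨η, hη⟩ := hbdd (w '' S) (hSc.image w)
      refine ⟨f η, mem_insert_of_mem _ (mem_range_self η), fun s hs => ?_⟩
      rcases hw s hs with h | h
      · rw [h]; exact (key η).2.1
      · rw [h]; exact (key η).2.2 _ (hη _ ⟨s, hs, rfl⟩)
    · intro ξ g hg
      rcases hg with rfl | ⟨ζ, rfl⟩
      · obtain ⟨w0⟩ : Nonempty W := by
          rw [← Cardinal.mk_ne_zero_iff, hW]
          exact (Cardinal.aleph_pos 1).ne'
        obtain ⟨η, _, hη⟩ := he ξ w0
        refine ⟨f η, mem_insert_of_mem _ (mem_range_self η), (key η).2.1, ?_⟩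
        rw [← hη]; exact (key η).1
      · obtain ⟨η, hlt, hη⟩ := he ξ ζ
        refine ⟨f η, mem_insert_of_mem _ (mem_range_self η), (key η).2.2 _ hlt, ?_⟩
        rw [← hη]; exact (key η).1

end Pool.Agent.Lib.MP_ab53ee_gt.GS
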