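import Pool.Agent.Lib.MP_ab53ee_gt.GS.Defs

/-!
# GS-CondA: conditions form a preorder; thin sets
Proof.  `cond_le_trans`: let `r ≤ q ≤ p`, `B ∈ r.all`, `B ∉ p.all`.  If `B ∈ q.all`, `B` is `p.H`-thin.  Else `B` is `q.H`-thin above `n`, and
`p.H a ⊆ q.H a` for `a ≥ N`, so `B` is `p.H`-thin above `max n N`.
`thin_ad`: `C \ H a` is finite for some `a`; take `e ∈ B` with `e ≥ max n a`; all larger points of `B` are outside `H e ⊇ H a`.
`exists_thin_subset`: `H a ∩ M` is finite for every `a` (it is covered by finitely many members and a finite set); choose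
`b_0 < b_1 < ...` in `M` with `b_{i+1}` not in `H (b_i)` (`H` is monotone).
`thin_congr`: sets that are almost equal.
-/

set_option autoImplicit false

namespace Pool.Agent.Lib.MP_ab53ee_gt.GS

open Filter Topology Set

theorem cond_le_refl (p : Cond) : p ≤ p :=
  ⟨fun _ => Subset.rfl, fun _ h h' => absurd h h', 0, fun _ _ => Subset.rfl⟩

theorem cond_le_trans {r q p : Cond} (h1 : r ≤ q) (h2 : q ≤ p) : r ≤ p := by
  obtain ⟨a1, b1, N1, c1⟩ := h1
  obtain ⟨a2, b2, N2, c2⟩ := h2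
  refine ⟨fun i => (a2 i).trans (a1 i), fun B hB hBp => ?_, max N1 N2, fun a ha => ?_⟩
  · by_cases hBq : B ∈ q.all
    · exact b2 B hBq hBp
    · obtain ⟨n, hn⟩ := b1 B hB hBq
      refine ⟨max n N2, fun a ha b hb hna hab hbH => ?_⟩
      exact hn a ha b hb ((le_max_left _ _).trans hna) hab
        (c2 a ((le_max_right _ _).trans hna) hbH)
  · exact (c2 a ((le_max_right _ _).trans ha)).trans (c1 a ((le_max_left _ _).trans ha))

instance : Preorder Cond where
  le_refl := cond_le_refl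
  le_trans := fun _ _ _ h1 h2 => cond_le_trans h1 h2

theorem thin_mono {H : ℕ → Set ℕ} {n n' : ℕ} {x : Set ℕ} (h : Thin H n x) (hn : n ≤ n') :
    Thin H n' x :=
  fun a ha b hb hna hab => h a ha b hb (hn.trans hna) hab

theorem thin_of_subset {H H' : ℕ → Set ℕ} {n : ℕ} {x x' : Set ℕ} (h : Thin H n x)
    (hH : ∀ a, n ≤ a → H' a ⊆ H a) (hx : x' ⊆ x) : Thin H' n x' :=
  fun a ha b hb hna hab hbH => h a (hx ha) b (hx hb) hna hab (hH a hna hbH)

theorem thin_congr {H : ℕ → Set ℕ} {x y : Set ℕ} (hxy : AEq x y) (h : ∃ n, Thin H n x) :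
    ∃ n, Thin H n y := by
  obtain ⟨n, hn⟩ := h
  obtain ⟨N, hN⟩ := hxy.2.bddAbove
  have hmem : ∀ a ∈ y, N + 1 ≤ a → a ∈ x := by
    intro a ha hNa
    by_contra hax
    have := hN ⟨ha, hax⟩
    omega
  refine ⟨max n (N + 1), fun a ha b hb hna hab => ?_⟩
  have h1 : N + 1 ≤ a := (le_max_right _ _).trans hna
  exact hn a (hmem a ha h1) b (hmem b hb (h1.trans hab.le)) ((le_max_left _ _).trans hna) hab

/-- thin infinite sets are almost disjoint from all members of the condition -/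
theorem thin_ad (p : Cond) {B : Set ℕ} (hB : B.Infinite) (h : ∃ n, Thin p.H n B) :
    ∀ C ∈ p.all, (B ∩ C).Finite := by
  intro C hC
  obtain ⟨n, hn⟩ := h
  obtain ⟨a, ha⟩ := p.cov C hC
  obtain ⟨e, heB, he⟩ := hB.exists_gt (max n a)
  have hne : n ≤ e := (le_max_left _ _).trans he.le
  have hae : a ≤ e := (le_max_right _ _).trans he.le
  refine ((Set.finite_Iic e).union ha).subset ?_
  rintro b ⟨hbB, hbC⟩
  by_cases hbe : b ≤ e
  · exact Or.inl hbe
  · refine Or.inr ⟨hbC, fun hbH => ?_⟩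
    exact hn e heB b hbB hne (not_le.mp hbe) (p.mono hae hbH)

theorem exists_thin_subset (p : Cond) {M : Set ℕ} (hM : M.Infinite)
    (h : ∀ C ∈ p.all, (C ∩ M).Finite) : ∃ B ⊆ M, B.Infinite ∧ Thin p.H 0 B := by
  have hfin : ∀ a, (p.H a ∩ M).Finite := by
    intro a
    obtain ⟨F, hF, hF2⟩ := p.small a
    have h1 : (⋃ B ∈ F, (B ∩ M)).Finite :=
      Set.Finite.biUnion F.finite_toSet fun B hB => h B (hF hB)
    refine (h1.union hF2).subset ?_
    rintro b ⟨hbH, hbM⟩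
    by_cases hb : b ∈ ⋃ B ∈ F, B
    · obtain ⟨B, hB, hbB⟩ := Set.mem_iUnion₂.mp hb
      exact Or.inl (Set.mem_iUnion₂.mpr ⟨B, hB, hbB, hbM⟩)
    · exact Or.inr ⟨hbH, hb⟩
  have hstep : ∀ e, ∃ m ∈ M, e < m ∧ m ∉ p.H e := by
    intro e
    have hinf : (M \ ((p.H e ∩ M) ∪ Set.Iic e)).Infinite :=
      hM.sdiff ((hfin e).union (Set.finite_Iic e))
    obtain ⟨m, hm, hm2⟩ := hinf.nonempty
    refine ⟨m, hm, ?_, fun hH => hm2 (Or.inl ⟨hH, hm⟩)⟩
    by_contra hle
    exact hm2 (Or.inr (not_lt.mp hle))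
  choose f hfM hflt hfH using hstep
  set b : ℕ → ℕ := fun k => Nat.rec (f 0) (fun _ e => f e) k with hb
  have hbs : ∀ k, b (k + 1) = f (b k) := fun k => rfl
  have hbM : ∀ k, b k ∈ M := by
    intro k
    cases k with
    | zero => exact hfM 0
    | succ k => rw [hbs]; exact hfM _
  have hmono : StrictMono b := strictMono_nat_of_lt_succ fun k => by
    rw [hbs]; exact hflt _
  refine ⟨range b, ?_, Set.infinite_range_of_injective hmono.injective, ?_⟩
  · rintro _ ⟨k, rfl⟩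
    exact hbM k
  · rintro _ ⟨i, rfl⟩ _ ⟨j, rfl⟩ _ hij hH
    have hlt : i < j := hmono.lt_iff_lt.mp hij
    obtain ⟨k, rfl⟩ : ∃ k, j = k + 1 := ⟨j - 1, by omega⟩
    rw [hbs] at hH
    exact hfH (b k) (p.mono (hmono.monotone (by omega : i ≤ k)) hH)

end Pool.Agent.Lib.MP_ab53ee_gt.GS
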