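import Pool.Agent.Lib.MP_ab53ee_gt.GS.CondA

/-!
# GS-CondB: extension of conditions
Proof.  `cond_extend`: if `L` is empty let `r := p` with `H` replaced by `p.H a ∪ {e | e < G a}`, `G a = sup_{a' ≤ a} g a'`.  Else let `L = {L_0, L_1, ...}` and
`r.H a := p.H a ∪ (⋃_{e ≤ a} L_e) ∪ {e | e < G a}`; `r.A i = p.A i ∪ L`, `r.A (!i) = p.A (!i)`.  The members of `L` are almost disjoint from `p.all` (`thin_ad`), in
particular not in `p.all` (infinite sets).
`dense_set`: if no member meets `M` in an infinite set, take `B ⊆ M` thin (`exists_thin_subset`) and extend by `{B}`.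
-/

set_option autoImplicit false

namespace Pool.Agent.Lib.MP_ab53ee_gt.GS

open Filter Topology Set

private lemma upd_union (A : Bool → Set (Set ℕ)) (i : Bool) (L : Set (Set ℕ)) :
    Function.update A i (A i ∪ L) false ∪ Function.update A i (A i ∪ L) true =
      (A false ∪ A true) ∪ L := by
  cases i
  · have h1 : Function.update A false (A false ∪ L) false = A false ∪ L := by simp
    have h2 : Function.update A false (A false ∪ L) true = A true := by simp
    rw [h1, h2, Set.union_right_comm]
  · have h1 : Function.update A true (A true ∪ L) true = A true ∪ L := by simp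
    have h2 : Function.update A true (A true ∪ L) false = A false := by simp
    rw [h1, h2, Set.union_assoc]

theorem cond_extend (p : Cond) (i : Bool) (L : Set (Set ℕ)) (hL : L.Countable)
    (h1 : ∀ B ∈ L, B.Infinite ∧ ∃ n, Thin p.H n B)
    (h2 : ∀ B ∈ L, ∀ C ∈ L, B ≠ C → (B ∩ C).Finite) (g : ℕ → ℕ) :
    ∃ r : Cond, r ≤ p ∧ r.A i = p.A i ∪ L ∧ r.A (!i) = p.A (!i) ∧
      (∀ a, p.H a ⊆ r.H a) ∧ ∀ a, ∀ e < g a, e ∈ r.H a := by
  classical
  obtain ⟨f, hf⟩ := (hL.insert ∅).exists_eq_range (Set.insert_nonempty ∅ L)
  have hfL : ∀ e, f e = ∅ ∨ f e ∈ L := by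
    intro e
    have : f e ∈ insert ∅ L := by
      rw [hf]
      exact Set.mem_range_self e
    exact this
  have hLf : ∀ B ∈ L, ∃ e, f e = B := by
    intro B hB
    have : B ∈ insert ∅ L := Set.mem_insert_of_mem _ hB
    rw [hf] at this
    exact this
  have hLp : ∀ B ∈ L, ∀ C ∈ p.all, (B ∩ C).Finite := fun B hB =>
    thin_ad p (h1 B hB).1 (h1 B hB).2
  have hLnp : ∀ B ∈ L, B ∉ p.all := by
    intro B hB hBp
    have := hLp B hB B hBp
    rw [Set.inter_self] at this
    exact (h1 B hB).1 this
  have hall := upd_union p.A i L
  let r : Cond :=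
    { A := Function.update p.A i (p.A i ∪ L)
      H := fun a => p.H a ∪ (⋃ e ≤ a, f e) ∪ {e | ∃ a' ≤ a, e < g a'}
      cnt := by
        intro j
        by_cases hj : j = i
        · subst hj
          simp only [Function.update_self]
          exact (p.cnt j).union hL
        · simp only [Function.update_of_ne hj]
          exact p.cnt j
      ad := by
        rw [hall]
        refine ⟨?_, ?_⟩
        · rintro B (hB | hB)
          · exact p.ad.1 B hB
          · exact (h1 B hB).1
        · rintro B (hB | hB) C (hC | hC) hne
          · exact p.ad.2 B hB C hC hne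
          · rw [Set.inter_comm]
            exact hLp C hC B hB
          · exact hLp B hB C hC
          · exact h2 B hB C hC hne
      disj := by
        rw [Set.disjoint_left]
        cases i
        · intro B hB hB'
          simp only [Function.update_self] at hB
          have hB2 : B ∈ p.A true := by simpa using hB'
          rcases hB with hB | hB
          · exact Set.disjoint_left.mp p.disj hB hB2
          · exact hLnp B hB (Or.inr hB2)
        · intro B hB hB'
          simp only [Function.update_self] at hB'
          have hB2 : B ∈ p.A false := by simpa using hB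
          rcases hB' with hB' | hB'
          · exact Set.disjoint_left.mp p.disj hB2 hB'
          · exact hLnp B hB' (Or.inl hB2)
      mono := by
        intro a b hab x hx
        rcases hx with (hx | hx) | hx
        · exact Or.inl (Or.inl (p.mono hab hx))
        · refine Or.inl (Or.inr ?_)
          simp only [Set.mem_iUnion] at hx ⊢
          obtain ⟨e, he, hx⟩ := hx
          exact ⟨e, he.trans hab, hx⟩
        · refine Or.inr ?_
          obtain ⟨a', ha', hx⟩ := hx
          exact ⟨a', ha'.trans hab, hx⟩
      small := by
        intro a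
        obtain ⟨F, hF, hFfin⟩ := p.small a
        refine ⟨F ∪ ((Finset.range (a + 1)).image f).filter (fun B => B ∈ L), ?_, ?_⟩
        · rw [hall, Finset.coe_union]
          apply Set.union_subset
          · exact hF.trans Set.subset_union_left
          · intro B hB
            exact Or.inr (Finset.mem_filter.mp hB).2
        · have hfin : {e | ∃ a' ≤ a, e < g a'}.Finite := by
            have : {e | ∃ a' ≤ a, e < g a'} ⊆ ⋃ a' ∈ Finset.range (a + 1), Set.Iio (g a') := by
              rintro e ⟨a', ha', he⟩
              simp only [Set.mem_iUnion]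
              exact ⟨a', Finset.mem_range.mpr (by omega), he⟩
            exact (Set.Finite.biUnion (Finset.finite_toSet _)
              (fun a' _ => Set.finite_Iio _)).subset this
          refine (hFfin.union hfin).subset ?_
          rintro x ⟨(hx | hx) | hx, hx2⟩
          · refine Or.inl ⟨hx, fun h => hx2 ?_⟩
            simp only [Set.mem_iUnion] at h ⊢
            obtain ⟨B, hB, hxB⟩ := h
            exact ⟨B, Finset.mem_union_left _ hB, hxB⟩
          · exfalso
            apply hx2
            simp only [Set.mem_iUnion] at hx ⊢
            obtain ⟨e, he, hxe⟩ := hx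
            refine ⟨f e, Finset.mem_union_right _ (Finset.mem_filter.mpr ⟨?_, ?_⟩), hxe⟩
            · exact Finset.mem_image_of_mem _ (Finset.mem_range.mpr (by omega))
            · rcases hfL e with h | h
              · rw [h] at hxe
                exact absurd hxe (Set.notMem_empty x)
              · exact h
          · exact Or.inr hx
      cov := by
        rw [hall]
        rintro B (hB | hB)
        · obtain ⟨a, ha⟩ := p.cov B hB
          refine ⟨a, ha.subset ?_⟩
          rintro x ⟨hx, hx2⟩
          exact ⟨hx, fun h => hx2 (Or.inl (Or.inl h))⟩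
        · obtain ⟨e, he⟩ := hLf B hB
          refine ⟨e, Set.finite_empty.subset ?_⟩
          rintro x ⟨hx, hx2⟩
          apply hx2
          refine Or.inl (Or.inr ?_)
          simp only [Set.mem_iUnion]
          exact ⟨e, le_refl e, by rw [he]; exact hx⟩ }
  refine ⟨r, ⟨?_, ?_, 0, ?_⟩, ?_, ?_, ?_, ?_⟩
  · intro j
    change p.A j ⊆ Function.update p.A i (p.A i ∪ L) j
    by_cases hj : j = i
    · subst hj
      simp only [Function.update_self]
      exact Set.subset_union_left
    · simp only [Function.update_of_ne hj]
      exact Set.Subset.rfl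
  · intro B hB hBp
    have hB' : B ∈ Function.update p.A i (p.A i ∪ L) false ∪
        Function.update p.A i (p.A i ∪ L) true := hB
    rw [hall] at hB'
    rcases hB' with h | h
    · exact absurd h hBp
    · exact (h1 B h).2
  · intro a _ x hx
    exact Or.inl (Or.inl hx)
  · change Function.update p.A i (p.A i ∪ L) i = _
    simp only [Function.update_self]
  · change Function.update p.A i (p.A i ∪ L) (!i) = _
    cases i <;> simp
  · intro a x hx
    exact Or.inl (Or.inl hx)
  · intro a e he
    exact Or.inr ⟨a, le_refl a, he⟩

theorem dense_set (M : Set ℕ) (p : Cond) : ∃ q, q ≤ p ∧ q ∈ DSet M := by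
  by_cases hM : M.Infinite
  · by_cases h : ∃ B ∈ p.all, (B ∩ M).Infinite
    · exact ⟨p, cond_le_refl p, fun _ => h⟩
    · push Not at h
      have h' : ∀ C ∈ p.all, (C ∩ M).Finite := h
      obtain ⟨B, hBM, hBinf, hBthin⟩ := exists_thin_subset p hM h'
      obtain ⟨r, hr, hrA, _, _, _⟩ := cond_extend p false {B} (Set.countable_singleton B)
        (by
          rintro C rfl
          exact ⟨hBinf, 0, hBthin⟩)
        (by
          rintro C rfl D rfl hne
          exact absurd rfl hne) (fun _ => 0)
      refine ⟨r, hr, fun _ => ⟨B, ?_, ?_⟩⟩
      · refine Or.inl ?_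
        rw [hrA]
        exact Or.inr rfl
      · rw [Set.inter_eq_left.mpr hBM]
        exact hBinf
  · exact ⟨p, cond_le_refl p, fun h => absurd h hM⟩

end Pool.Agent.Lib.MP_ab53ee_gt.GS
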