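import Pool.Agent.Lib.MP_ab53ee_gt.GS.CondA

/-!
# GS-CondC: lower bounds of decreasing sequences, a first condition
Proof.  `sigma`: for an antitone sequence `p n` put `A i := ⋃ (p n).A i`, `H a := ⋃_{n ≤ a} (p n).H a`.  Any two members lie in one `p n`.
`exists_start`: `A_n := {2^n (2 k + 1) | k}`, `A false := {A_n}`, `A true := ∅`, `H a := ⋃_{n ≤ a} A_n`.
-/

set_option autoImplicit false

namespace Pool.Agent.Lib.MP_ab53ee_gt.GS

open Filter Topology Set

theorem sigma (p : ℕ → Cond) (hp : Antitone p) : ∃ q : Cond, ∀ n, q ≤ p n := by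
  classical
  have hA : ∀ n m, n ≤ m → ∀ i, (p n).A i ⊆ (p m).A i := fun n m h i => (hp h).1 i
  have hall : ∀ n m, n ≤ m → (p n).all ⊆ (p m).all := by
    intro n m h B hB
    rcases hB with hB | hB
    · exact Or.inl (hA n m h _ hB)
    · exact Or.inr (hA n m h _ hB)
  have hmem : ∀ B, B ∈ (⋃ n, (p n).A false) ∪ (⋃ n, (p n).A true) ↔ ∃ n, B ∈ (p n).all := by
    intro B
    simp only [mem_union, mem_iUnion, Cond.all]
    constructor
    · rintro (⟨n, h⟩ | ⟨n, h⟩)
      · exact ⟨n, Or.inl h⟩
      · exact ⟨n, Or.inr h⟩
    · rintro ⟨n, h | h⟩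
      · exact Or.inl ⟨n, h⟩
      · exact Or.inr ⟨n, h⟩
  let q : Cond :=
    { A := fun i => ⋃ n, (p n).A i
      H := fun a => ⋃ n, ⋃ (_ : n ≤ a), (p n).H a
      cnt := fun i => countable_iUnion (fun n => (p n).cnt i)
      ad := by
        refine ⟨?_, ?_⟩
        · intro B hB
          obtain ⟨n, hn⟩ := (hmem B).1 hB
          exact (p n).ad.1 B hn
        · intro B hB C hC hne
          obtain ⟨n, hn⟩ := (hmem B).1 hB
          obtain ⟨m, hm⟩ := (hmem C).1 hC
          exact (p (max n m)).ad.2 B (hall n _ (le_max_left _ _) hn) C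
            (hall m _ (le_max_right _ _) hm) hne
      disj := by
        rw [Set.disjoint_left]
        intro B hB hB'
        rw [mem_iUnion] at hB hB'
        obtain ⟨n, hn⟩ := hB
        obtain ⟨m, hm⟩ := hB'
        exact Set.disjoint_left.1 (p (max n m)).disj (hA n _ (le_max_left _ _) _ hn)
          (hA m _ (le_max_right _ _) _ hm)
      mono := by
        intro a b hab x hx
        simp only [mem_iUnion] at hx ⊢
        obtain ⟨n, hn, hx⟩ := hx
        exact ⟨n, hn.trans hab, (p n).mono hab hx⟩
      small := by
        intro a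
        have h := fun n => (p n).small a
        choose F hF1 hF2 using h
        refine ⟨(Finset.range (a + 1)).biUnion F, ?_, ?_⟩
        · intro B hB
          rw [Finset.mem_coe, Finset.mem_biUnion] at hB
          obtain ⟨n, _, hB⟩ := hB
          exact (hmem B).2 ⟨n, hF1 n hB⟩
        · have hfin : (⋃ n ∈ Finset.range (a + 1), ((p n).H a \ ⋃ B ∈ F n, B)).Finite :=
            (Finset.range (a + 1)).finite_toSet.biUnion (fun n _ => hF2 n)
          refine hfin.subset ?_
          rintro x ⟨hx, hx'⟩
          simp only [mem_iUnion] at hx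
          obtain ⟨n, hn, hx⟩ := hx
          rw [mem_iUnion₂]
          refine ⟨n, by rw [Finset.mem_range]; omega, hx, ?_⟩
          intro h
          apply hx'
          rw [mem_iUnion₂] at h ⊢
          obtain ⟨B, hB, hxB⟩ := h
          exact ⟨B, Finset.mem_biUnion.2 ⟨n, by rw [Finset.mem_range]; omega, hB⟩, hxB⟩
      cov := by
        intro B hB
        obtain ⟨n, hn⟩ := (hmem B).1 hB
        obtain ⟨a, ha⟩ := (p n).cov B hn
        refine ⟨max a n, ha.subset ?_⟩
        rintro x ⟨hx, hx'⟩
        refine ⟨hx, fun h => hx' ?_⟩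
        simp only [mem_iUnion]
        exact ⟨n, le_max_right _ _, (p n).mono (le_max_left _ _) h⟩ }
  refine ⟨q, fun n => ⟨?_, ?_, n, ?_⟩⟩
  · intro i
    exact subset_iUnion (fun n => (p n).A i) n
  · intro B hB hBn
    obtain ⟨m, hm⟩ := (hmem B).1 hB
    have hnm : n ≤ m := by
      by_contra h
      exact hBn (hall m n (by omega) hm)
    exact (hp hnm).2.1 B hm hBn
  · intro a ha x hx
    show x ∈ ⋃ n, ⋃ (_ : n ≤ a), (p n).H a
    simp only [mem_iUnion]
    exact ⟨n, ha, hx⟩

theorem exists_start : ∃ p : Cond, p.all.Infinite := by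
  classical
  let f : ℕ → Set ℕ := fun n => range (fun k => Nat.pair n k)
  have hinf : ∀ n, (f n).Infinite := by
    intro n
    apply Set.infinite_range_of_injective
    intro k l h
    have := congrArg Nat.unpair h
    simp only [Nat.unpair_pair] at this
    exact (Prod.ext_iff.1 this).2
  have hdis : ∀ n m x, x ∈ f n → x ∈ f m → n = m := by
    rintro n m x ⟨k, rfl⟩ ⟨l, h⟩
    have := congrArg Nat.unpair h
    simp only [Nat.unpair_pair] at this
    exact (Prod.ext_iff.1 this).1.symm
  have hinj : Function.Injective f := by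
    intro n m h
    have h1 : Nat.pair n 0 ∈ f n := ⟨0, rfl⟩
    have h2 := h1
    rw [h] at h2
    exact hdis n m _ h1 h2
  let A : Bool → Set (Set ℕ) := fun i => if i then ∅ else range f
  have hAt : A true = ∅ := rfl
  have hAf : A false = range f := rfl
  let p : Cond :=
    { A := A
      H := fun a => ⋃ n, ⋃ (_ : n ≤ a), f n
      cnt := by
        intro i
        cases i
        · exact countable_range f
        · exact countable_empty
      ad := by
        rw [hAt, hAf, union_empty]
        refine ⟨?_, ?_⟩
        · rintro _ ⟨n, rfl⟩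
          exact hinf n
        · rintro _ ⟨n, rfl⟩ _ ⟨m, rfl⟩ hne
          have : f n ∩ f m = ∅ := by
            ext x
            simp only [mem_inter_iff, mem_empty_iff_false, iff_false]
            rintro ⟨h1, h2⟩
            exact hne (by rw [hdis n m x h1 h2])
          rw [this]
          exact Set.finite_empty
      disj := by
        rw [hAt]
        exact Set.disjoint_empty _
      mono := by
        intro a b hab x hx
        simp only [mem_iUnion] at hx ⊢
        obtain ⟨n, hn, hx⟩ := hx
        exact ⟨n, hn.trans hab, hx⟩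
      small := by
        intro a
        refine ⟨(Finset.range (a + 1)).image f, ?_, ?_⟩
        · intro B hB
          rw [Finset.mem_coe, Finset.mem_image] at hB
          obtain ⟨n, _, rfl⟩ := hB
          exact Or.inl ⟨n, rfl⟩
        · convert Set.finite_empty
          rw [Set.sdiff_eq_empty]
          intro x hx
          simp only [mem_iUnion] at hx
          obtain ⟨n, hn, hx⟩ := hx
          rw [mem_iUnion₂]
          exact ⟨f n, Finset.mem_image.2 ⟨n, by rw [Finset.mem_range]; omega, rfl⟩, hx⟩
      cov := by
        intro B hB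
        rw [hAt, hAf, union_empty] at hB
        obtain ⟨n, rfl⟩ := hB
        refine ⟨n, ?_⟩
        convert Set.finite_empty
        rw [Set.sdiff_eq_empty]
        intro x hx
        simp only [mem_iUnion]
        exact ⟨n, le_refl n, hx⟩ }
  refine ⟨p, ?_⟩
  have : (range f).Infinite := Set.infinite_range_of_injective hinj
  refine this.mono ?_
  intro B hB
  exact Or.inl hB

end Pool.Agent.Lib.MP_ab53ee_gt.GS
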