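import Pool.Agent.Lib.MP_ab53ee_gt.GS.Defs

/-!
# GS-Modulus: common moduli of continuity
Proof.  For `n` there are finitely many pairs `k ≤ n`, `s ⊆ [0,n]`; take the maximum of the moduli given by `QCont` with `ε = 1/(k+1)` (`Agree` is antitone in `n`), and make it
monotone in `n` (sum or running maximum).
-/

set_option autoImplicit false

namespace Pool.Agent.Lib.MP_ab53ee_gt.GS

open Filter Topology Set

theorem exists_modulus (q : ℕ → Finset ℕ → ℝ) (hq : ∀ k, QCont (q k)) :
    ∃ μ : ℕ → ℕ, Monotone μ ∧ ∀ n k (s : Finset ℕ), k ≤ n → (∀ e ∈ s, e ≤ n) →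
      ∀ t' : Finset ℕ, Agree (μ n) (t' : Set ℕ) (s : Set ℕ) →
        |q k t' - q k s| ≤ 1 / ((k : ℝ) + 1) := by
  classical
  have h1 : ∀ k (s : Finset ℕ), ∃ n, ∀ t' : Finset ℕ, Agree n (t' : Set ℕ) (s : Set ℕ) →
      |q k t' - q k s| ≤ 1 / ((k : ℝ) + 1) := fun k s => hq k s _ (by positivity)
  choose f hf using h1
  let μ : ℕ → ℕ := fun n => (Finset.range (n + 1)).sup fun k =>
    ((Finset.range (n + 1)).powerset).sup fun s => f k s
  have hle : ∀ n k (s : Finset ℕ), k ≤ n → (∀ e ∈ s, e ≤ n) → f k s ≤ μ n := by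
    intro n k s hk hs
    have h2 : f k s ≤ ((Finset.range (n + 1)).powerset).sup fun s => f k s := by
      refine Finset.le_sup (f := fun s => f k s) ?_
      rw [Finset.mem_powerset]
      intro e he
      exact Finset.mem_range.2 (Nat.lt_succ_of_le (hs e he))
    refine h2.trans ?_
    exact Finset.le_sup (f := fun k => ((Finset.range (n + 1)).powerset).sup fun s => f k s)
      (Finset.mem_range.2 (Nat.lt_succ_of_le hk))
  refine ⟨μ, ?_, ?_⟩
  · intro n n' hn
    refine Finset.sup_le fun k hk => Finset.sup_le fun s hs => ?_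
    rw [Finset.mem_range] at hk
    rw [Finset.mem_powerset] at hs
    refine hle n' k s (by omega) fun e he => ?_
    have := Finset.mem_range.1 (hs he)
    omega
  · intro n k s hk hs t' ht'
    exact hf k s t' fun m' hm' => ht' m' (lt_of_lt_of_le hm' (hle n k s hk hs))

end Pool.Agent.Lib.MP_ab53ee_gt.GS
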