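import Pool.Agent.Lib.MP_ab53ee_gt.GS.CondA

/-!
# GS-Verify: thin sets are harmless along a promised subsequence
Fix `x` infinite, `Thin H' n0 x`, `IsLim (q (J l)) x (v l)` for all `l`.  Suppose `|v (t+1)| ≥ 2/(m+1)` for infinitely many `t`; consider such `t`, large, `k := J (t+1)`.
Let `s := x ∩ [0,k)` (finite, as a `Finset`), `a` the least element of `x` that is `≥ k`, `a'` the largest element of `s` (`t` large: `a' ≥ n0`, `a' ≥ m`).
(i) `a < μ k`.  Otherwise `Agree (μ k) t' x` implies `Agree (μ k) t' s`, so `hμ` (with `n = k`) and `IsLim` give `|v - q k s| ≤ 1/(k+1)`, and `|q k s| ≤ 1/(k+1)`: `|v| ≤ 2/(k+1) < 2/(m+1)`.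
(ii) `a' < J t`, so all elements of `s` are `< J t`: otherwise `J t ≤ a' < J (t+1)` and `hg1` gives `a ∈ H' a'`, against thinness.
(iii) all elements of `x` above `a` are `≥ μ a` (`hg0`), so by `hμ` (with `n = a`, stem `insert a s`) `|v - q k (insert a s)| ≤ 1/(k+1)`, hence `|q k (insert a s)| ≥ 2/(m+1) - 1/(k+1) ≥ 1/(m+1)`: `a ∈ Bad q m k s`.
(iv) Let `s0 = x ∩ [0, a0]` have minimal `ρ` among the stems `x ∩ [0, a'']`, `a'' ∈ x`, `a'' ≥ n0`, `a'' ≥ m` (`s0` does not depend on `t`).  For large `t`, `a' ≥ a0`; `s = x ∩ [0,a']`,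
  `insert a s = x ∩ [0,a]`, so `ρ s0 ≤ ρ (insert a s)`.  `Ext H (N s0) s0 s`: a new point `e ∈ s` is `> a0`, `e ∉ H' a0`, so `e ≥ N s0` by `hg2`; for `e' ∈ s`, `e' < e`: if `e' ≥ n0` then `e ∉ H' e' ⊇ H e'`;
  if `e' < n0 ≤ a0` then `H e' ⊆ H' e' ⊆ H' a0` and `e ∉ H' a0`.  In the same way `a ∉ H e` for `e ∈ s`.  So `a ∈ Nxt H {s' | ρ s0 ≤ ρ s'} q m k s`.
(v) `hV` gives `a = b s0 l k` for some `l`.  `a ≥ k`, so by `hsel` (for large `t`, all of the finitely many `l`) `a ∈ B l ∩ x`, a finite set not depending on `t`; but `a ≥ k` is arbitrarily large.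
-/

set_option autoImplicit false

namespace Pool.Agent.Lib.MP_ab53ee_gt.GS

open Filter Topology Set

/-- comparison of a limit with a value at a stem -/
private lemma lim_bound {q : Finset ℕ → ℝ} {x : Set ℕ} {v : ℝ} (hv : IsLim q x v) {M : ℕ}
    {s : Finset ℕ} {δ : ℝ} (hs : ∀ m', m' < M → (m' ∈ x ↔ m' ∈ s))
    (hδ : ∀ t' : Finset ℕ, Agree M (t' : Set ℕ) (s : Set ℕ) → |q t' - q s| ≤ δ) :
    |v - q s| ≤ δ := by
  classical
  refine le_of_forall_pos_le_add fun ε hε => ?_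
  obtain ⟨n, hn⟩ := hv ε hε
  let t' : Finset ℕ := (Finset.range (max n M)).filter (· ∈ x)
  have h1 : Agree n (t' : Set ℕ) x := by
    intro m' hm'
    have : m' < max n M := lt_of_lt_of_le hm' (le_max_left _ _)
    show m' ∈ t' ↔ m' ∈ x
    simp only [t', Finset.mem_filter, Finset.mem_range]
    constructor
    · exact fun h => h.2
    · exact fun h => ⟨this, h⟩
  have h2 : Agree M (t' : Set ℕ) (s : Set ℕ) := by
    intro m' hm'
    have : m' < max n M := lt_of_lt_of_le hm' (le_max_right _ _)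
    show m' ∈ t' ↔ m' ∈ s
    rw [← hs m' hm']
    simp only [t', Finset.mem_filter, Finset.mem_range]
    constructor
    · exact fun h => h.2
    · exact fun h => ⟨this, h⟩
  have h3 := hn t' h1
  have h4 := hδ t' h2
  rw [abs_le] at h3 h4 ⊢
  constructor <;> linarith [h3.1, h3.2, h4.1, h4.2]

theorem promise_verify (H H' : ℕ → Set ℕ) (hH' : Monotone H') (hHH : ∀ a, H a ⊆ H' a)
    (q : ℕ → Finset ℕ → ℝ)
    (hsmall : ∀ k (s : Finset ℕ), (∀ e ∈ s, e < k) → |q k s| ≤ 1 / ((k : ℝ) + 1))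
    (J : ℕ → ℕ) (hJ : StrictMono J) (m : ℕ) (ρ : Finset ℕ → Ordinal.{0}) (N R : Finset ℕ → ℕ)
    (b : ∀ s : Finset ℕ, Fin (R s) → ℕ → ℕ) (μ : ℕ → ℕ)
    (hμ : ∀ n k (s : Finset ℕ), k ≤ n → (∀ e ∈ s, e ≤ n) → ∀ t' : Finset ℕ,
      Agree (μ n) (t' : Set ℕ) (s : Set ℕ) → |q k t' - q k s| ≤ 1 / ((k : ℝ) + 1))
    (hg0 : ∀ a, ∀ e < μ a, e ∈ H' a)
    (hg1 : ∀ a t, J t ≤ a → a < J (t + 1) → ∀ e < μ (J (t + 1)), e ∈ H' a)
    (hg2 : ∀ a (s : Finset ℕ), m ≤ a → (∀ e ∈ s, e ≤ a) → ∀ e < N s, e ∈ H' a)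
    (hV : ∀ t (s s' : Finset ℕ), (∀ e ∈ s', e < J t) → m ≤ J t → Ext H (N s) s s' →
      ∀ a ∈ Nxt H {s' | ρ s ≤ ρ s'} q m (J (t + 1)) s', ∃ l, a = b s l (J (t + 1)))
    (hsel : ∀ s (l : Fin (R s)), ∃ B : Set ℕ,
      (∀ᶠ t in atTop, b s l (J t) ∈ B ∨ b s l (J t) < J t) ∧
      ∀ x : Set ℕ, x.Infinite → (∃ n, Thin H' n x) → (x ∩ B).Finite)
    (x : Set ℕ) (hx : x.Infinite) (hxt : ∃ n, Thin H' n x) (v : ℕ → ℝ)
    (hv : ∀ l, IsLim (q (J l)) x (v l)) :
    ∀ᶠ l in atTop, |v l| < 2 / ((m : ℝ) + 1) := by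
  classical
  obtain ⟨n0, hn0⟩ := hxt
  have hthin : ∀ c ∈ x, ∀ e ∈ x, n0 ≤ c → c < e → e ∉ H' c := hn0
  let S : ℕ → Finset ℕ := fun c => (Finset.range c).filter (· ∈ x)
  have memS : ∀ c e, e ∈ S c ↔ e < c ∧ e ∈ x := by
    intro c e
    simp [S]
  -- the stem of minimal rank
  have hne : ({a | a ∈ x ∧ n0 ≤ a ∧ m ≤ a} : Set ℕ).Nonempty := by
    obtain ⟨a, hax, ha⟩ := hx.exists_gt (max n0 m)
    exact ⟨a, hax, le_trans (le_max_left _ _) ha.le, le_trans (le_max_right _ _) ha.le⟩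
  obtain ⟨a0, ⟨ha0x, ha0n, ha0m⟩, hmin⟩ : ∃ a0 ∈ ({a | a ∈ x ∧ n0 ≤ a ∧ m ≤ a} : Set ℕ),
      ∀ a ∈ ({a | a ∈ x ∧ n0 ≤ a ∧ m ≤ a} : Set ℕ), ρ (S (a0 + 1)) ≤ ρ (S (a + 1)) := by
    obtain ⟨o, ⟨a0, ha0, rfl⟩, ho⟩ := (wellFounded_lt (α := Ordinal.{0})).has_min
      ((fun a => ρ (S (a + 1))) '' {a | a ∈ x ∧ n0 ≤ a ∧ m ≤ a}) (hne.image _)
    exact ⟨a0, ha0, fun a ha => not_lt.1 (ho _ ⟨a, ha, rfl⟩)⟩
  -- bounds for the selectors of `s0`
  choose B hB1 hB2 using hsel (S (a0 + 1))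
  have hB2' : ∀ l, (x ∩ B l).Finite := fun l => hB2 l x hx ⟨n0, hn0⟩
  obtain ⟨K, hK⟩ : ∃ K, ∀ l, ∀ e ∈ x ∩ B l, e < K := by
    have h1 : (⋃ l, x ∩ B l).Finite := finite_iUnion hB2'
    obtain ⟨K, hK⟩ := h1.bddAbove
    exact ⟨K + 1, fun l e he => Nat.lt_succ_of_le (hK (mem_iUnion.2 ⟨l, he⟩))⟩
  have hev : ∀ᶠ t in atTop, ∀ l, b (S (a0 + 1)) l (J t) ∈ B l ∨ b (S (a0 + 1)) l (J t) < J t :=
    eventually_all.2 hB1
  have hJt : Tendsto J atTop atTop := hJ.tendsto_atTop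
  have hev2 : ∀ᶠ t in atTop, max (max K m) (a0 + 1) ≤ J t := hJt.eventually_ge_atTop _
  obtain ⟨T, hT⟩ := eventually_atTop.1 (hev.and hev2)
  rw [eventually_atTop]
  refine ⟨T + 1, fun l hl => ?_⟩
  obtain ⟨t, rfl⟩ : ∃ t, l = t + 1 := ⟨l - 1, by omega⟩
  have htT : T ≤ t := by omega
  by_contra hcon
  push Not at hcon
  obtain ⟨hbt, hJt1⟩ := hT (t + 1) (by omega)
  obtain ⟨-, hJt0⟩ := hT t htT
  set k := J (t + 1) with hk
  have hkK : K ≤ k := le_trans (le_trans (le_max_left _ _) (le_max_left _ _)) hJt1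
  have hkm : m ≤ J t := le_trans (le_trans (le_max_right _ _) (le_max_left _ _)) hJt0
  have hJJ : J t < k := hJ (Nat.lt_succ_self t)
  have hka0 : a0 + 1 ≤ J t := le_trans (le_max_right _ _) hJt0
  -- the least element of `x` above `k`
  have hex : ∃ a, k ≤ a ∧ a ∈ x := by
    obtain ⟨a, hax, ha⟩ := hx.exists_gt k
    exact ⟨a, ha.le, hax⟩
  let a := Nat.find hex
  have hak : k ≤ a := (Nat.find_spec hex).1
  have hax : a ∈ x := (Nat.find_spec hex).2
  have hamin : ∀ e ∈ x, k ≤ e → a ≤ e := fun e he hke => Nat.find_min' hex ⟨hke, he⟩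
  have haa0 : a0 < a := by omega
  let s := S k
  have ha0s : a0 ∈ s := (memS k a0).2 ⟨by omega, ha0x⟩
  -- consequences of thinness
  have hth : ∀ e ∈ x, a0 < e → ∀ e' ∈ x, e' < e → e ∉ H e' := by
    intro e he hae e' he' hlt hmem
    by_cases hn : n0 ≤ e'
    · exact hthin e' he' e he hn hlt (hHH e' hmem)
    · have h1 : e ∈ H' e' := hHH e' hmem
      have h2 : e ∈ H' a0 := hH' (show e' ≤ a0 by omega) h1
      exact hthin a0 ha0x e he ha0n hae h2
  have hkm1 : (m : ℝ) < (k : ℝ) := by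
    have : m < k := by omega
    exact_mod_cast this
  have hkpos : (0 : ℝ) < (k : ℝ) + 1 := by positivity
  have hmpos : (0 : ℝ) < (m : ℝ) + 1 := by positivity
  have hfrac : 1 / ((k : ℝ) + 1) < 1 / ((m : ℝ) + 1) :=
    one_div_lt_one_div_of_lt hmpos (by linarith)
  have hqs : |q k s| ≤ 1 / ((k : ℝ) + 1) := hsmall k s (fun e he => ((memS k e).1 he).1)
  have h2m : 2 / ((m : ℝ) + 1) = 1 / ((m : ℝ) + 1) + 1 / ((m : ℝ) + 1) := by ring
  have hvk : IsLim (q k) x (v (t + 1)) := hv (t + 1)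
  -- (i)
  have hi : a < μ k := by
    by_contra hcon2
    push Not at hcon2
    have h1 : |v (t + 1) - q k s| ≤ 1 / ((k : ℝ) + 1) := by
      refine lim_bound hvk (M := μ k) ?_ ?_
      · intro m' hm'
        constructor
        · intro hmx
          refine (memS k m').2 ⟨?_, hmx⟩
          by_contra hge
          push Not at hge
          have := hamin m' hmx hge
          omega
        · intro hms
          exact ((memS k m').1 hms).2
      · intro t' ht'
        exact hμ k k s le_rfl (fun e he => ((memS k e).1 he).1.le) t' ht'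
    have h2 : |v (t + 1)| ≤ |v (t + 1) - q k s| + |q k s| := by
      have := abs_add_le (v (t + 1) - q k s) (q k s)
      simpa using this
    linarith
  -- (ii)
  have hii : ∀ e ∈ s, e < J t := by
    intro e he
    by_contra hge
    push Not at hge
    obtain ⟨hek, hex'⟩ := (memS k e).1 he
    have h1 : a ∈ H' e := hg1 e t hge hek a hi
    exact hthin e hex' a hax (by omega) (by omega) h1
  -- (iii)
  have hins : insert a s = S (a + 1) := by
    ext e
    rw [Finset.mem_insert, memS, memS]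
    constructor
    · rintro (rfl | ⟨h1, h2⟩)
      · exact ⟨Nat.lt_succ_self _, hax⟩
      · exact ⟨by omega, h2⟩
    · rintro ⟨h1, h2⟩
      by_cases h3 : k ≤ e
      · left
        have := hamin e h2 h3
        omega
      · right
        exact ⟨by omega, h2⟩
  have hiii : |v (t + 1) - q k (insert a s)| ≤ 1 / ((k : ℝ) + 1) := by
    refine lim_bound hvk (M := μ a) ?_ ?_
    · intro m' hm'
      rw [hins, memS]
      constructor
      · intro hmx
        refine ⟨?_, hmx⟩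
        by_contra hge
        push Not at hge
        exact hthin a hax m' hmx (by omega) (by omega) (hg0 a m' hm')
      · exact fun h => h.2
    · intro t' ht'
      refine hμ a k (insert a s) hak ?_ t' ht'
      intro e he
      rw [hins, memS] at he
      omega
  have hbad : a ∈ Bad q m k s := by
    refine ⟨hak, ?_⟩
    have h2 : |v (t + 1)| ≤ |v (t + 1) - q k (insert a s)| + |q k (insert a s)| := by
      have := abs_add_le (v (t + 1) - q k (insert a s)) (q k (insert a s))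
      simpa using this
    linarith
  -- (iv)
  have hs0s : S (a0 + 1) ⊆ s := by
    intro e he
    obtain ⟨h1, h2⟩ := (memS _ e).1 he
    exact (memS k e).2 ⟨by omega, h2⟩
  have hext : Ext H (N (S (a0 + 1))) (S (a0 + 1)) s := by
    refine ⟨hs0s, fun e he he0 => ?_⟩
    obtain ⟨hek, hex'⟩ := (memS k e).1 he
    have hae : a0 < e := by
      by_contra hle
      exact he0 ((memS _ e).2 ⟨by omega, hex'⟩)
    refine ⟨?_, ?_, ?_⟩
    · by_contra hlt
      push Not at hlt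
      have h1 : e ∈ H' a0 := hg2 a0 (S (a0 + 1)) ha0m
        (fun e' he' => by have := ((memS _ e').1 he').1; omega) e hlt
      exact hthin a0 ha0x e hex' ha0n hae h1
    · intro e' he'
      have := ((memS _ e').1 he').1
      omega
    · intro e' he' hlt
      exact hth e hex' hae e' ((memS k e').1 he').2 hlt
  have hnxt : a ∈ Nxt H {s' | ρ (S (a0 + 1)) ≤ ρ s'} q m k s := by
    refine ⟨hbad, ?_, ?_⟩
    · intro e he
      obtain ⟨hek, hex'⟩ := (memS k e).1 he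
      exact ⟨by omega, hth a hax haa0 e hex' (by omega)⟩
    · show ρ (S (a0 + 1)) ≤ ρ (insert a s)
      rw [hins]
      exact hmin a ⟨hax, by omega, by omega⟩
  obtain ⟨l, hl'⟩ := hV t (S (a0 + 1)) s hii hkm hext a hnxt
  -- (v)
  rcases hbt l with h1 | h1
  · rw [← hl'] at h1
    have := hK l a ⟨hax, h1⟩
    omega
  · rw [← hl'] at h1
    omega

end Pool.Agent.Lib.MP_ab53ee_gt.GS
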