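import Pool.Agent.Lib.MP_ab53ee_gt.GS.Selector
import Pool.Agent.Lib.MP_ab53ee_gt.GS.Verify
import Pool.Agent.Lib.MP_ab53ee_gt.GS.Modulus
import Pool.Agent.Lib.MP_ab53ee_gt.GS.CondB

/-!
# GS-Promise: the promise construction (assembly)
Proof.  Choose from `hρ` functions `N m s`, `R m s`, `b m s : Fin (R m s) → ℕ → ℕ`.  The set of triples `(m, s, l)`, `l : Fin (R m s)`, is countable: let `β e k := max (b m s l k) k` if `e` encodes
`(m, s, l)` and `β e k := k` otherwise (`Encodable`/`Denumerable` of the sigma type, or a surjection from `ℕ` onto `Option` of it).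
`V n := {k | ∀ m ≤ n, ∀ s s' ⊆ [0,n), Ext H (N m s) s s' → ∀ a ∈ Nxt H {s' | ρ m s ≤ ρ m s'} q m k s', ∃ l, a = b m s l k}`, a finite intersection of sets of the ultrafilter (`s ⊆ s'` by `Ext`).
Apply `selector` to get `J`, `L`.  Let `μ` be from `exists_modulus`, `g c := sum_{c' ≤ c} (μ c' + μ (J (c'+1)) + max_{m ≤ c', s ⊆ [0,c']} N m s)`; apply `cond_extend` with the family index `!i`, `L` and `g`: get `r`, `r.A i = p.A i`.
Given `x`, `v` as in the statement and `m`: `promise_verify` with `H = p.H`, `H' = r.H`, `ρ m`, `N m`, `R m`, `b m`: `hg1`: for `J t ≤ a < J (t+1)` we have `t ≤ a` (`J` strictly monotone), so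
`J (t+1) ≤ J (a+1)` and `μ (J (t+1)) ≤ μ (J (a+1)) ≤ g a`; `hV`: `J (t+1) ∈ V (J t)`; `hsel`: for the index `e` of `(m,s,l)` take `B ∈ p.all ∪ L ⊆ r.all` from `selector`: `max (b k) k ∈ B` implies
`b k ∈ B` or `b k < k`; `x ∩ B` is finite by `thin_ad` for `r`.  So `|v l| < 2/(m+1)` eventually, for every `m`: `v → 0`.
-/

set_option autoImplicit false

namespace Pool.Agent.Lib.MP_ab53ee_gt.GS

open Filter Topology Set

theorem promise (p : Cond) (i : Bool) (q : ℕ → Finset ℕ → ℝ) (hq : ∀ k, QCont (q k))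
    (hsmall : ∀ k (s : Finset ℕ), (∀ e ∈ s, e < k) → |q k s| ≤ 1 / ((k : ℝ) + 1))
    (ρ : ℕ → Finset ℕ → Ordinal.{0})
    (hρ : ∀ m s, Covered p.H q m {s' | ρ m s ≤ ρ m s'} s) :
    ∃ (J : ℕ → ℕ) (r : Cond), StrictMono J ∧ r ≤ p ∧ r.A i = p.A i ∧
      ∀ x : Set ℕ, x.Infinite → (∃ n, Thin r.H n x) → ∀ v : ℕ → ℝ,
        (∀ l, IsLim (q (J l)) x (v l)) → Tendsto v atTop (𝓝 0) := by
  classical
  choose N R b hb using hρ
  obtain ⟨f, hf⟩ : ∃ f : ℕ → Option (Σ (m : ℕ) (s : Finset ℕ), Fin (R m s)),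
      Function.Surjective f := exists_surjective_nat _
  -- the selectors, made at least `k`
  let β : ℕ → ℕ → ℕ := fun e k =>
    match f e with
    | none => k
    | some u => max (b u.1 u.2.1 u.2.2 k) k
  have hβ : ∀ e k, k ≤ β e k := by
    intro e k
    simp only [β]
    cases f e with
    | none => exact le_rfl
    | some u => exact le_max_right _ _
  let V : ℕ → Set ℕ := fun n =>
    {k | ∀ m ∈ Finset.range (n + 1), ∀ s ∈ (Finset.range n).powerset,
      ∀ s' ∈ (Finset.range n).powerset, Ext p.H (N m s) s s' →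
        ∀ a ∈ Nxt p.H {s' | ρ m s ≤ ρ m s'} q m k s', ∃ l, a = b m s l k}
  have hV : ∀ n, V n ∈ (hyperfilter ℕ : Filter ℕ) := by
    intro n
    have h1 : ∀ᶠ k in (hyperfilter ℕ : Filter ℕ), ∀ m ∈ Finset.range (n + 1),
        ∀ s ∈ (Finset.range n).powerset, ∀ s' ∈ (Finset.range n).powerset,
        Ext p.H (N m s) s s' →
          ∀ a ∈ Nxt p.H {s' | ρ m s ≤ ρ m s'} q m k s', ∃ l, a = b m s l k := by
      rw [Filter.eventually_all_finset]
      intro m _
      rw [Filter.eventually_all_finset]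
      intro s _
      rw [Filter.eventually_all_finset]
      intro s' _
      by_cases hE : Ext p.H (N m s) s s'
      · filter_upwards [hb m s s' hE] with k hk _
        exact hk
      · exact Eventually.of_forall fun k h => absurd h hE
    exact h1
  obtain ⟨J, L, hJ, hJV, hLc, hL1, hL2, hsel⟩ := selector p β hβ V hV
  obtain ⟨μ, hμm, hμ⟩ := exists_modulus q hq
  let g : ℕ → ℕ := fun c => μ c + μ (J (c + 1)) +
    ∑ m ∈ Finset.range (c + 1), ∑ s ∈ (Finset.range (c + 1)).powerset, N m s
  obtain ⟨r, hrp, hr1, hr2, hrH, hrg⟩ := cond_extend p (!i) L hLc hL1 hL2 g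
  rw [Bool.not_not] at hr2
  refine ⟨J, r, hJ, hrp, hr2, ?_⟩
  intro x hx hxt v hv
  have hall : p.all ∪ L ⊆ r.all := by
    rintro B (hB | hB)
    · rcases hB with hB | hB
      · exact Or.inl (hrp.1 false hB)
      · exact Or.inr (hrp.1 true hB)
    · have h1 : B ∈ r.A (!i) := by
        rw [hr1]
        exact Or.inr hB
      cases i with
      | false => exact Or.inr h1
      | true => exact Or.inl h1
  have key : ∀ m : ℕ, ∀ᶠ l in atTop, |v l| < 2 / ((m : ℝ) + 1) := by
    intro m
    refine promise_verify p.H r.H r.mono hrH q hsmall J hJ m (ρ m) (N m) (R m) (b m) μ hμ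
      ?_ ?_ ?_ ?_ ?_ x hx hxt v hv
    · intro a e he
      refine hrg a e (lt_of_lt_of_le he ?_)
      simp only [g]
      omega
    · intro a t h1 _ e he
      refine hrg a e (lt_of_lt_of_le he ?_)
      have h3 : t ≤ a := (hJ.id_le t).trans h1
      have h4 : μ (J (t + 1)) ≤ μ (J (a + 1)) := hμm (hJ.monotone (by omega))
      simp only [g]
      omega
    · intro a s hma hsa e he
      refine hrg a e (lt_of_lt_of_le he ?_)
      have h3 : N m s ≤ ∑ s ∈ (Finset.range (a + 1)).powerset, N m s := by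
        refine Finset.single_le_sum (f := fun s => N m s) (fun _ _ => Nat.zero_le _) ?_
        rw [Finset.mem_powerset]
        intro e' he'
        rw [Finset.mem_range]
        have := hsa e' he'
        omega
      have h4 : ∑ s ∈ (Finset.range (a + 1)).powerset, N m s ≤
          ∑ m ∈ Finset.range (a + 1), ∑ s ∈ (Finset.range (a + 1)).powerset, N m s := by
        refine Finset.single_le_sum
          (f := fun m => ∑ s ∈ (Finset.range (a + 1)).powerset, N m s)
          (fun _ _ => Nat.zero_le _) ?_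
        rw [Finset.mem_range]
        omega
      simp only [g]
      omega
    · intro t s s' hs' hmt hE a ha
      have h1 := hJV t
      refine h1 m (Finset.mem_range.2 (by omega)) s ?_ s' ?_ hE a ha
      · rw [Finset.mem_powerset]
        intro e he
        exact Finset.mem_range.2 (hs' e (hE.1 he))
      · rw [Finset.mem_powerset]
        intro e he
        exact Finset.mem_range.2 (hs' e he)
    · intro s l
      obtain ⟨e, he⟩ := hf (some ⟨m, s, l⟩)
      obtain ⟨B, hB, hBe⟩ := hsel e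
      refine ⟨B, ?_, fun x hx hxt => thin_ad r hx hxt B (hall hB)⟩
      filter_upwards [hBe] with t ht
      simp only [β, he] at ht
      rcases le_or_gt (J t) (b m s l (J t)) with h1 | h1
      · rw [max_eq_left h1] at ht
        exact Or.inl ht
      · exact Or.inr h1
  rw [Metric.tendsto_nhds]
  intro ε hε
  obtain ⟨m, hm⟩ := exists_nat_gt (2 / ε)
  filter_upwards [key m] with l hl
  rw [Real.dist_eq, sub_zero]
  refine hl.trans ?_
  have hmp : (0 : ℝ) < (m : ℝ) + 1 := by positivity
  rw [div_lt_iff₀ hmp]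
  rw [div_lt_iff₀ hε] at hm
  nlinarith

end Pool.Agent.Lib.MP_ab53ee_gt.GS
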