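import Mathlib

/-!
# GS-Rank: a monotone operator has a nonempty post-fixed point or a rank function
Proof.  Define by well-founded recursion `T o := {s | ∀ o' < o, s ∈ Γ (T o')}` for `o : Ordinal.{0}`; `T` is antitone.  Let `T' := {s | ∀ o, s ∈ Γ (T o)}`.
For `s ∉ T'` let `ρ s` be the least `o` with `s ∉ Γ (T o)`; `ρ s := 0` for `s ∈ T'`.  The ordinals `ρ s`, `s : S` are bounded by some `o*` (`S : Type`, e.g.
`Ordinal.lsub` / `bddAbove_range`).  `T (o* + 1) ⊆ T'`: if `s ∉ T'`, then `ρ s < o* + 1` and `s ∉ Γ (T (ρ s))`.  Also `T' ⊆ T o` for all `o`.  So `T' = T (o* + 1)` and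
`T' ⊆ Γ (T (o* + 1)) = Γ T'`.  If `T'` is nonempty we are done.  If `T'` is empty: `{s' | ρ s ≤ ρ s'} ⊆ T (ρ s)`, as for `o' < ρ s ≤ ρ s'` we have
`s' ∈ Γ (T o')`.  As `s ∉ Γ (T (ρ s))` and `Γ` is monotone, `s ∉ Γ {s' | ρ s ≤ ρ s'}`.
-/

set_option autoImplicit false

namespace Pool.Agent.Lib.MP_ab53ee_gt.GS

open Set

theorem rank_or {S : Type} (Γ : Set S → Set S) (hΓ : Monotone Γ) :
    (∃ T : Set S, T.Nonempty ∧ T ⊆ Γ T) ∨
      ∃ ρ : S → Ordinal.{0}, ∀ s, s ∉ Γ {s' | ρ s ≤ ρ s'} := by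
  classical
  -- the decreasing transfinite iteration
  let T : Ordinal.{0} → Set S := WellFoundedLT.fix (fun o ih => {s | ∀ o' (h : o' < o), s ∈ Γ (ih o' h)})
  have hT : ∀ o, T o = {s | ∀ o' < o, s ∈ Γ (T o')} := by
    intro o
    exact WellFoundedLT.fix_eq _ o
  let T' : Set S := {s | ∀ o, s ∈ Γ (T o)}
  have hT'T : ∀ o, T' ⊆ T o := by
    intro o s hs
    rw [hT]
    intro o' _
    exact hs o'
  have hρ0 : ∀ s, ∃ o : Ordinal.{0}, s ∉ T' → (s ∉ Γ (T o) ∧ ∀ o' < o, s ∈ Γ (T o')) := by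
    intro s
    by_cases hs : s ∈ T'
    · exact ⟨0, fun h => absurd hs h⟩
    · have hne : {o : Ordinal.{0} | s ∉ Γ (T o)}.Nonempty := by
        by_contra h
        rw [Set.not_nonempty_iff_eq_empty] at h
        apply hs
        intro o
        by_contra hso
        have : o ∈ {o : Ordinal.{0} | s ∉ Γ (T o)} := hso
        rw [h] at this
        exact this
      refine ⟨WellFounded.min wellFounded_lt _ hne, fun _ => ⟨WellFounded.min_mem _ _ hne, ?_⟩⟩
      intro o' ho'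
      by_contra h
      exact WellFounded.not_lt_min wellFounded_lt _ h ho'
  choose ρ hρ using hρ0
  by_cases hne : T'.Nonempty
  · left
    refine ⟨T', hne, ?_⟩
    have hbdd : BddAbove (Set.range ρ) := Ordinal.bddAbove_of_small
    obtain ⟨B, hB⟩ := hbdd
    have hsub : T (Order.succ B) ⊆ T' := by
      intro s hs
      by_contra hsT
      have h1 : ρ s < Order.succ B := Order.lt_succ_of_le (hB (Set.mem_range_self s))
      rw [hT] at hs
      exact (hρ s hsT).1 (hs (ρ s) h1)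
    intro s hs
    have h2 : T (Order.succ B) = T' := Set.Subset.antisymm hsub (hT'T _)
    rw [← h2]
    exact hs (Order.succ B)
  · right
    refine ⟨ρ, fun s hs => ?_⟩
    have hall : ∀ s, s ∉ T' := fun s hs => hne ⟨s, hs⟩
    have hsub : {s' | ρ s ≤ ρ s'} ⊆ T (ρ s) := by
      intro s' hs'
      rw [hT]
      intro o' ho'
      exact (hρ s' (hall s')).2 o' (lt_of_lt_of_le ho' hs')
    exact (hρ s (hall s)).1 (hΓ hsub hs)

end Pool.Agent.Lib.MP_ab53ee_gt.GS
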