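import Pool.Agent.Lib.MP_ab53ee_gt.GS.Kill
import Pool.Agent.Lib.MP_ab53ee_gt.GS.Promise
import Pool.Agent.Lib.MP_ab53ee_gt.GS.Rank

/-!
# GS-Core: the dichotomy (assembly)
Proof.  For each `m` apply `rank_or` to `Γ T := {s | ¬ Covered p.H q m T s}` (monotone by `covered_anti`).  If for some `m` there is a nonempty `T ⊆ Γ T`: `kill` gives the first alternative
(`1/(2(m+1))` as `ε`).  Otherwise choose `ρ m` for all `m` and apply `promise`.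
-/

set_option autoImplicit false

namespace Pool.Agent.Lib.MP_ab53ee_gt.GS

open Filter Topology Set

theorem core (p : Cond) (i : Bool) (q : ℕ → Finset ℕ → ℝ) (hq : ∀ k, QCont (q k))
    (hsmall : ∀ k (s : Finset ℕ), (∀ e ∈ s, e < k) → |q k s| ≤ 1 / ((k : ℝ) + 1)) :
    (∃ (J : ℕ → ℕ) (s : Finset ℕ) (ε : ℝ) (x : ℕ → Set ℕ), StrictMono J ∧ 0 < ε ∧
      (∀ t, (x t).Infinite ∧ ∃ n, Thin p.H n (x t)) ∧
      (∀ t t', t ≠ t' → (x t ∩ x t').Finite) ∧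
      (∀ n, ∀ᶠ t in atTop, Agree n (x t) (s : Set ℕ)) ∧
      ∀ t, ∀ᶠ l in atTop, ∀ v, IsLim (q (J l)) (x t) v → ε ≤ |v|) ∨
    ∃ (J : ℕ → ℕ) (r : Cond), StrictMono J ∧ r ≤ p ∧ r.A i = p.A i ∧
      ∀ x : Set ℕ, x.Infinite → (∃ n, Thin r.H n x) → ∀ v : ℕ → ℝ,
        (∀ l, IsLim (q (J l)) x (v l)) → Tendsto v atTop (𝓝 0) := by
  by_cases hk : ∃ (m : ℕ) (T : Set (Finset ℕ)), T.Nonempty ∧ ∀ s ∈ T, ¬ Covered p.H q m T s
  · obtain ⟨m, T, hT, hTc⟩ := hk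
    obtain ⟨J, s, x, h1, h2, h3, h4, h5⟩ := kill p.H q hq m T hT hTc
    exact Or.inl ⟨J, s, 1 / (2 * ((m : ℝ) + 1)), x, h1, by positivity, h2, h3, h4, h5⟩
  · right
    have hρ : ∀ m, ∃ ρ : Finset ℕ → Ordinal.{0}, ∀ s, Covered p.H q m {s' | ρ s ≤ ρ s'} s := by
      intro m
      have hmono : Monotone (fun T : Set (Finset ℕ) => {s | ¬ Covered p.H q m T s}) := by
        intro T T' hTT s hs hc
        exact hs (covered_anti hTT hc)
      rcases rank_or (fun T : Set (Finset ℕ) => {s | ¬ Covered p.H q m T s}) hmono with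
        ⟨T, hT, hT'⟩ | ⟨ρ, h⟩
      · exact absurd ⟨m, T, hT, fun s hs => hT' hs⟩ hk
      · exact ⟨ρ, fun s => not_not.1 (h s)⟩
    choose ρ hρ using hρ
    exact promise p i q hq hsmall ρ hρ

end Pool.Agent.Lib.MP_ab53ee_gt.GS
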