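import Mathlib
import Pool.Agent.Results.MP_8a2df8_gt.ProductCompact

/-!
# Definitions for the CH counterexample to `Grothendieck + Grothendieck`

`AEq`, `ADF`, `PtSet`, `Pt`: almost disjoint families and the space `X(A)` of all sets of naturals
that are finite or almost equal to a member of `A`.
`Cond`: countable conditions.  `Code`: codes for sequences of functions.
-/

set_option autoImplicit false

namespace Pool.Agent.Lib.MP_ab53ee_gt.GS

open Filter Topology Set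
open Pool.Agent.Results.MP_8a2df8_gt.ProductCompact

/-- `x` and `y` differ by finitely many points -/
def AEq (x y : Set ℕ) : Prop := (x \ y).Finite ∧ (y \ x).Finite

/-- `x` and `y` have the same members below `n` -/
def Agree (n : ℕ) (x y : Set ℕ) : Prop := ∀ m, m < n → (m ∈ x ↔ m ∈ y)

/-- almost disjoint families of infinite sets -/
def ADF (𝒜 : Set (Set ℕ)) : Prop :=
  (∀ A ∈ 𝒜, A.Infinite) ∧ ∀ A ∈ 𝒜, ∀ B ∈ 𝒜, A ≠ B → (A ∩ B).Finite

/-- sets that are finite or almost equal to a member of `𝒜` -/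
def PtSet (𝒜 : Set (Set ℕ)) : Set (Set ℕ) := {x | x.Finite ∨ ∃ A ∈ 𝒜, AEq x A}

/-- the points of the space `X(𝒜)` -/
def Pt (𝒜 : Set (Set ℕ)) : Type := {x : Set ℕ // x ∈ PtSet 𝒜}

open Classical in
/-- coordinates: the characteristic function, and for each `A ∈ 𝒜` whether `x` is almost `A` -/
noncomputable def coord (𝒜 : Set (Set ℕ)) (x : Pt 𝒜) : (ℕ → Bool) × (𝒜 → Bool) :=
  (fun n => decide (n ∈ x.1), fun A => decide (AEq x.1 A.1))

/-- the topology of `X(𝒜)` -/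
noncomputable instance (𝒜 : Set (Set ℕ)) : TopologicalSpace (Pt 𝒜) :=
  TopologicalSpace.induced (coord 𝒜) inferInstance

/-- a finite set as a point of `X(𝒜)` -/
def finPt (𝒜 : Set (Set ℕ)) (s : Finset ℕ) : Pt 𝒜 := ⟨(s : Set ℕ), Or.inl s.finite_toSet⟩

/-- every sequence of nonzero continuous functions with relatively countably compact range that
accumulates at `0` has a subsequence converging to `0` -/
def FUZ (X : Type) [TopologicalSpace X] : Prop :=
  ∀ φ : ℕ → X → ℝ, RCC (range φ) → (0 : X → ℝ) ∈ closure (range φ) → (∀ j, φ j ≠ 0) →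
    ∃ J : ℕ → ℕ, StrictMono J ∧ ∀ x, Tendsto (fun l => φ (J l) x) atTop (𝓝 0)

/-- `v` is the limit of `q` at `x` along finite sets -/
def IsLim (q : Finset ℕ → ℝ) (x : Set ℕ) (v : ℝ) : Prop :=
  ∀ ε : ℝ, 0 < ε → ∃ n, ∀ s : Finset ℕ, Agree n (s : Set ℕ) x → |q s - v| ≤ ε

/-- continuity of `q` on the finite sets -/
def QCont (q : Finset ℕ → ℝ) : Prop := ∀ s : Finset ℕ, IsLim q (s : Set ℕ) (q s)

/-- `x` is `H`-thin above `n` -/
def Thin (H : ℕ → Set ℕ) (n : ℕ) (x : Set ℕ) : Prop :=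
  ∀ a ∈ x, ∀ b ∈ x, n ≤ a → a < b → b ∉ H a

/-- countable conditions -/
structure Cond where
  /-- the two families -/
  A : Bool → Set (Set ℕ)
  /-- the thinness function -/
  H : ℕ → Set ℕ
  cnt : ∀ i, (A i).Countable
  ad : ADF (A false ∪ A true)
  disj : Disjoint (A false) (A true)
  mono : Monotone H
  small : ∀ a, ∃ F : Finset (Set ℕ), (F : Set (Set ℕ)) ⊆ A false ∪ A true ∧
    (H a \ ⋃ B ∈ F, B).Finite
  cov : ∀ B ∈ A false ∪ A true, ∃ a, (B \ H a).Finite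

/-- all members of a condition -/
def Cond.all (p : Cond) : Set (Set ℕ) := p.A false ∪ p.A true

instance : LE Cond where
  le q p := (∀ i, p.A i ⊆ q.A i) ∧ (∀ B ∈ q.all, B ∉ p.all → ∃ n, Thin p.H n B) ∧
    ∃ N, ∀ a, N ≤ a → p.H a ⊆ q.H a

/-- the bad next points of `s` at `k` -/
def Bad (q : ℕ → Finset ℕ → ℝ) (m k : ℕ) (s : Finset ℕ) : Set ℕ :=
  {a | k ≤ a ∧ 1 / ((m : ℝ) + 1) ≤ |q k (insert a s)|}

/-- `s'` is an `H`-thin end extension of `s` with new points above `N` -/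
def Ext (H : ℕ → Set ℕ) (N : ℕ) (s s' : Finset ℕ) : Prop :=
  s ⊆ s' ∧ ∀ e ∈ s', e ∉ s → N ≤ e ∧ (∀ e' ∈ s, e' < e) ∧ ∀ e' ∈ s', e' < e → e ∉ H e'

/-- the bad next points that are thin over `s` and lead into `T` -/
def Nxt (H : ℕ → Set ℕ) (T : Set (Finset ℕ)) (q : ℕ → Finset ℕ → ℝ) (m k : ℕ)
    (s : Finset ℕ) : Set ℕ :=
  {a | a ∈ Bad q m k s ∧ (∀ e ∈ s, e < a ∧ a ∉ H e) ∧ insert a s ∈ T}

/-- near `s` the bad next points are covered by finitely many selectors -/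
def Covered (H : ℕ → Set ℕ) (q : ℕ → Finset ℕ → ℝ) (m : ℕ) (T : Set (Finset ℕ))
    (s : Finset ℕ) : Prop :=
  ∃ (N r : ℕ) (b : Fin r → ℕ → ℕ), ∀ s', Ext H N s s' →
    ∀ᶠ k in (hyperfilter ℕ : Filter ℕ), ∀ a ∈ Nxt H T q m k s', ∃ l, a = b l k

/-- codes for sequences of functions on `X(𝒜)` -/
structure Code where
  /-- which family -/
  i : Bool
  /-- values at the finite sets -/
  q : ℕ → Finset ℕ → ℝ
  /-- a list of points -/
  x : ℕ → Set ℕ
  /-- `r j m` is the value of the `j`-th function at the point `x m` -/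
  r : ℕ → ℕ → ℝ

/-- valid codes -/
def Code.Valid (c : Code) : Prop :=
  (∀ j, QCont (c.q j)) ∧ (∀ s : Finset ℕ, ∃ m, c.x m = (s : Set ℕ)) ∧
    (∀ j m m', c.x m = c.x m' → c.r j m = c.r j m') ∧
    ∀ j m (s : Finset ℕ), c.x m = (s : Set ℕ) → c.r j m = c.q j s

open Classical in
/-- the value of the `j`-th function at a set `y` -/
noncomputable def Code.Val (c : Code) (j : ℕ) (y : Set ℕ) : ℝ :=
  if h : ∃ m, c.x m = y then c.r j h.choose
  else if h : ∃ v, IsLim (c.q j) y v then h.choose else 0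

/-- some function of the code vanishes -/
def Zer (g : Cond) (c : Code) : Prop := ∃ j, ∀ y ∈ PtSet (g.A c.i), c.Val j y = 0

/-- some function of the code has no limit at some new point -/
def NoLim (g : Cond) (c : Code) : Prop :=
  ∃ j, ∃ y ∈ PtSet (g.A c.i), y ∉ range c.x ∧ ¬ ∃ v, IsLim (c.q j) y v

/-- the functions of the code stay away from `0` on some finite set -/
def Away (g : Cond) (c : Code) : Prop :=
  ∃ P : Finset (Set ℕ), (P : Set (Set ℕ)) ⊆ PtSet (g.A c.i) ∧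
    ∃ ε : ℝ, 0 < ε ∧ ∀ j, ∃ y ∈ P, ε ≤ |c.Val j y|

/-- a subsequence is large on members converging to a finite set where it tends to `0` -/
def Killed (g : Cond) (c : Code) : Prop :=
  ∃ (J : ℕ → ℕ) (s : Finset ℕ) (ε : ℝ) (x : ℕ → Set ℕ), StrictMono J ∧ 0 < ε ∧
    (∀ t, x t ∈ g.A c.i) ∧ (∀ t t', t ≠ t' → x t ≠ x t') ∧
    (∀ n, ∀ᶠ t in atTop, Agree n (x t) (s : Set ℕ)) ∧
    (∀ t, ∀ᶠ l in atTop, ε ≤ |c.Val (J l) (x t)|) ∧
    Tendsto (fun l => c.Val (J l) (s : Set ℕ)) atTop (𝓝 0)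

/-- a subsequence tends to `0` at all present points and at all thin sets -/
def Promised (g : Cond) (c : Code) : Prop :=
  ∃ J : ℕ → ℕ, StrictMono J ∧
    (∀ y ∈ PtSet (g.A c.i), Tendsto (fun l => c.Val (J l) y) atTop (𝓝 0)) ∧
    ∀ x : Set ℕ, x.Infinite → (∃ n, Thin g.H n x) → ∀ v : ℕ → ℝ,
      (∀ l, IsLim (c.q (J l)) x (v l)) → Tendsto v atTop (𝓝 0)

/-- the condition `g` has dealt with the code `c` -/
def Handled (g : Cond) (c : Code) : Prop :=
  Zer g c ∨ NoLim g c ∨ Away g c ∨ Killed g c ∨ Promised g c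

/-- the dense set of a code -/
def DCode (c : Code) : Set Cond :=
  {g | c.Valid → ((∀ r, r ≤ g → ¬ range c.x ⊆ PtSet (r.A c.i)) ∨
    (range c.x ⊆ PtSet (g.A c.i) ∧ Handled g c))}

/-- the dense set of an infinite set -/
def DSet (M : Set ℕ) : Set Cond := {g | M.Infinite → ∃ B ∈ g.all, (B ∩ M).Infinite}

end Pool.Agent.Lib.MP_ab53ee_gt.GS
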