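import Pool.Agent.Lib.MP_ab53ee_gt.GS.TopC
import Pool.Agent.Lib.MP_ab53ee_gt.GS.CondA

/-!
# GS-Extract: values of codes; extraction of a subsequence tending to `0` on a countable set
`ptSet_countable`: for `A` countable, the sets almost equal to `A` are countably many (`x` is determined by the finite sets `x \ A`, `A \ x`).
`val_range`: by the third clause of `Valid`.  `val_fin`: by the second and fourth clause.  `val_lim`: uniqueness of limits.
`extract`: enumerate `S = {y_0, y_1, ...}` (it contains the finite sets).  Choose recursively `J l` larger than `J (l-1)` with `|V (J l) y_i| ≤ 1/(l+1)` for `i ≤ l` and at all finite sets `⊆ [0,l)`: for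
each `j ≤ J (l-1)` pick `z_j ∈ S` with `V j z_j ≠ 0`; apply the second hypothesis to the finite set of all the points mentioned and the `z_j`, and to an `ε` smaller than `1/(l+1)`
and all `|V j z_j|`: the index obtained is none of the `j ≤ J (l-1)`.
-/

set_option autoImplicit false

namespace Pool.Agent.Lib.MP_ab53ee_gt.GS

open Filter Topology Set

theorem ptSet_countable {𝒜 : Set (Set ℕ)} (h : 𝒜.Countable) : (PtSet 𝒜).Countable := by
  have hc : ((insert ∅ 𝒜) ×ˢ (univ : Set (Finset ℕ × Finset ℕ))).Countable :=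
    (h.insert ∅).prod (Set.to_countable _)
  refine (hc.image (fun t : Set ℕ × (Finset ℕ × Finset ℕ) =>
    (t.1 \ (t.2.1 : Set ℕ)) ∪ (t.2.2 : Set ℕ))).mono ?_
  intro x hx
  rcases hx with hx | ⟨A, hA, h1, h2⟩
  · refine ⟨(∅, (∅, hx.toFinset)), ⟨mem_insert _ _, mem_univ _⟩, ?_⟩
    simp
  · refine ⟨(A, (h2.toFinset, h1.toFinset)), ⟨mem_insert_of_mem _ hA, mem_univ _⟩, ?_⟩
    ext n
    simp only [Finite.coe_toFinset, mem_union, Set.mem_sdiff]
    tauto

theorem ptSet_mono {𝒜 ℬ : Set (Set ℕ)} (h : 𝒜 ⊆ ℬ) : PtSet 𝒜 ⊆ PtSet ℬ := by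
  intro x hx
  rcases hx with hx | ⟨A, hA, h1⟩
  · exact Or.inl hx
  · exact Or.inr ⟨A, h hA, h1⟩

theorem val_range {c : Code} (hc : c.Valid) (j m : ℕ) : c.Val j (c.x m) = c.r j m := by
  have h : ∃ m', c.x m' = c.x m := ⟨m, rfl⟩
  unfold Code.Val
  rw [dif_pos h]
  exact hc.2.2.1 j _ m h.choose_spec

theorem val_fin {c : Code} (hc : c.Valid) (j : ℕ) (s : Finset ℕ) :
    c.Val j (s : Set ℕ) = c.q j s := by
  obtain ⟨m, hm⟩ := hc.2.1 s
  rw [← hm, val_range hc]
  exact hc.2.2.2 j m s hm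

private theorem lim_unique {q : Finset ℕ → ℝ} {y : Set ℕ} {v w : ℝ}
    (hv : IsLim q y v) (hw : IsLim q y w) : v = w := by
  classical
  by_contra hne
  have hpos : 0 < |v - w| := abs_pos.2 (sub_ne_zero.2 hne)
  obtain ⟨n, hn⟩ := hv (|v - w| / 3) (by positivity)
  obtain ⟨n', hn'⟩ := hw (|v - w| / 3) (by positivity)
  let s : Finset ℕ := (Finset.range (max n n')).filter (fun m => m ∈ y)
  have hs : ∀ k, k ≤ max n n' → Agree k (s : Set ℕ) y := by
    intro k hk m hm
    simp only [s, Finset.coe_filter, Finset.mem_range, Set.mem_ofPred_eq]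
    constructor
    · exact fun h => h.2
    · exact fun h => ⟨by omega, h⟩
  have h1 := hn s (hs n (le_max_left _ _))
  have h2 := hn' s (hs n' (le_max_right _ _))
  have h3 : |v - w| ≤ |q s - v| + |q s - w| := by
    have : v - w = (q s - w) - (q s - v) := by ring
    rw [this]
    have := abs_sub (q s - w) (q s - v)
    linarith
  linarith

theorem val_lim {c : Code} {j : ℕ} {y : Set ℕ} (hy : y ∉ range c.x) {v : ℝ}
    (hv : IsLim (c.q j) y v) : c.Val j y = v := by
  have h1 : ¬ ∃ m, c.x m = y := fun ⟨m, hm⟩ => hy ⟨m, hm⟩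
  have h2 : ∃ v, IsLim (c.q j) y v := ⟨v, hv⟩
  unfold Code.Val
  rw [dif_neg h1, dif_pos h2]
  exact lim_unique h2.choose_spec hv

theorem extract {S : Set (Set ℕ)} (hS : S.Countable) (hfin : ∀ s : Finset ℕ, (s : Set ℕ) ∈ S)
    (V : ℕ → Set ℕ → ℝ) (h0 : ∀ j, ∃ y ∈ S, V j y ≠ 0)
    (h1 : ∀ P : Finset (Set ℕ), (P : Set (Set ℕ)) ⊆ S → ∀ ε : ℝ, 0 < ε →
      ∃ j, ∀ y ∈ P, |V j y| < ε) :
    ∃ J : ℕ → ℕ, StrictMono J ∧ (∀ y ∈ S, Tendsto (fun l => V (J l) y) atTop (𝓝 0)) ∧
      ∀ l (s : Finset ℕ), (∀ e ∈ s, e < l) → |V (J l) (s : Set ℕ)| ≤ 1 / ((l : ℝ) + 1) := by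
  classical
  obtain ⟨f, hf⟩ := hS.exists_eq_range ⟨((∅ : Finset ℕ) : Set ℕ), hfin ∅⟩
  choose z hzS hz using h0
  have hfS : ∀ i, f i ∈ S := fun i => by rw [hf]; exact mem_range_self i
  have step : ∀ l b : ℕ, ∃ j, b < j ∧ (∀ i, i ≤ l → |V j (f i)| ≤ 1 / ((l : ℝ) + 1)) ∧
      ∀ s : Finset ℕ, (∀ e ∈ s, e < l) → |V j (s : Set ℕ)| ≤ 1 / ((l : ℝ) + 1) := by
    intro l b
    obtain ⟨j0, hj0, hmin⟩ := Finset.exists_min_image (Finset.range (b + 1))
      (fun j => |V j (z j)|) ⟨0, by simp⟩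
    have hε : 0 < |V j0 (z j0)| := abs_pos.2 (hz j0)
    let P : Finset (Set ℕ) := (Finset.range (l + 1)).image f ∪
      ((Finset.range l).powerset.image (fun s : Finset ℕ => (s : Set ℕ)) ∪
        (Finset.range (b + 1)).image z)
    have hP : (P : Set (Set ℕ)) ⊆ S := by
      intro y hy
      simp only [P, Finset.coe_union, Finset.coe_image, mem_union, mem_image] at hy
      rcases hy with ⟨i, _, rfl⟩ | ⟨s, _, rfl⟩ | ⟨j, _, rfl⟩
      · exact hfS i
      · exact hfin s
      · exact hzS j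
    obtain ⟨j, hj⟩ := h1 P hP (min |V j0 (z j0)| (1 / ((l : ℝ) + 1)))
      (lt_min hε (by positivity))
    refine ⟨j, ?_, ?_, ?_⟩
    · by_contra hjb
      have hjm : j ∈ Finset.range (b + 1) := by rw [Finset.mem_range]; omega
      have h2 := hj (z j) (by
        simp only [P, Finset.mem_union, Finset.mem_image]
        exact Or.inr (Or.inr ⟨j, hjm, rfl⟩))
      have h3 := hmin j hjm
      have h4 := lt_of_lt_of_le h2 (min_le_left _ _)
      exact absurd h3 (not_le.2 h4)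
    · intro i hi
      have h2 := hj (f i) (by
        simp only [P, Finset.mem_union, Finset.mem_image]
        exact Or.inl ⟨i, by rw [Finset.mem_range]; omega, rfl⟩)
      exact (lt_of_lt_of_le h2 (min_le_right _ _)).le
    · intro s hs
      have h2 := hj (s : Set ℕ) (by
        simp only [P, Finset.mem_union, Finset.mem_image]
        refine Or.inr (Or.inl ⟨s, ?_, rfl⟩)
        rw [Finset.mem_powerset]
        intro e he
        exact Finset.mem_range.2 (hs e he))
      exact (lt_of_lt_of_le h2 (min_le_right _ _)).le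
  choose g hg1 hg2 hg3 using step
  let J : ℕ → ℕ := fun l => Nat.rec (g 0 0) (fun l' b => g (l' + 1) b) l
  have hJs : ∀ l, J (l + 1) = g (l + 1) (J l) := fun l => rfl
  have hJ2 : ∀ l i, i ≤ l → |V (J l) (f i)| ≤ 1 / ((l : ℝ) + 1) := by
    intro l
    rcases l with _ | l
    · exact hg2 0 0
    · rw [hJs]; exact hg2 (l + 1) (J l)
  have hJ3 : ∀ l, ∀ s : Finset ℕ, (∀ e ∈ s, e < l) →
      |V (J l) (s : Set ℕ)| ≤ 1 / ((l : ℝ) + 1) := by
    intro l
    rcases l with _ | l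
    · exact hg3 0 0
    · rw [hJs]; exact hg3 (l + 1) (J l)
  refine ⟨J, strictMono_nat_of_lt_succ (fun l => ?_), ?_, hJ3⟩
  · rw [hJs]; exact hg1 (l + 1) (J l)
  · intro y hy
    rw [hf] at hy
    obtain ⟨i, rfl⟩ := hy
    refine squeeze_zero_norm' ?_ tendsto_one_div_add_atTop_nhds_zero_nat
    filter_upwards [eventually_ge_atTop i] with l hl
    rw [Real.norm_eq_abs]
    exact hJ2 l i hl

end Pool.Agent.Lib.MP_ab53ee_gt.GS
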