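import Pool.Agent.Lib.MP_ab53ee_gt.GS.Core
import Pool.Agent.Lib.MP_ab53ee_gt.GS.Extract

/-!
# GS-Dens: the dense set of a code (assembly)
Proof.  If `c` is not valid or no `r ≤ p` has `range c.x ⊆ PtSet (r.A c.i)`, take `g = p`.  Otherwise let `r ≤ p` be such a condition, `S := PtSet (r.A c.i)` (countable, `ptSet_countable`).
If `Zer r c`, `NoLim r c` or `Away r c` take `g = r`.  Otherwise `extract` (with `V = c.Val`) gives `J`; `core` for `r`, `i = c.i`, `q l := c.q (J l)` (`val_fin` gives `hsmall`, `Valid` gives `QCont`).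
First alternative `J', s, ε, x`: `cond_extend r c.i (range x)` gives `g ≤ r`, `g.A c.i = r.A c.i ∪ range x` (`x t ∩ x t'` finite and `x t` infinite, so `x` is injective and pairwise almost disjoint).
`x t ∉ PtSet (r.A c.i) ⊇ range c.x` (`thin_ad`: a set almost equal to a member meets it in an infinite set).  If `¬ ∃ v, IsLim (c.q (J (J' l))) (x t) v` for some `t, l`, then `NoLim g c`.  Otherwise
`c.Val (J (J' l)) (x t)` is this `v` (`val_lim`), so `ε ≤ |..|` eventually, and `Killed g c` with `J ∘ J'` (`x t ∈ g.A c.i`; `s` is in `S`, so the values at `s` tend to `0`).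
Second alternative `J', r'`: `g := r'`, `PtSet (g.A c.i) = S`, `Promised g c` with `J ∘ J'`.  In all cases `range c.x ⊆ S ⊆ PtSet (g.A c.i)` (`ptSet_mono`) and `g ≤ p`.
-/

set_option autoImplicit false

namespace Pool.Agent.Lib.MP_ab53ee_gt.GS

open Filter Topology Set

theorem dense_code (c : Code) (p : Cond) : ∃ g, g ≤ p ∧ g ∈ DCode c := by
  classical
  by_cases hv : c.Valid
  swap
  · exact ⟨p, cond_le_refl p, fun h => absurd h hv⟩
  by_cases hr : ∃ r, r ≤ p ∧ range c.x ⊆ PtSet (r.A c.i)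
  swap
  · exact ⟨p, cond_le_refl p, fun _ => Or.inl fun r hrp hcon => hr ⟨r, hrp, hcon⟩⟩
  obtain ⟨r, hrp, hrx⟩ := hr
  suffices hsuff : ∃ g, g ≤ r ∧ Handled g c by
    obtain ⟨g, hgr, hg⟩ := hsuff
    refine ⟨g, cond_le_trans hgr hrp, fun _ => Or.inr ⟨hrx.trans (ptSet_mono (hgr.1 c.i)), hg⟩⟩
  by_cases hZ : Zer r c
  · exact ⟨r, cond_le_refl r, Or.inl hZ⟩
  by_cases hN : NoLim r c
  · exact ⟨r, cond_le_refl r, Or.inr (Or.inl hN)⟩
  by_cases hA : Away r c
  · exact ⟨r, cond_le_refl r, Or.inr (Or.inr (Or.inl hA))⟩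
  have hS : (PtSet (r.A c.i)).Countable := ptSet_countable (r.cnt c.i)
  have hfin : ∀ s : Finset ℕ, (s : Set ℕ) ∈ PtSet (r.A c.i) := fun s => Or.inl s.finite_toSet
  have h0 : ∀ j, ∃ y ∈ PtSet (r.A c.i), c.Val j y ≠ 0 := by
    intro j
    by_contra hcon
    push Not at hcon
    exact hZ ⟨j, hcon⟩
  have h1 : ∀ P : Finset (Set ℕ), (P : Set (Set ℕ)) ⊆ PtSet (r.A c.i) → ∀ ε : ℝ, 0 < ε →
      ∃ j, ∀ y ∈ P, |c.Val j y| < ε := by
    intro P hP ε hε
    by_contra hcon
    push Not at hcon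
    exact hA ⟨P, hP, ε, hε, hcon⟩
  obtain ⟨J, hJ, hJ0, hJs⟩ := extract hS hfin c.Val h0 h1
  have hsmall : ∀ k (s : Finset ℕ), (∀ e ∈ s, e < k) →
      |(fun l => c.q (J l)) k s| ≤ 1 / ((k : ℝ) + 1) := by
    intro k s hs
    have := hJs k s hs
    rwa [val_fin hv] at this
  rcases core r c.i (fun l => c.q (J l)) (fun l => hv.1 (J l)) hsmall with
    ⟨J', s, ε, x, hJ', hε, hx, hxx, hxs, hxl⟩ | ⟨J', r', hJ', hr', hrA, hpr⟩
  · obtain ⟨g, hgr, hgA, -, -, -⟩ := cond_extend r c.i (range x) (countable_range x)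
      (by rintro _ ⟨t, rfl⟩; exact hx t)
      (by
        rintro _ ⟨t, rfl⟩ _ ⟨t', rfl⟩ hne
        exact hxx t t' fun h => hne (by rw [h])) (fun _ => 0)
    have hmem : ∀ t, x t ∈ g.A c.i := by
      intro t
      rw [hgA]
      exact Or.inr ⟨t, rfl⟩
    have hnot : ∀ t, x t ∉ range c.x := by
      intro t ht
      rcases hrx ht with hf | ⟨A, hAr, hAe⟩
      · exact (hx t).1 hf
      · have hAall : A ∈ r.all := by
          cases hi : c.i with
          | false =>
            rw [hi] at hAr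
            exact Or.inl hAr
          | true =>
            rw [hi] at hAr
            exact Or.inr hAr
        have h2 := thin_ad r (hx t).1 (hx t).2 A hAall
        refine (hx t).1 ((h2.union hAe.1).subset ?_)
        intro e he
        by_cases heA : e ∈ A
        · exact Or.inl ⟨he, heA⟩
        · exact Or.inr ⟨he, heA⟩
    refine ⟨g, hgr, ?_⟩
    by_cases hlim : ∀ t l, ∃ v, IsLim (c.q (J (J' l))) (x t) v
    · refine Or.inr (Or.inr (Or.inr (Or.inl ⟨J ∘ J', s, ε, x, hJ.comp hJ', hε, hmem, ?_, hxs,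
        ?_, ?_⟩)))
      · intro t t' htt heq
        have := hxx t t' htt
        rw [← heq, inter_self] at this
        exact (hx t).1 this
      · intro t
        filter_upwards [hxl t] with l hl
        obtain ⟨w, hw⟩ := hlim t l
        show ε ≤ |c.Val (J (J' l)) (x t)|
        rw [val_lim (hnot t) hw]
        exact hl w hw
      · exact (hJ0 (s : Set ℕ) (hfin s)).comp hJ'.tendsto_atTop
    · push Not at hlim
      obtain ⟨t, l, hl⟩ := hlim
      refine Or.inr (Or.inl ⟨J (J' l), x t, Or.inr ⟨x t, hmem t, ?_⟩, hnot t, ?_⟩)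
      · exact ⟨by simp, by simp⟩
      · rintro ⟨w, hw⟩
        exact hl w hw
  · refine ⟨r', hr', Or.inr (Or.inr (Or.inr (Or.inr ⟨J ∘ J', hJ.comp hJ', ?_, ?_⟩)))⟩
    · intro y hy
      rw [hrA] at hy
      exact (hJ0 y hy).comp hJ'.tendsto_atTop
    · intro x hx hxt v hlim
      exact hpr x hx hxt v hlim

end Pool.Agent.Lib.MP_ab53ee_gt.GS
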