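import Pool.Agent.Lib.MP_ab53ee_gt.GS.TopC

/-!
# GS-TopD: countable tightness at `0` of relatively compact sets of continuous functions on `X(𝒜)`
Proof.  Call `g` GOOD if `g` is continuous, `g ∈ closure A''` for a countable `A'' ⊆ S`, and `g (finPt 𝒜 t) = 0` for all finite `t`.
(1) By `exists_countable_isLim` a good `g` vanishes at all points outside countably many points
    (outside `F`: the limit of the zero function is `0`; for `A ∈ F` there are countably many `x` almost equal to `A`).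
(2) For finite `P ⊆ Pt 𝒜` and `ε > 0` there is a good `g` with `|g| ≤ ε` on `P`: enumerate the finite sets `t_0, t_1, ...`; as
    `0 ∈ closure S` choose `a n ∈ S` with `|a n (t_m)| < 1/(n+1)` for `m < n` and `|a n| < ε` on `P`; a continuous cluster point `g` of
    `(a n)` exists by `RCC`; cluster points keep the closed conditions, so `g (t_m) = 0`, `|g| ≤ ε` on `P`; `g ∈ closure (range a)`.
(3) Choose good `g 0, g 1, ...`; let `(x_{k,i})_i` list the points where `g k ≠ 0` (or a constant list); choose `g n` with `|g n| ≤ 1/(n+1)` at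
    `x_{k,i}`, `k, i < n`.  Then `g n → 0` pointwise: at a point where all `g n` vanish it is clear, a point with `g k x ≠ 0` is some `x_{k,i}`.
(4) So `0 ∈ closure {g n} ⊆ closure (⋃ A''_n)`, a countable subset of `S`.
-/

set_option autoImplicit false

namespace Pool.Agent.Lib.MP_ab53ee_gt.GS

open Filter Topology Set
open Pool.Agent.Results.MP_8a2df8_gt.ProductCompact

private theorem exists_strong_seq {α : Type*} (R : ∀ n : ℕ, (∀ k, k < n → α) → α → Prop)
    (h : ∀ n f, ∃ a, R n f a) : ∃ G : ℕ → α, ∀ n, R n (fun k _ => G k) (G n) := by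
  choose F hF using h
  let G : ℕ → α := WellFounded.fix (C := fun _ => α) Nat.lt_wfRel.wf (fun n f => F n f)
  refine ⟨G, fun n => ?_⟩
  have h1 : G n = F n (fun k _ => G k) :=
    WellFounded.fix_eq (C := fun _ => α) Nat.lt_wfRel.wf (fun n f => F n f) n
  rw [h1]
  exact hF n _

/-- continuous, in the closure of a countable subset of `S`, zero at the finite sets -/
private def Good {𝒜 : Set (Set ℕ)} (S : Set (Pt 𝒜 → ℝ)) (g : Pt 𝒜 → ℝ) : Prop :=
  Continuous g ∧ (∃ S' ⊆ S, S'.Countable ∧ g ∈ closure S') ∧ ∀ t : Finset ℕ, g (finPt 𝒜 t) = 0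

private theorem countable_aeq (A : Set ℕ) : {x : Set ℕ | AEq x A}.Countable := by
  classical
  have : Function.Injective (fun x : {x : Set ℕ | AEq x A} =>
      (x.2.1.toFinset, x.2.2.toFinset)) := by
    intro x y hxy
    apply Subtype.ext
    have h1 : x.1 \ A = y.1 \ A := by
      have := congrArg (fun p : Finset ℕ × Finset ℕ => (p.1 : Set ℕ)) hxy
      simpa using this
    have h2 : A \ x.1 = A \ y.1 := by
      have := congrArg (fun p : Finset ℕ × Finset ℕ => (p.2 : Set ℕ)) hxy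
      simpa using this
    ext a
    by_cases ha : a ∈ A
    · constructor
      · intro hx
        by_contra hy
        have h3 : a ∈ A \ y.1 := ⟨ha, hy⟩
        rw [← h2] at h3
        exact h3.2 hx
      · intro hy
        by_contra hx
        have h3 : a ∈ A \ x.1 := ⟨ha, hx⟩
        rw [h2] at h3
        exact h3.2 hy
    · constructor
      · intro hx
        have h3 : a ∈ x.1 \ A := ⟨hx, ha⟩
        rw [h1] at h3
        exact h3.1
      · intro hy
        have h3 : a ∈ y.1 \ A := ⟨hy, ha⟩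
        rw [← h1] at h3
        exact h3.1
  exact (Set.countable_coe_iff).1 this.countable

private theorem good_countable {𝒜 : Set (Set ℕ)} (h𝒜 : ADF 𝒜) {S : Set (Pt 𝒜 → ℝ)}
    {g : Pt 𝒜 → ℝ} (hg : Good S g) : {x | g x ≠ 0}.Countable := by
  obtain ⟨F, hFc, _, hF⟩ := exists_countable_isLim h𝒜 hg.1
  have h1 : (⋃ A ∈ F, {x : Set ℕ | AEq x A}).Countable :=
    hFc.biUnion fun A _ => countable_aeq A
  have h2 : ((fun x : Pt 𝒜 => x.1) ⁻¹' (⋃ A ∈ F, {x : Set ℕ | AEq x A})).Countable :=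
    h1.preimage Subtype.val_injective
  refine h2.mono fun x hx => ?_
  rcases x.2 with hfin | ⟨A, hA, hxA⟩
  · exfalso
    apply hx
    have : x = finPt 𝒜 hfin.toFinset := by
      apply Subtype.ext
      simp [finPt]
    rw [this]
    exact hg.2.2 _
  · by_contra hcon
    apply hx
    have hAF : A ∉ F := by
      intro h
      apply hcon
      exact Set.mem_iUnion₂.2 ⟨A, h, hxA⟩
    have h3 := hF A hA hAF x hxA
    have h4 : IsLim (fun s => g (finPt 𝒜 s)) x.1 0 := by
      intro ε hε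
      refine ⟨0, fun s _ => ?_⟩
      simp only [hg.2.2 s]
      simpa using hε.le
    exact isLim_unique h3 h4

private theorem approx {𝒜 : Set (Set ℕ)} {S : Set (Pt 𝒜 → ℝ)}
    (h0 : (0 : Pt 𝒜 → ℝ) ∈ closure S) (F : Finset (Pt 𝒜)) (δ : ℝ) (hδ : 0 < δ) :
    ∃ b ∈ S, ∀ t ∈ F, |b t| < δ := by
  have hU : {h : Pt 𝒜 → ℝ | ∀ t ∈ F, |h t| < δ} ∈ 𝓝 (0 : Pt 𝒜 → ℝ) := by
    have : {h : Pt 𝒜 → ℝ | ∀ t ∈ F, |h t| < δ} =
        ⋂ t ∈ F, {h : Pt 𝒜 → ℝ | |h t| < δ} := by
      ext h; simp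
    rw [this, Filter.biInter_finset_mem]
    intro t _
    have hc : Continuous (fun h : Pt 𝒜 → ℝ => |h t|) := (continuous_apply t).abs
    exact (isOpen_lt hc continuous_const).mem_nhds (by simpa using hδ)
  obtain ⟨b, hb1, hb2⟩ := mem_closure_iff_nhds.mp h0 _ hU
  exact ⟨b, hb2, hb1⟩

private theorem exists_good {𝒜 : Set (Set ℕ)} {S : Set (Pt 𝒜 → ℝ)} (hS : RCC S)
    (h0 : (0 : Pt 𝒜 → ℝ) ∈ closure S) (P : Finset (Pt 𝒜)) (ε : ℝ) (hε : 0 < ε) :
    ∃ g, Good S g ∧ ∀ x ∈ P, |g x| ≤ ε := by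
  classical
  obtain ⟨e, he⟩ := exists_surjective_nat (Finset ℕ)
  have h1 : ∀ n : ℕ, ∃ b ∈ S, ∀ t ∈ P ∪ (Finset.range n).image (fun m => finPt 𝒜 (e m)),
      |b t| < min (1 / ((n : ℝ) + 1)) ε := fun n =>
    approx h0 _ _ (lt_min Nat.one_div_pos_of_nat hε)
  choose a haS ha using h1
  obtain ⟨g, hgc, hg⟩ := hS.2 a haS
  have hgx : ∀ x, MapClusterPt (g x) atTop (fun n => a n x) := fun x =>
    hg.tendsto_comp (continuous_apply x).continuousAt
  refine ⟨g, ⟨hgc, ⟨range a, ?_, countable_range a, ?_⟩, ?_⟩, ?_⟩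
  · rintro _ ⟨n, rfl⟩
    exact haS n
  · rw [mem_closure_iff_nhds]
    intro U hU
    obtain ⟨n, hn⟩ := ((mapClusterPt_iff_frequently.1 hg) U hU).exists
    exact ⟨a n, hn, mem_range_self n⟩
  · intro t
    obtain ⟨m, rfl⟩ := he t
    refine eq_of_mapClusterPt_of_tendsto (hgx _) ?_
    rw [tendsto_iff_norm_sub_tendsto_zero]
    have h2 : Tendsto (fun n : ℕ => 1 / ((n : ℝ) + 1)) atTop (𝓝 0) :=
      tendsto_one_div_add_atTop_nhds_zero_nat
    refine tendsto_of_tendsto_of_tendsto_of_le_of_le' tendsto_const_nhds h2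
      (Eventually.of_forall fun n => norm_nonneg _) ?_
    filter_upwards [eventually_gt_atTop m] with n hn
    rw [sub_zero, Real.norm_eq_abs]
    refine (ha n _ ?_).le.trans (min_le_left _ _)
    exact Finset.mem_union_right _ (Finset.mem_image_of_mem _ (Finset.mem_range.2 hn))
  · intro x hx
    by_contra hcon
    rw [not_le] at hcon
    have hopen : {v : ℝ | ε < |v|} ∈ 𝓝 (g x) :=
      (isOpen_lt continuous_const continuous_abs).mem_nhds hcon
    obtain ⟨n, hn⟩ := ((mapClusterPt_iff_frequently.1 (hgx x)) _ hopen).exists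
    have h3 := (ha n x (Finset.mem_union_left _ hx)).le.trans (min_le_right _ _)
    have hn' : ε < |a n x| := hn
    linarith

theorem exists_countable_closure {𝒜 : Set (Set ℕ)} (h𝒜 : ADF 𝒜) {S : Set (Pt 𝒜 → ℝ)}
    (hS : RCC S) (h0 : (0 : Pt 𝒜 → ℝ) ∈ closure S) :
    ∃ S' ⊆ S, S'.Countable ∧ (0 : Pt 𝒜 → ℝ) ∈ closure S' := by
  classical
  have : Nonempty (Pt 𝒜) := ⟨finPt 𝒜 ∅⟩
  have hpts : ∀ g : {g : Pt 𝒜 → ℝ // Good S g}, ∃ f : ℕ → Pt 𝒜, {x | g.1 x ≠ 0} ⊆ range f :=
    fun g => Set.countable_iff_exists_subset_range.1 (good_countable h𝒜 g.2)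
  choose pts hpts using hpts
  obtain ⟨G, hG⟩ := exists_strong_seq (α := {g : Pt 𝒜 → ℝ // Good S g})
    (fun n f a => ∀ k (hk : k < n), ∀ i < n, |a.1 (pts (f k hk) i)| ≤ 1 / ((n : ℝ) + 1)) (by
      intro n f
      obtain ⟨g, hg, hg'⟩ := exists_good hS h0
        ((Finset.univ : Finset (Fin n)).biUnion fun k =>
          (Finset.range n).image fun i => pts (f k.1 k.2) i) (1 / ((n : ℝ) + 1))
        Nat.one_div_pos_of_nat
      refine ⟨⟨g, hg⟩, fun k hk i hi => hg' _ ?_⟩
      exact Finset.mem_biUnion.2 ⟨⟨k, hk⟩, Finset.mem_univ _,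
        Finset.mem_image_of_mem _ (Finset.mem_range.2 hi)⟩)
  have hlim : Tendsto (fun n => (G n).1) atTop (𝓝 (0 : Pt 𝒜 → ℝ)) := by
    rw [tendsto_pi_nhds]
    intro x
    by_cases hx : ∀ n, (G n).1 x = 0
    · simp only [hx]
      exact tendsto_const_nhds
    · push Not at hx
      obtain ⟨k, hk⟩ := hx
      obtain ⟨i, hi⟩ := hpts (G k) hk
      rw [tendsto_iff_norm_sub_tendsto_zero]
      have h2 : Tendsto (fun n : ℕ => 1 / ((n : ℝ) + 1)) atTop (𝓝 0) :=
        tendsto_one_div_add_atTop_nhds_zero_nat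
      refine tendsto_of_tendsto_of_tendsto_of_le_of_le' tendsto_const_nhds h2
        (Eventually.of_forall fun n => norm_nonneg _) ?_
      filter_upwards [eventually_gt_atTop k, eventually_gt_atTop i] with n hn hn'
      have h3 := hG n k hn i hn'
      rw [hi] at h3
      simpa using h3
  have hS' : ∀ n, ∃ S' ⊆ S, S'.Countable ∧ (G n).1 ∈ closure S' := fun n => (G n).2.2.1
  choose S' hS'1 hS'2 hS'3 using hS'
  refine ⟨⋃ n, S' n, iUnion_subset hS'1, countable_iUnion hS'2, ?_⟩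
  rw [← closure_closure]
  exact mem_closure_of_tendsto hlim
    (Eventually.of_forall fun n => closure_mono (subset_iUnion S' n) (hS'3 n))

end Pool.Agent.Lib.MP_ab53ee_gt.GS
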