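import Pool.Agent.Lib.MP_ab53ee_gt.GS.TopB
import Pool.Agent.Lib.MP_ab53ee_gt.GS.TopD

/-!
# GS-TopE: from sequences to `Ang`
-/

set_option autoImplicit false

namespace Pool.Agent.Lib.MP_ab53ee_gt.GS

open Filter Topology Set
open Pool.Agent.Results.MP_8a2df8_gt.ProductCompact

theorem te_close {X : Type} {S : Set (X → ℝ)} {f : X → ℝ} (hf : f ∈ closure S) (P : Finset X)
    (ε : ℝ) (hε : 0 < ε) : ∃ a ∈ S, ∀ p ∈ P, |a p - f p| < ε := by
  classical
  rw [mem_closure_iff] at hf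
  have ho : IsOpen (⋂ p ∈ P, {g : X → ℝ | |g p - f p| < ε}) := by
    refine isOpen_biInter_finset fun p _ => ?_
    exact isOpen_lt ((continuous_apply p).sub continuous_const).abs continuous_const
  obtain ⟨a, ha, haS⟩ := hf _ ho (by
    simp only [Set.mem_iInter, Set.mem_ofPred_eq, sub_self, abs_zero]
    exact fun _ _ => hε)
  refine ⟨a, haS, fun p hp => ?_⟩
  simp only [Set.mem_iInter, Set.mem_ofPred_eq] at ha
  exact ha p hp

theorem te_continuous {X : Type} [TopologicalSpace X] [SequentialSpace X] {S : Set (X → ℝ)}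
    (hS : RCC S) {f : X → ℝ} (hf : f ∈ closure S) : Continuous f := by
  classical
  rw [continuous_iff_seqContinuous]
  intro x y hxy
  by_contra hcon
  rw [Metric.tendsto_atTop] at hcon
  push Not at hcon
  obtain ⟨ε, hε, hcon⟩ := hcon
  have hfreq : ∃ᶠ n in atTop, ε ≤ dist ((f ∘ x) n) (f y) := by
    rw [Filter.frequently_atTop]
    intro N
    obtain ⟨n, hn, h⟩ := hcon N
    exact ⟨n, hn, h⟩
  obtain ⟨φ, hφ, hφε⟩ := Filter.extraction_of_frequently_atTop hfreq
  have hex : ∀ k : ℕ, ∃ a ∈ S, ∀ p ∈ insert y ((Finset.range (k + 1)).image fun i => x (φ i)),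
      |a p - f p| < 1 / ((k : ℝ) + 1) := fun k => te_close hf _ _ (by positivity)
  choose s hsS hs using hex
  obtain ⟨a, hac, ha⟩ := hS.2 s hsS
  have hlim : Tendsto (fun k : ℕ => 1 / ((k : ℝ) + 1)) atTop (𝓝 0) :=
    tendsto_one_div_add_atTop_nhds_zero_nat
  have heq : ∀ p, (∀ᶠ k in atTop, |s k p - f p| < 1 / ((k : ℝ) + 1)) → a p = f p := by
    intro p hp
    refine eq_of_mapClusterPt_of_tendsto (l := atTop) (s := fun k => s k p)
      (ha.continuousAt_comp (f := fun g : X → ℝ => g p) (continuous_apply p).continuousAt) ?_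
    rw [tendsto_iff_dist_tendsto_zero]
    refine squeeze_zero' (Eventually.of_forall fun k => dist_nonneg) ?_ hlim
    filter_upwards [hp] with k hk
    rw [Real.dist_eq]
    exact hk.le
  have hy : a y = f y := heq y (Eventually.of_forall fun k => hs k y (Finset.mem_insert_self _ _))
  have hx : ∀ i, a (x (φ i)) = f (x (φ i)) := by
    intro i
    refine heq _ ?_
    filter_upwards [eventually_ge_atTop i] with k hk
    refine hs k _ (Finset.mem_insert_of_mem (Finset.mem_image_of_mem _ ?_))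
    rw [Finset.mem_range]
    omega
  have ht : Tendsto (fun i => a (x (φ i))) atTop (𝓝 (a y)) :=
    (hac.tendsto y).comp (hxy.comp hφ.tendsto_atTop)
  rw [Metric.tendsto_atTop] at ht
  obtain ⟨N, hN⟩ := ht ε hε
  have h1 := hN N le_rfl
  rw [hx N, hy] at h1
  exact absurd h1 (not_lt.2 (hφε N))

theorem te_rcc_mono {X : Type} [TopologicalSpace X] {S T : Set (X → ℝ)} (hS : RCC S)
    (h : T ⊆ S) : RCC T :=
  ⟨fun f hf => hS.1 f (h hf), fun s hs => hS.2 s fun n => h (hs n)⟩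

theorem ang_of_fuz {𝒜 : Set (Set ℕ)} (h𝒜 : ADF 𝒜) (h : FUZ (Pt 𝒜)) : Ang (Pt 𝒜) := by
  classical
  have := frechetUrysohn_pt h𝒜
  intro S hS f hf
  by_cases hfS : f ∈ S
  · exact ⟨fun _ => f, fun _ => hfS, tendsto_const_nhds⟩
  have hfc : Continuous f := te_continuous hS hf
  have hsub : Continuous (fun a : Pt 𝒜 → ℝ => a - f) := continuous_id.sub continuous_const
  set S0 : Set (Pt 𝒜 → ℝ) := (fun a => a - f) '' S with hS0
  have hrcc : RCC S0 := by
    constructor
    · rintro _ ⟨a, ha, rfl⟩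
      exact (hS.1 a ha).sub hfc
    · intro s hs
      have hs' : ∀ n, s n + f ∈ S := by
        intro n
        obtain ⟨a, ha, hb⟩ := hs n
        rw [← hb]
        simpa using ha
      obtain ⟨a, hac, ha⟩ := hS.2 (fun n => s n + f) hs'
      refine ⟨a - f, hac.sub hfc, ?_⟩
      have h1 := ha.continuousAt_comp (f := fun a : Pt 𝒜 → ℝ => a - f) hsub.continuousAt
      have h2 : (fun a : Pt 𝒜 → ℝ => a - f) ∘ (fun n => s n + f) = s := by
        funext n
        simp
      rw [h2] at h1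
      exact h1
  have h0 : (0 : Pt 𝒜 → ℝ) ∈ closure S0 := by
    have h1 := image_closure_subset_closure_image (s := S) hsub
    have h2 : (0 : Pt 𝒜 → ℝ) = (fun a : Pt 𝒜 → ℝ => a - f) f := by simp
    rw [h2]
    exact h1 ⟨f, hf, rfl⟩
  have h0' : (0 : Pt 𝒜 → ℝ) ∉ S0 := by
    rintro ⟨a, ha, hb⟩
    have : a = f := sub_eq_zero.1 hb
    exact hfS (this ▸ ha)
  obtain ⟨S', hS'sub, hS'c, hS'0⟩ := exists_countable_closure h𝒜 hrcc h0
  have hne : S'.Nonempty := by
    rw [Set.nonempty_iff_ne_empty]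
    rintro rfl
    simp at hS'0
  obtain ⟨φ, hφ⟩ := hS'c.exists_eq_range hne
  obtain ⟨J, -, hJ⟩ := h φ (te_rcc_mono hrcc (hφ ▸ hS'sub)) (hφ ▸ hS'0) (by
    intro j hj
    apply h0'
    apply hS'sub
    rw [hφ, ← hj]
    exact ⟨j, rfl⟩)
  refine ⟨fun l => φ (J l) + f, fun l => ?_, ?_⟩
  · obtain ⟨a, ha, hb⟩ := hS'sub (by rw [hφ]; exact ⟨J l, rfl⟩ : φ (J l) ∈ S')
    show φ (J l) + f ∈ S
    rw [← hb]
    simpa using ha
  · rw [tendsto_pi_nhds]
    intro x
    have h1 := (hJ x).add_const (f x)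
    rw [zero_add] at h1
    exact h1

end Pool.Agent.Lib.MP_ab53ee_gt.GS
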