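import Pool.Agent.Lib.MP_ab53ee_gt.GS.TopA

/-!
# GS-TopF: the sum of two spaces `X(𝒜)`, `X(ℬ)` with `𝒜 ∪ ℬ` infinite MAD is not angelic
Proof.  `e n : Pt 𝒜 ⊕ Pt ℬ → ℝ`, `e n x = 1` if `n ∈ x`, else `0`; `S = {e n}`.
(1) `RCC S`: each `e n` is continuous (`continuous_memFn`, `Sum.elim`).  Let `s k = e (n_k)`.  If some value of `n_k` is taken infinitely often, this `e n` is a
    cluster point.  Otherwise `{n_k}` is infinite; by `hmad` some `A ∈ 𝒜 ∪ ℬ` contains `n_k` for infinitely many `k`, choose such `k_0 < k_1 < ...` with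
    `n_{k_i}` strictly increasing.  If `A ∈ 𝒜`, `e (n_{k_i})` tends pointwise to `1_A` := (1 on the points of the first summand that are almost `A`, 0 elsewhere), which is
    continuous (`continuous_classFn`): a point almost `A` in the first summand contains almost all of `A`; a finite point contains only finitely many; a point
    almost `B`, `B ≠ A` meets `A` in a finite set; in the second summand no point is almost `A` (`B ∈ ℬ` is different from `A` by `hdisj`).  Same for `A ∈ ℬ`.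
(2) `0 ∈ closure S`: for finitely many points, the union of them is contained, up to a finite set, in a finite union of members; there is
    another member (infinitely many members), infinite and almost disjoint from these, so there is `n` in no one of the points: `e n` is `0` at all of them.
(3) No sequence `s k = e (n_k)` of members converges to `0`: as `e n ({n}) = 1`, every value `n` is taken only finitely often, so `{n_k}` is infinite,
    `A ∩ {n_k}` is infinite for some member `A`, and `e (n_k) (A) = 1` for infinitely many `k`.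
-/

set_option autoImplicit false

namespace Pool.Agent.Lib.MP_ab53ee_gt.GS

open Filter Topology Set
open Pool.Agent.Results.MP_8a2df8_gt.ProductCompact

private lemma fin_inter {𝒜 : Set (Set ℕ)} (x : Pt 𝒜) (B : Set ℕ)
    (hB : ∀ A ∈ 𝒜, AEq x.1 A → (A ∩ B).Finite) : (x.1 ∩ B).Finite := by
  rcases x.2 with h | ⟨A, hA, h⟩
  · exact h.subset Set.inter_subset_left
  · refine (h.1.union (hB A hA h)).subset ?_
    rintro a ⟨hax, haB⟩
    by_cases haA : a ∈ A
    · exact Or.inr ⟨haA, haB⟩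
    · exact Or.inl ⟨hax, haA⟩

private lemma ev_notMem {n : ℕ → ℕ} (hn : Tendsto n atTop atTop) {F : Set ℕ} (hF : F.Finite) :
    ∀ᶠ i in atTop, n i ∉ F := by
  obtain ⟨N, hN⟩ := hF.bddAbove
  filter_upwards [hn.eventually (eventually_gt_atTop N)] with i hi hmem
  exact absurd (hN hmem) (not_le.mpr hi)

open Classical in
private lemma lim_one {𝒜 : Set (Set ℕ)} (had : ADF 𝒜) {B : Set ℕ} (hB : B ∈ 𝒜) {n : ℕ → ℕ}
    (hnB : ∀ i, n i ∈ B) (hn : Tendsto n atTop atTop) (x : Pt 𝒜) :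
    Tendsto (fun i => if n i ∈ x.1 then (1 : ℝ) else 0) atTop
      (𝓝 (if AEq x.1 B then (1 : ℝ) else 0)) := by
  by_cases h : AEq x.1 B
  · rw [if_pos h]
    refine tendsto_const_nhds.congr' ?_
    filter_upwards [ev_notMem hn h.2] with i hi
    rw [if_pos]
    by_contra hcon
    exact hi ⟨hnB i, hcon⟩
  · rw [if_neg h]
    have hfin : (x.1 ∩ B).Finite := fin_inter x B (fun A hA hxA => had.2 A hA B hB (by
      rintro rfl
      exact h hxA))
    refine tendsto_const_nhds.congr' ?_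
    filter_upwards [ev_notMem hn hfin] with i hi
    rw [if_neg]
    intro hcon
    exact hi ⟨hcon, hnB i⟩

open Classical in
private lemma lim_zero {𝒜 : Set (Set ℕ)} {B : Set ℕ} (hB : ∀ A ∈ 𝒜, (A ∩ B).Finite) {n : ℕ → ℕ}
    (hnB : ∀ i, n i ∈ B) (hn : Tendsto n atTop atTop) (x : Pt 𝒜) :
    Tendsto (fun i => if n i ∈ x.1 then (1 : ℝ) else 0) atTop (𝓝 0) := by
  have hfin : (x.1 ∩ B).Finite := fin_inter x B (fun A hA _ => hB A hA)
  refine tendsto_const_nhds.congr' ?_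
  filter_upwards [ev_notMem hn hfin] with i hi
  rw [if_neg]
  intro hcon
  exact hi ⟨hcon, hnB i⟩

private lemma freq_mem {n : ℕ → ℕ} {B : Set ℕ} (h : (B ∩ range n).Infinite) :
    ∃ᶠ k in atTop, n k ∈ B := by
  rw [frequently_atTop]
  intro a
  by_contra hcon
  push Not at hcon
  apply h
  refine ((Set.finite_Iio a).image n).subset ?_
  rintro _ ⟨hb, ⟨k, rfl⟩⟩
  refine ⟨k, ?_, rfl⟩
  by_contra hk
  exact hcon k (not_lt.mp hk) hb

private lemma tendsto_of_ne {n : ℕ → ℕ} (h : ∀ v, ∀ᶠ k in atTop, n k ≠ v) :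
    Tendsto n atTop atTop := by
  rw [tendsto_atTop]
  intro b
  have h1 : ∀ᶠ k in atTop, ∀ v ∈ Finset.range b, n k ≠ v :=
    (Filter.eventually_all_finset _).2 (fun v _ => h v)
  filter_upwards [h1] with k hk
  by_contra hcon
  exact hk (n k) (Finset.mem_range.2 (not_le.mp hcon)) rfl

private lemma infinite_range {n : ℕ → ℕ} (h : Tendsto n atTop atTop) : (range n).Infinite := by
  intro hfin
  have := (ev_notMem h hfin).exists
  obtain ⟨i, hi⟩ := this
  exact hi (Set.mem_range_self i)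

open Classical in
/-- membership functions on the sum -/
private noncomputable def eF (𝒜 ℬ : Set (Set ℕ)) (n : ℕ) : Pt 𝒜 ⊕ Pt ℬ → ℝ :=
  Sum.elim (fun x : Pt 𝒜 => if n ∈ x.1 then (1 : ℝ) else 0)
    (fun x : Pt ℬ => if n ∈ x.1 then (1 : ℝ) else 0)

private lemma continuous_eF (𝒜 ℬ : Set (Set ℕ)) (n : ℕ) : Continuous (eF 𝒜 ℬ n) := by
  classical
  unfold eF
  exact (continuous_memFn 𝒜 n).sumElim (continuous_memFn ℬ n)

private lemma exists_lim {𝒜 ℬ : Set (Set ℕ)} (had : ADF (𝒜 ∪ ℬ)) (hdisj : Disjoint 𝒜 ℬ)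
    {B : Set ℕ} (hB : B ∈ 𝒜 ∪ ℬ) {n : ℕ → ℕ} (hnB : ∀ i, n i ∈ B)
    (hn : Tendsto n atTop atTop) :
    ∃ g : Pt 𝒜 ⊕ Pt ℬ → ℝ, Continuous g ∧ Tendsto (fun i => eF 𝒜 ℬ (n i)) atTop (𝓝 g) := by
  classical
  have hadA : ADF 𝒜 := ⟨fun A hA => had.1 A (Or.inl hA),
    fun A hA C hC => had.2 A (Or.inl hA) C (Or.inl hC)⟩
  have hadB : ADF ℬ := ⟨fun A hA => had.1 A (Or.inr hA),
    fun A hA C hC => had.2 A (Or.inr hA) C (Or.inr hC)⟩
  rcases hB with hB | hB
  · refine ⟨Sum.elim (fun x : Pt 𝒜 => if AEq x.1 B then (1 : ℝ) else 0) (fun _ => 0),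
      (continuous_classFn 𝒜 hB).sumElim continuous_const, ?_⟩
    rw [tendsto_pi_nhds]
    rintro (x | x)
    · exact lim_one hadA hB hnB hn x
    · exact lim_zero (fun A hA => had.2 A (Or.inr hA) B (Or.inl hB) (by
        rintro rfl
        exact Set.disjoint_left.mp hdisj hB hA)) hnB hn x
  · refine ⟨Sum.elim (fun _ => 0) (fun x : Pt ℬ => if AEq x.1 B then (1 : ℝ) else 0),
      continuous_const.sumElim (continuous_classFn ℬ hB), ?_⟩
    rw [tendsto_pi_nhds]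
    rintro (x | x)
    · exact lim_zero (fun A hA => had.2 A (Or.inl hA) B (Or.inr hB) (by
        rintro rfl
        exact Set.disjoint_left.mp hdisj hA hB)) hnB hn x
    · exact lim_one hadB hB hnB hn x

/-- the set of naturals of a point of the sum -/
private def uS {𝒜 ℬ : Set (Set ℕ)} : Pt 𝒜 ⊕ Pt ℬ → Set ℕ :=
  Sum.elim (fun x => x.1) (fun x => x.1)

private lemma uS_mem {𝒜 ℬ : Set (Set ℕ)} (z : Pt 𝒜 ⊕ Pt ℬ) : uS z ∈ PtSet (𝒜 ∪ ℬ) := by
  rcases z with x | x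
  · rcases x.2 with h | ⟨A, hA, h⟩
    · exact Or.inl h
    · exact Or.inr ⟨A, Or.inl hA, h⟩
  · rcases x.2 with h | ⟨A, hA, h⟩
    · exact Or.inl h
    · exact Or.inr ⟨A, Or.inr hA, h⟩

private lemma eF_zero {𝒜 ℬ : Set (Set ℕ)} {n : ℕ} {z : Pt 𝒜 ⊕ Pt ℬ} (h : n ∉ uS z) :
    eF 𝒜 ℬ n z = 0 := by
  rcases z with x | x
  · exact if_neg h
  · exact if_neg h

private lemma eF_one {𝒜 ℬ : Set (Set ℕ)} {n : ℕ} {z : Pt 𝒜 ⊕ Pt ℬ} (h : n ∈ uS z) :
    eF 𝒜 ℬ n z = 1 := by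
  rcases z with x | x
  · exact if_pos h
  · exact if_pos h

private lemma exists_avoid {𝒜 ℬ : Set (Set ℕ)} (had : ADF (𝒜 ∪ ℬ)) (hinf : (𝒜 ∪ ℬ).Infinite)
    {I : Set (Pt 𝒜 ⊕ Pt ℬ)} (hI : I.Finite) : ∃ n : ℕ, ∀ z ∈ I, n ∉ uS z := by
  have hC : {B | B ∈ 𝒜 ∪ ℬ ∧ ∃ z ∈ I, AEq (uS z) B}.Finite := by
    have : {B | B ∈ 𝒜 ∪ ℬ ∧ ∃ z ∈ I, AEq (uS z) B} ⊆
        ⋃ z ∈ I, {B | B ∈ 𝒜 ∪ ℬ ∧ AEq (uS z) B} := by
      rintro B ⟨hB, z, hz, hzB⟩
      exact Set.mem_iUnion₂.mpr ⟨z, hz, hB, hzB⟩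
    refine (hI.biUnion fun z _ => ?_).subset this
    apply Set.Subsingleton.finite
    rintro A ⟨hA, hzA⟩ B ⟨hB, hzB⟩
    exact aeq_unique had hA hB hzA hzB
  obtain ⟨C, hC1, hC2⟩ := (hinf.sdiff hC).nonempty
  have hfin : ∀ z ∈ I, (uS z ∩ C).Finite := by
    intro z hz
    rcases uS_mem z with h | ⟨A, hA, h⟩
    · exact h.subset Set.inter_subset_left
    · have hne : A ≠ C := by
        rintro rfl
        exact hC2 ⟨hC1, z, hz, h⟩
      refine (h.1.union (had.2 A hA C hC1 hne)).subset ?_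
      rintro a ⟨hax, haC⟩
      by_cases haA : a ∈ A
      · exact Or.inr ⟨haA, haC⟩
      · exact Or.inl ⟨hax, haA⟩
  have hfin2 : (⋃ z ∈ I, (uS z ∩ C)).Finite := hI.biUnion hfin
  obtain ⟨n, hn1, hn2⟩ := ((had.1 C hC1).sdiff hfin2).nonempty
  refine ⟨n, fun z hz hnz => hn2 (Set.mem_iUnion₂.mpr ⟨z, hz, hnz, hn1⟩)⟩

theorem not_ang_sum {𝒜 ℬ : Set (Set ℕ)} (had : ADF (𝒜 ∪ ℬ)) (hdisj : Disjoint 𝒜 ℬ)
    (hinf : (𝒜 ∪ ℬ).Infinite)
    (hmad : ∀ M : Set ℕ, M.Infinite → ∃ B ∈ 𝒜 ∪ ℬ, (B ∩ M).Infinite) :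
    ¬ Ang (Pt 𝒜 ⊕ Pt ℬ) := by
  intro hang
  have hRCC : RCC (range (eF 𝒜 ℬ)) := by
    refine ⟨?_, ?_⟩
    · rintro _ ⟨n, rfl⟩
      exact continuous_eF 𝒜 ℬ n
    · intro s hs
      choose n hn using hs
      by_cases hv : ∃ v, ∃ᶠ k in atTop, n k = v
      · obtain ⟨v, hv⟩ := hv
        refine ⟨eF 𝒜 ℬ v, continuous_eF 𝒜 ℬ v, ?_⟩
        rw [mapClusterPt_iff_frequently]
        intro U hU
        refine hv.mono fun k hk => ?_
        rw [← hn k, hk]
        exact mem_of_mem_nhds hU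
      · have hne : ∀ v, ∀ᶠ k in atTop, n k ≠ v := by
          intro v
          by_contra hcon
          apply hv
          refine ⟨v, ?_⟩
          intro h
          exact hcon h
        have hlim := tendsto_of_ne hne
        obtain ⟨B, hB, hBinf⟩ := hmad (range n) (infinite_range hlim)
        obtain ⟨φ, hφ, hφB⟩ := extraction_of_frequently_atTop (freq_mem hBinf)
        obtain ⟨g, hg, hgl⟩ := exists_lim had hdisj hB (n := n ∘ φ) hφB
          (hlim.comp hφ.tendsto_atTop)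
        refine ⟨g, hg, ?_⟩
        refine MapClusterPt.of_comp hφ.tendsto_atTop ?_
        have : s ∘ φ = fun i => eF 𝒜 ℬ ((n ∘ φ) i) := by
          funext i
          exact (hn (φ i)).symm
        rw [this]
        exact hgl.mapClusterPt
  have hcl : (0 : Pt 𝒜 ⊕ Pt ℬ → ℝ) ∈ closure (range (eF 𝒜 ℬ)) := by
    rw [mem_closure_iff_nhds]
    intro U hU
    rw [nhds_pi, Filter.mem_pi] at hU
    obtain ⟨I, hI, t, ht, htU⟩ := hU
    obtain ⟨n, hn⟩ := exists_avoid had hinf hI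
    refine ⟨eF 𝒜 ℬ n, htU ?_, Set.mem_range_self n⟩
    intro z hz
    rw [eF_zero (hn z hz)]
    exact mem_of_mem_nhds (ht z)
  obtain ⟨s, hs, hs0⟩ := hang _ hRCC 0 hcl
  choose n hn using hs
  rw [tendsto_pi_nhds] at hs0
  have hsmall : ∀ z : Pt 𝒜 ⊕ Pt ℬ, ∀ᶠ k in atTop, n k ∉ uS z := by
    intro z
    have h1 : Tendsto (fun k => s k z) atTop (𝓝 0) := hs0 z
    have h2 : ∀ᶠ k in atTop, s k z < 1 := h1.eventually (gt_mem_nhds (by norm_num))
    filter_upwards [h2] with k hk hmem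
    rw [← hn k, eF_one hmem] at hk
    exact lt_irrefl _ hk
  have hne : ∀ v, ∀ᶠ k in atTop, n k ≠ v := by
    intro v
    filter_upwards [hsmall (Sum.inl (finPt 𝒜 {v}))] with k hk hkv
    apply hk
    rw [hkv]
    change v ∈ ((({v} : Finset ℕ)) : Set ℕ)
    simp
  have hlim := tendsto_of_ne hne
  obtain ⟨B, hB, hBinf⟩ := hmad (range n) (infinite_range hlim)
  have hz : ∃ z : Pt 𝒜 ⊕ Pt ℬ, uS z = B := by
    have hself : AEq B B := ⟨by simp, by simp⟩
    rcases hB with hB | hB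
    · exact ⟨Sum.inl ⟨B, Or.inr ⟨B, hB, hself⟩⟩, rfl⟩
    · exact ⟨Sum.inr ⟨B, Or.inr ⟨B, hB, hself⟩⟩, rfl⟩
  obtain ⟨z, hz⟩ := hz
  have h1 := hsmall z
  rw [hz] at h1
  exact (freq_mem hBinf) (h1.mono fun k hk => hk)

end Pool.Agent.Lib.MP_ab53ee_gt.GS
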