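import Pool.Agent.Lib.MP_ab53ee_gt.GS.FinA
import Pool.Agent.Lib.MP_ab53ee_gt.GS.Dens
import Pool.Agent.Lib.MP_ab53ee_gt.GS.CondC
import Pool.Agent.Lib.MP_ab53ee_gt.GS.Chain
import Pool.Agent.Lib.MP_ab53ee_gt.GS.CardC
import Pool.Agent.Lib.MP_ab53ee_gt.GS.TopE
import Pool.Agent.Lib.MP_ab53ee_gt.GS.TopF

/-!
# GS-Fin: the final theorem (assembly)
Proof.  `exists_generic` with `P = Cond`, `sigma`, `ι = Set ℕ ⊕ Code`, `mk_code` and CH, `D := Sum.elim DSet DCode` (`dense_set`, `dense_code`), `p0` from `exists_start`.  `𝒜 := ⋃_{g ∈ G} g.A false`,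
`ℬ := ⋃_{g ∈ G} g.A true`.  Two members lie in one condition of `G` (directed), so `ADF (𝒜 ∪ ℬ)`, `Disjoint 𝒜 ℬ`; it is infinite because of `p0 ∈ G`; MAD by the sets `DSet M`.
`ang_of_fuz`, `grothendieckSpace_of_ang` for `Pt 𝒜`, `Pt ℬ`; `ang_of_grothendieckSpace` and `not_ang_sum` for the sum; `t35Space_pt`.
-/

set_option autoImplicit false

namespace Pool.Agent.Lib.MP_ab53ee_gt.GS

open Filter Topology Set
open Pool.Agent.Results.MP_8a2df8_gt.ProductCompact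

private theorem fin_adf_mono {𝒜 ℬ : Set (Set ℕ)} (h : ADF ℬ) (hs : 𝒜 ⊆ ℬ) : ADF 𝒜 :=
  ⟨fun A hA => h.1 A (hs hA), fun A hA B hB hne => h.2 A (hs hA) B (hs hB) hne⟩

private theorem fin_all_mono {h g : Cond} (hhg : h ≤ g) : g.all ⊆ h.all := by
  rintro B (hB | hB)
  · exact Or.inl (hhg.1 false hB)
  · exact Or.inr (hhg.1 true hB)

theorem exists_families (hCH : Cardinal.continuum.{0} = Cardinal.aleph 1) :
    ∃ 𝒜 ℬ : Set (Set ℕ), ADF (𝒜 ∪ ℬ) ∧ Disjoint 𝒜 ℬ ∧ (𝒜 ∪ ℬ).Infinite ∧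
      (∀ M : Set ℕ, M.Infinite → ∃ B ∈ 𝒜 ∪ ℬ, (B ∩ M).Infinite) ∧
      FUZ (Pt 𝒜) ∧ FUZ (Pt ℬ) := by
  obtain ⟨p0, hp0⟩ := exists_start
  obtain ⟨G, hp0G, hG1, hG2⟩ := exists_generic (P := Cond) sigma (ι := Set ℕ ⊕ Code)
    (by rw [← hCH]; exact mk_code) (Sum.elim DSet DCode)
    (by
      rintro (M | c) p
      · exact dense_set M p
      · exact dense_code c p) p0
  have hdir : ∀ g ∈ G, ∀ g' ∈ G, ∃ h ∈ G, h ≤ g ∧ h ≤ g' := by
    intro g hg g' hg'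
    obtain ⟨h, hh, hle⟩ := hG1 {g, g'} (by
      rintro z (rfl | rfl)
      · exact hg
      · exact hg') (Set.toFinite _).countable
    exact ⟨h, hh, hle g (by simp), hle g' (by simp)⟩
  have hmem : ∀ B ∈ (⋃ g ∈ G, g.A false) ∪ (⋃ g ∈ G, g.A true), ∃ g ∈ G, B ∈ g.all := by
    rintro B (hB | hB)
    · obtain ⟨g, hg, hBg⟩ := Set.mem_iUnion₂.mp hB
      exact ⟨g, hg, Or.inl hBg⟩
    · obtain ⟨g, hg, hBg⟩ := Set.mem_iUnion₂.mp hB
      exact ⟨g, hg, Or.inr hBg⟩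
  have hall : ∀ g ∈ G, g.all ⊆ (⋃ g ∈ G, g.A false) ∪ (⋃ g ∈ G, g.A true) := by
    rintro g hg B (hB | hB)
    · exact Or.inl (Set.mem_biUnion hg hB)
    · exact Or.inr (Set.mem_biUnion hg hB)
  have had : ADF ((⋃ g ∈ G, g.A false) ∪ (⋃ g ∈ G, g.A true)) := by
    refine ⟨fun A hA => ?_, fun A hA B hB hne => ?_⟩
    · obtain ⟨g, hg, hAg⟩ := hmem A hA
      exact g.ad.1 A hAg
    · obtain ⟨g, hg, hAg⟩ := hmem A hA
      obtain ⟨g', hg', hBg⟩ := hmem B hB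
      obtain ⟨h, hh, h1, h2⟩ := hdir g hg g' hg'
      exact h.ad.2 A (fin_all_mono h1 hAg) B (fin_all_mono h2 hBg) hne
  have hfuz : ∀ i, ADF (⋃ g ∈ G, g.A i) → FUZ (Pt (⋃ g ∈ G, g.A i)) := fun i hi =>
    fuz_generic G hG1 (fun c g hg => hG2 (Sum.inr c) g hg) i hi
  refine ⟨⋃ g ∈ G, g.A false, ⋃ g ∈ G, g.A true, had, ?_, hp0.mono (hall p0 hp0G), ?_,
    hfuz false (fin_adf_mono had Set.subset_union_left),
    hfuz true (fin_adf_mono had Set.subset_union_right)⟩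
  · rw [Set.disjoint_left]
    intro B hB hB'
    obtain ⟨g, hg, hBg⟩ := Set.mem_iUnion₂.mp hB
    obtain ⟨g', hg', hBg'⟩ := Set.mem_iUnion₂.mp hB'
    obtain ⟨h, hh, h1, h2⟩ := hdir g hg g' hg'
    exact Set.disjoint_left.mp h.disj (h1.1 false hBg) (h2.1 true hBg')
  · intro M hM
    obtain ⟨h, hh, _, hD⟩ := hG2 (Sum.inl M) p0 hp0G
    obtain ⟨B, hB, hBM⟩ := hD hM
    exact ⟨B, hall h hh hB, hBM⟩

theorem ch_sum (hCH : Cardinal.continuum.{0} = Cardinal.aleph 1) :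
    ∃ (X Y : Type) (_ : TopologicalSpace X) (_ : TopologicalSpace Y), T35Space X ∧
      T35Space Y ∧ GrothendieckSpace X ∧ GrothendieckSpace Y ∧ ¬ GrothendieckSpace (X ⊕ Y) := by
  obtain ⟨𝒜, ℬ, had, hdisj, hinf, hmad, hA, hB⟩ := exists_families hCH
  refine ⟨Pt 𝒜, Pt ℬ, inferInstance, inferInstance, t35Space_pt 𝒜, t35Space_pt ℬ,
    grothendieckSpace_of_ang (ang_of_fuz (fin_adf_mono had Set.subset_union_left) hA),
    grothendieckSpace_of_ang (ang_of_fuz (fin_adf_mono had Set.subset_union_right) hB), ?_⟩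
  intro h
  exact not_ang_sum had hdisj hinf hmad (ang_of_grothendieckSpace h)

end Pool.Agent.Lib.MP_ab53ee_gt.GS
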