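import Pool.Agent.Lib.MP_ab53ee_gt.GS.TopC
import Pool.Agent.Lib.MP_ab53ee_gt.GS.Extract

/-!
# GS-FinA: the generic families satisfy `FUZ`
Let `𝒜 := ⋃_{g ∈ G} g.A i`; `had` says that all members (both families) form an almost disjoint family.
Proof.  Let `φ : ℕ → Pt 𝒜 → ℝ` with `RCC (range φ)`, `0 ∈ closure (range φ)`, `φ j ≠ 0`.
(1) `exists_countable_isLim` for each `φ j`: countable `F_j ⊆ 𝒜`; `F := ⋃ F_j`.  By directedness there is `g0 ∈ G` with `F ⊆ g0.A i`.  `PtSet (g0.A i)` is countable and nonempty; let `x : ℕ → Set ℕ` have range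
    `PtSet (g0.A i)`.  Code `c`: `c.i = i`, `c.q j s = φ j (finPt s)`, `c.x = x`, `c.r j m = φ j ⟨x m, _⟩`.  `c.Valid` (`qcont_of_continuous`).
(2) `c.Val j y = φ j ⟨y, _⟩` for all `y ∈ PtSet 𝒜`: for `y ∈ range x` `val_range`; otherwise `y` is almost `B`, `B ∈ 𝒜`, `B ∉ g0.A i`, so `B ∉ F_j` and `IsLim (c.q j) y (φ j y)`: `val_lim`.
(3) By `hG2` there is `g ∈ G`, `g ≤ g0`, `g ∈ DCode c`.  The first alternative is false for `r = g` (`range c.x = PtSet (g0.A i) ⊆ PtSet (g.A i)`).  So `Handled g c`; `PtSet (g.A i) ⊆ PtSet 𝒜`.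
 * `Zer`: `φ j = 0` on `PtSet (g.A i)`, in particular at finite sets; at other points `φ j y` is a limit of zeros: `φ j = 0`, contradiction.
 * `NoLim`: `y ∉ range x`, so `IsLim` holds by (2), contradiction.
 * `Away`: contradicts `0 ∈ closure (range φ)` (a neighbourhood of `0` in the product given by the finite set `P`).
 * `Killed` with `J, s, ε, x'`: let `ψ` be a continuous cluster point of `φ ∘ J` (`RCC`).  `|ψ (x' t)| ≥ ε` for all `t`, `ψ (s) = 0`, and `x' t → s` in `Pt 𝒜` (`tendsto_fin`: for `B ∈ 𝒜`, at most one `t` has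
   `AEq (x' t) B`, since the `x' t` are different members of the almost disjoint family): contradiction.
 * `Promised` with `J`: this is the required subsequence.  At `y ∈ PtSet (g.A i)` clear.  Otherwise `y` is almost `B`, `B ∈ g'.A i`, `g' ∈ G`, `B ∉ g.A i`.  Let `h ∈ G`, `h ≤ g, g'`: `B ∈ h.A i`, `B ∉ g.A (!i)` (otherwise
   `B ∈ h.A (!i)`, against `h.disj`), so `B ∈ h.all \ g.all` is `g.H`-thin, `y` also (`thin_congr`), infinite, and `IsLim (c.q (J l)) y (φ (J l) y)` by (2).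
-/

set_option autoImplicit false

namespace Pool.Agent.Lib.MP_ab53ee_gt.GS

open Filter Topology Set
open Pool.Agent.Results.MP_8a2df8_gt.ProductCompact

private theorem aeq_symm {x y : Set ℕ} (h : AEq x y) : AEq y x := ⟨h.2, h.1⟩

private theorem aeq_eq {𝒜 : Set (Set ℕ)} (h𝒜 : ADF 𝒜) {A B : Set ℕ} (hA : A ∈ 𝒜) (hB : B ∈ 𝒜)
    (h : AEq A B) : A = B := by
  by_contra hne
  have h1 := h𝒜.2 A hA B hB hne
  have h2 : A ⊆ (A ∩ B) ∪ (A \ B) := by
    intro a ha
    by_cases hb : a ∈ B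
    · exact Or.inl ⟨ha, hb⟩
    · exact Or.inr ⟨ha, hb⟩
  exact h𝒜.1 A hA ((h1.union h.1).subset h2)

theorem fuz_generic (G : Set Cond)
    (hG1 : ∀ S ⊆ G, S.Countable → ∃ g ∈ G, ∀ s ∈ S, g ≤ s)
    (hG2 : ∀ c : Code, ∀ g ∈ G, ∃ h ∈ G, h ≤ g ∧ h ∈ DCode c) (i : Bool)
    (had : ADF (⋃ g ∈ G, g.A i)) : FUZ (Pt (⋃ g ∈ G, g.A i)) := by
  classical
  set 𝒜 : Set (Set ℕ) := ⋃ g ∈ G, g.A i with h𝒜
  intro φ hR h0 hne
  have hsub : ∀ g ∈ G, g.A i ⊆ 𝒜 := fun g hg B hB => by
    rw [h𝒜]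
    exact Set.mem_biUnion hg hB
  have hcont : ∀ j, Continuous (φ j) := fun j => hR.1 _ (mem_range_self j)
  -- step 1
  choose F hFc hFs hFl using fun j => exists_countable_isLim had (hcont j)
  have hFu : (⋃ j, F j).Countable := Set.countable_iUnion hFc
  have hmem : ∀ B : (⋃ j, F j : Set (Set ℕ)), ∃ g ∈ G, (B : Set ℕ) ∈ g.A i := by
    rintro ⟨B, hB⟩
    obtain ⟨j, hj⟩ := Set.mem_iUnion.mp hB
    have := hFs j hj
    rw [h𝒜] at this
    obtain ⟨g, hg, hBg⟩ := Set.mem_iUnion₂.mp this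
    exact ⟨g, hg, hBg⟩
  choose gB hgB hgB' using hmem
  have hcount : Countable (⋃ j, F j : Set (Set ℕ)) := hFu.to_subtype
  obtain ⟨g0, hg0, hg0le⟩ := hG1 (range gB) (by rintro _ ⟨B, rfl⟩; exact hgB B)
    (Set.countable_range gB)
  have hFg0 : ∀ j, F j ⊆ g0.A i := by
    intro j B hB
    have hB' : B ∈ ⋃ j, F j := Set.mem_iUnion.mpr ⟨j, hB⟩
    exact (hg0le _ ⟨⟨B, hB'⟩, rfl⟩).1 i (hgB' ⟨B, hB'⟩)
  have hg0A : g0.A i ⊆ 𝒜 := hsub g0 hg0
  obtain ⟨x, hx⟩ := (ptSet_countable (g0.cnt i)).exists_eq_range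
    ⟨∅, Or.inl Set.finite_empty⟩
  have hxm : ∀ m, x m ∈ PtSet 𝒜 := fun m => ptSet_mono hg0A (by rw [hx]; exact mem_range_self m)
  set c : Code := ⟨i, fun j s => φ j (finPt 𝒜 s), x, fun j m => φ j ⟨x m, hxm m⟩⟩ with hc
  have hvalid : c.Valid := by
    refine ⟨fun j => qcont_of_continuous had (hcont j), ?_, ?_, ?_⟩
    · intro s
      have : (s : Set ℕ) ∈ PtSet (g0.A i) := Or.inl s.finite_toSet
      rw [hx] at this
      exact this
    · intro j m m' h
      change φ j ⟨x m, hxm m⟩ = φ j ⟨x m', hxm m'⟩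
      congr 1
      exact Subtype.ext h
    · intro j m s h
      change φ j ⟨x m, hxm m⟩ = φ j (finPt 𝒜 s)
      congr 1
      exact Subtype.ext h
  -- step 2
  have hlim : ∀ j (y : Set ℕ) (hy : y ∈ PtSet 𝒜), y ∉ range x → IsLim (c.q j) y (φ j ⟨y, hy⟩) := by
    intro j y hy hyx
    rw [← hx] at hyx
    rcases hy with hfin | ⟨B, hB, hyB⟩
    · exact absurd (Or.inl hfin) hyx
    · have hBg : B ∉ g0.A i := fun h => hyx (Or.inr ⟨B, h, hyB⟩)
      exact hFl j B hB (fun h => hBg (hFg0 j h)) ⟨y, Or.inr ⟨B, hB, hyB⟩⟩ hyB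
  have hval : ∀ j (y : Set ℕ) (hy : y ∈ PtSet 𝒜), c.Val j y = φ j ⟨y, hy⟩ := by
    intro j y hy
    by_cases hyx : y ∈ range x
    · obtain ⟨m, rfl⟩ := hyx
      exact val_range hvalid j m
    · exact val_lim hyx (hlim j y hy hyx)
  -- step 3
  obtain ⟨g, hg, hgg0, hgD⟩ := hG2 c g0 hg0
  have hgA : g.A i ⊆ 𝒜 := hsub g hg
  have hPg : PtSet (g.A i) ⊆ PtSet 𝒜 := ptSet_mono hgA
  have hrange : range x ⊆ PtSet (g.A i) := by
    rw [← hx]
    exact ptSet_mono (hgg0.1 i)
  have hfinPt : ∀ s : Finset ℕ, (s : Set ℕ) ∈ PtSet (g.A i) := fun s => Or.inl s.finite_toSet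
  have hH : Handled g c := by
    rcases hgD hvalid with h | h
    · exact absurd hrange (h g (cond_le_refl g))
    · exact h.2
  rcases hH with hZ | hN | hA | hK | hP
  · -- Zer
    exfalso
    obtain ⟨j, hj⟩ := hZ
    apply hne j
    funext y
    change φ j y = 0
    by_cases hy : y.1 ∈ PtSet (g.A i)
    · have := hj y.1 hy
      rw [hval j y.1 y.2] at this
      exact this
    · have hyx : y.1 ∉ range x := fun h => hy (hrange h)
      apply isLim_unique (hlim j y.1 y.2 hyx)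
      intro ε hε
      refine ⟨0, fun s _ => ?_⟩
      have h1 := hj (s : Set ℕ) (hfinPt s)
      rw [val_fin hvalid] at h1
      rw [h1, sub_zero, abs_zero]
      exact hε.le
  · -- NoLim
    exfalso
    obtain ⟨j, y, hy, hyx, hno⟩ := hN
    exact hno ⟨_, hlim j y (hPg hy) hyx⟩
  · -- Away
    exfalso
    obtain ⟨P, hP, ε, hε, hP2⟩ := hA
    have hPm : ∀ y ∈ P, y ∈ PtSet 𝒜 := fun y hy => hPg (hP hy)
    have hopen : IsOpen (⋂ y ∈ P.attach, {f : Pt 𝒜 → ℝ | |f ⟨y.1, hPm y.1 y.2⟩| < ε}) :=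
      isOpen_biInter_finset fun y _ =>
        isOpen_lt (continuous_abs.comp (continuous_apply _)) continuous_const
    obtain ⟨f, hf, j, rfl⟩ := mem_closure_iff.mp h0 _ hopen (by
      simp only [Set.mem_iInter]
      intro y _
      change |(0 : ℝ)| < ε
      rw [abs_zero]
      exact hε)
    obtain ⟨y, hy, hy2⟩ := hP2 j
    rw [hval j y (hPm y hy)] at hy2
    simp only [Set.mem_iInter] at hf
    exact absurd (hf ⟨y, hy⟩ (Finset.mem_attach _ _)) (not_lt.mpr hy2)
  · -- Killed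
    exfalso
    obtain ⟨J, s, ε, x', hJ, hε, hx1, hx2, hx3, hx4, hx5⟩ := hK
    have hx'm : ∀ t, x' t ∈ PtSet 𝒜 := fun t =>
      Or.inr ⟨x' t, hgA (hx1 t), by simp [AEq]⟩
    obtain ⟨a, ha, hac⟩ := hR.2 (fun n => φ (J n)) (fun n => mem_range_self (J n))
    have hev : ∀ y : Pt 𝒜, MapClusterPt (a y) atTop (fun n => φ (J n) y) := by
      intro y
      exact hac.continuousAt_comp (continuous_apply y).continuousAt
    have ha0 : a (finPt 𝒜 s) = 0 := by
      apply eq_of_mapClusterPt_of_tendsto (hev (finPt 𝒜 s))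
      refine hx5.congr fun l => ?_
      exact hval (J l) (s : Set ℕ) (hPg (hfinPt s))
    have hat : ∀ t, ε ≤ |a ⟨x' t, hx'm t⟩| := by
      intro t
      have hcl : IsClosed {v : ℝ | ε ≤ |v|} := isClosed_le continuous_const continuous_abs
      have h1 : ∀ᶠ l in atTop, φ (J l) ⟨x' t, hx'm t⟩ ∈ {v : ℝ | ε ≤ |v|} := by
        filter_upwards [hx4 t] with l hl
        rw [hval (J l) (x' t) (hx'm t)] at hl
        exact hl
      by_contra hcon
      have hmem : {v : ℝ | ε ≤ |v|}ᶜ ∈ 𝓝 (a ⟨x' t, hx'm t⟩) := hcl.isOpen_compl.mem_nhds hcon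
      have h2 := (mapClusterPt_iff_frequently.mp (hev ⟨x' t, hx'm t⟩)) _ hmem
      obtain ⟨l, hl1, hl2⟩ := (h2.and_eventually h1).exists
      exact hl1 hl2
    set z : ℕ → Pt 𝒜 := fun t => ⟨x' t, hx'm t⟩ with hz
    have htend : Tendsto z atTop (𝓝 (finPt 𝒜 s)) := by
      apply tendsto_fin had (finPt 𝒜 s) s.finite_toSet
      · exact hx3
      · intro B hB
        by_cases hex : ∃ t, x' t = B
        · obtain ⟨t, ht⟩ := hex
          filter_upwards [eventually_gt_atTop t] with k hk hAE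
          have h1 : x' k = B := aeq_eq had (hgA (hx1 k)) hB hAE
          exact hx2 t k hk.ne (ht.trans h1.symm)
        · exact Eventually.of_forall fun k hAE =>
            hex ⟨k, aeq_eq had (hgA (hx1 k)) hB hAE⟩
    have h3 : Tendsto (fun t => |a (z t)|) atTop (𝓝 |a (finPt 𝒜 s)|) :=
      (continuous_abs.comp ha).continuousAt.tendsto.comp htend
    rw [ha0, abs_zero] at h3
    obtain ⟨t, ht⟩ := (h3.eventually (gt_mem_nhds hε)).exists
    exact absurd ht (not_lt.mpr (hat t))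
  · -- Promised
    obtain ⟨J, hJ, hJ1, hJ2⟩ := hP
    refine ⟨J, hJ, fun y => ?_⟩
    by_cases hy : y.1 ∈ PtSet (g.A i)
    · exact (hJ1 y.1 hy).congr fun l => hval (J l) y.1 y.2
    · have hyx : y.1 ∉ range x := fun h => hy (hrange h)
      have hinf : y.1.Infinite := fun h => hy (Or.inl h)
      rcases y.2 with hfin | ⟨B, hB, hyB⟩
      · exact absurd hfin hinf
      have hBg : B ∉ g.A i := fun h => hy (Or.inr ⟨B, h, hyB⟩)
      have hB' := hB
      rw [h𝒜] at hB'
      obtain ⟨g', hg', hBg'⟩ := Set.mem_iUnion₂.mp hB'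
      obtain ⟨h, hh, hle⟩ := hG1 {g, g'} (by
        rintro z (rfl | rfl)
        · exact hg
        · exact hg') (Set.toFinite _).countable
      have hhg : h ≤ g := hle g (by simp)
      have hhg' : h ≤ g' := hle g' (by simp)
      have hBh : B ∈ h.A i := hhg'.1 i hBg'
      have hBni : B ∉ g.A (!i) := by
        intro hcon
        have h1 : B ∈ h.A (!i) := hhg.1 (!i) hcon
        have h2 := h.disj
        rw [Set.disjoint_left] at h2
        cases i
        · exact h2 hBh h1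
        · exact h2 h1 hBh
      have hBall : B ∉ g.all := by
        intro hcon
        cases i
        · rcases hcon with h1 | h1
          · exact hBg h1
          · exact hBni h1
        · rcases hcon with h1 | h1
          · exact hBni h1
          · exact hBg h1
      have hBhall : B ∈ h.all := by
        cases i
        · exact Or.inl hBh
        · exact Or.inr hBh
      have hthin := hhg.2.1 B hBhall hBall
      have hthin' := thin_congr (aeq_symm hyB) hthin
      exact hJ2 y.1 hinf hthin' (fun l => φ (J l) y) (fun l => hlim (J l) y.1 y.2 hyx)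

end Pool.Agent.Lib.MP_ab53ee_gt.GS
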