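import Pool.Agent.Lib.MP_ab53ee_gt.GS.KillStep
import Pool.Agent.Lib.MP_ab53ee_gt.GS.CondA

/-!
# GS-Kill: the killing construction
Let `s ∈ T`.  Proof.  Construct recursively `y l : ℕ → Finset ℕ` (`l = 0, 1, ...`), `N l`, `J l` with: `y l t = s` for `t ≥ l`, all `y l t ∈ T`, all points of all `y l t` are `< N l`,
`l ≤ N l`.  Step: apply `kill_step` with `L = l + 1`, the stems `y l t`, `t ≤ l`, and `N := max (N l) (J (l-1) + 1)`: get `k =: J l`, `S t`, `a t`; put
`y (l+1) t := insert (a t) (S t)` for `t ≤ l`, `:= s` for `t > l` (in `T` by the definition of `Nxt`).  Choose `N (l+1) > ` all points of these, `≥ l + 1`, `> J l`, and so large that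
`|q (J l) t' - q (J l) (y (l+1) t)| ≤ 1/(2(m+1))` for all `t ≤ l` and all finite `t'` with `Agree (N (l+1)) t' (y (l+1) t)` (`QCont`).
`x t := ⋃_l y l t`.  The points of `y (l+1) t` not in `y l t` are `≥ N l`, so `Agree (N l) (x t) (y l t)` for all `l`, also `Agree (N t) (x t) s`.
* `x t` infinite: `a t ∉ S t`, `a t ∈ y (l+1) t`, `a t ≥ J l`.
* `x t` is thin above `n :=` (a bound of `s`): let `a < b` in `x t`, `n ≤ a`; then `a, b ∉ s`.  `b` enters at some step `l` (`b ∈ y (l+1) t \ y l t`); `a ∈ y (l+1) t` because later points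
  are `≥ N (l+1) > b`.  If `b = a t` (the new bad point) then `a ∈ S t` and `b ∉ H a` by `Nxt`; otherwise `b ∈ S t \ y l t` and `a ∈ S t` (`a < b < a t`), so `b ∉ H a` by `Ext`.
* `x t ∩ x t' ⊆ s` for `t ≠ t'`: new points of different steps lie in the disjoint intervals `[N l, N (l+1))`, new points of the same step are disjoint.
* Let `l ≥ t`, `IsLim (q (J l)) (x t) v`, `ε > 0`, `n` from the definition, `t' := x t ∩ [0, max n (N (l+1)))`: `|q (J l) t' - v| ≤ ε`, `Agree (N (l+1)) t' (y (l+1) t)`, so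
  `|v| ≥ |q (J l) (y (l+1) t)| - 1/(2(m+1)) - ε ≥ 1/(2(m+1)) - ε` since `y (l+1) t = insert (a t) (S t)` and `a t ∈ Bad q m (J l) (S t)`.
-/

set_option autoImplicit false

namespace Pool.Agent.Lib.MP_ab53ee_gt.GS

open Filter Topology Set

/-- comparison of a limit with a value at a stem -/
private lemma kill_lim_bound {q : Finset ℕ → ℝ} {x : Set ℕ} {v : ℝ} (hv : IsLim q x v) {M : ℕ}
    {s : Finset ℕ} {δ : ℝ} (hs : ∀ m', m' < M → (m' ∈ x ↔ m' ∈ s))
    (hδ : ∀ t' : Finset ℕ, Agree M (t' : Set ℕ) (s : Set ℕ) → |q t' - q s| ≤ δ) :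
    |v - q s| ≤ δ := by
  classical
  refine le_of_forall_pos_le_add fun ε hε => ?_
  obtain ⟨n, hn⟩ := hv ε hε
  let t' : Finset ℕ := (Finset.range (max n M)).filter (· ∈ x)
  have h1 : Agree n (t' : Set ℕ) x := by
    intro m' hm'
    have : m' < max n M := lt_of_lt_of_le hm' (le_max_left _ _)
    show m' ∈ t' ↔ m' ∈ x
    simp only [t', Finset.mem_filter, Finset.mem_range]
    constructor
    · exact fun h => h.2
    · exact fun h => ⟨this, h⟩
  have h2 : Agree M (t' : Set ℕ) (s : Set ℕ) := by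
    intro m' hm'
    have : m' < max n M := lt_of_lt_of_le hm' (le_max_right _ _)
    show m' ∈ t' ↔ m' ∈ s
    rw [← hs m' hm']
    simp only [t', Finset.mem_filter, Finset.mem_range]
    constructor
    · exact fun h => h.2
    · exact fun h => ⟨this, h⟩
  have h3 := hn t' h1
  have h4 := hδ t' h2
  rw [abs_le] at h3 h4 ⊢
  constructor <;> linarith [h3.1, h3.2, h4.1, h4.2]

/-- invariant of the states `(y, N)` at step `l` -/
private def KInv (T : Set (Finset ℕ)) (s : Finset ℕ) (l : ℕ) (p : (ℕ → Finset ℕ) × ℕ) : Prop :=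
  (∀ t, p.1 t ∈ T) ∧ (∀ t, l ≤ t → p.1 t = s) ∧ (∀ t, ∀ e ∈ p.1 t, e < p.2) ∧ l ≤ p.2

/-- the step relation -/
private def KRel (H : ℕ → Set ℕ) (q : ℕ → Finset ℕ → ℝ) (m : ℕ) (T : Set (Finset ℕ)) (l : ℕ)
    (p : (ℕ → Finset ℕ) × ℕ) (k : ℕ) (p' : (ℕ → Finset ℕ) × ℕ) : Prop :=
  p.2 ≤ k ∧ k < p'.2 ∧
    (∀ t, l < t → p'.1 t = p.1 t) ∧
    (∀ t, t ≤ l → ∃ (S : Finset ℕ) (a : ℕ), Ext H p.2 (p.1 t) S ∧ a ∈ Nxt H T q m k S ∧
      (∀ e ∈ S, e < k) ∧ p'.1 t = insert a S) ∧
    (∀ t t', t ≤ l → t' ≤ l → t ≠ t' → Disjoint (p'.1 t \ p.1 t) (p'.1 t' \ p.1 t')) ∧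
    ∀ t, t ≤ l → ∀ t'' : Finset ℕ, Agree p'.2 (t'' : Set ℕ) (p'.1 t : Set ℕ) →
      |q k t'' - q k (p'.1 t)| ≤ 1 / (2 * ((m : ℝ) + 1))

private lemma kill_next {H : ℕ → Set ℕ} {q : ℕ → Finset ℕ → ℝ} (hq : ∀ k, QCont (q k)) {m : ℕ}
    {T : Set (Finset ℕ)} (hTc : ∀ s ∈ T, ¬ Covered H q m T s) {s : Finset ℕ} (hs : s ∈ T) (l : ℕ)
    (p : (ℕ → Finset ℕ) × ℕ) (hp : KInv T s l p) :
    ∃ p' : {p' : (ℕ → Finset ℕ) × ℕ // KInv T s (l + 1) p'}, ∃ k, KRel H q m T l p k p'.1 := by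
  classical
  obtain ⟨h1, h2, h3, h4⟩ := hp
  obtain ⟨k, hk, S, a, hS, ha, hSk, hdis⟩ := kill_step hTc (l + 1) (fun t => p.1 t)
    (fun t => h1 t) p.2
  have hδ : (0 : ℝ) < 1 / (2 * ((m : ℝ) + 1)) := by positivity
  choose n hn using fun t : Fin (l + 1) => hq k (insert (a t) (S t)) _ hδ
  let y' : ℕ → Finset ℕ := fun t => if h : t < l + 1 then insert (a ⟨t, h⟩) (S ⟨t, h⟩) else s
  let N' : ℕ := Finset.univ.sup n + Finset.univ.sup (fun t => (insert (a t) (S t)).sup id) +
    k + p.2 + l + 2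
  have hy'1 : ∀ t (h : t < l + 1), y' t = insert (a ⟨t, h⟩) (S ⟨t, h⟩) := fun t h => dif_pos h
  have hy'2 : ∀ t (_ : ¬ t < l + 1), y' t = s := fun t h => dif_neg h
  refine ⟨⟨(y', N'), ?_, ?_, ?_, ?_⟩, k, hk, ?_, ?_, ?_, ?_, ?_⟩
  · intro t
    show y' t ∈ T
    by_cases h : t < l + 1
    · rw [hy'1 t h]
      exact (ha ⟨t, h⟩).2.2
    · rw [hy'2 t h]
      exact hs
  · intro t ht
    exact hy'2 t (by omega)
  · intro t e he
    show e < N'
    change e ∈ y' t at he
    by_cases h : t < l + 1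
    · rw [hy'1 t h] at he
      have h5 : e ≤ (insert (a ⟨t, h⟩) (S ⟨t, h⟩)).sup id :=
        Finset.le_sup (f := id) he
      have h6 : (insert (a ⟨t, h⟩) (S ⟨t, h⟩)).sup id ≤
          Finset.univ.sup (fun t => (insert (a t) (S t)).sup id) :=
        Finset.le_sup (f := fun t => (insert (a t) (S t)).sup id) (Finset.mem_univ _)
      simp only [N']
      omega
    · rw [hy'2 t h] at he
      have h5 := h3 l e (by rw [h2 l le_rfl]; exact he)
      simp only [N']
      omega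
  · show l + 1 ≤ N'
    simp only [N']
    omega
  · show k < N'
    simp only [N']
    omega
  · intro t ht
    show y' t = p.1 t
    rw [hy'2 t (by omega), h2 t ht.le]
  · intro t ht
    have h : t < l + 1 := by omega
    exact ⟨S ⟨t, h⟩, a ⟨t, h⟩, hS ⟨t, h⟩, ha ⟨t, h⟩, hSk ⟨t, h⟩, hy'1 t h⟩
  · intro t t' ht ht' hne
    have h : t < l + 1 := by omega
    have h' : t' < l + 1 := by omega
    show Disjoint (y' t \ p.1 t) (y' t' \ p.1 t')
    rw [hy'1 t h, hy'1 t' h']
    exact hdis ⟨t, h⟩ ⟨t', h'⟩ (by simpa using hne)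
  · intro t ht t'' ht''
    have h : t < l + 1 := by omega
    change Agree N' (t'' : Set ℕ) (y' t : Set ℕ) at ht''
    show |q k t'' - q k (y' t)| ≤ _
    rw [hy'1 t h] at ht'' ⊢
    refine hn ⟨t, h⟩ t'' fun m' hm' => ht'' m' ?_
    have h6 : n ⟨t, h⟩ ≤ Finset.univ.sup n := Finset.le_sup (Finset.mem_univ _)
    simp only [N']
    omega

theorem kill (H : ℕ → Set ℕ) (q : ℕ → Finset ℕ → ℝ) (hq : ∀ k, QCont (q k)) (m : ℕ)
    (T : Set (Finset ℕ)) (hT : T.Nonempty) (hTc : ∀ s ∈ T, ¬ Covered H q m T s) :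
    ∃ (J : ℕ → ℕ) (s : Finset ℕ) (x : ℕ → Set ℕ), StrictMono J ∧
      (∀ t, (x t).Infinite ∧ ∃ n, Thin H n (x t)) ∧
      (∀ t t', t ≠ t' → (x t ∩ x t').Finite) ∧
      (∀ n, ∀ᶠ t in atTop, Agree n (x t) (s : Set ℕ)) ∧
      ∀ t, ∀ᶠ l in atTop, ∀ v, IsLim (q (J l)) (x t) v → 1 / (2 * ((m : ℝ) + 1)) ≤ |v| := by
  classical
  obtain ⟨s, hs⟩ := hT
  have h0 : KInv T s 0 (fun _ => s, s.sup id + 1) := by
    refine ⟨fun _ => hs, fun _ _ => rfl, fun _ e he => ?_, Nat.zero_le _⟩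
    exact Nat.lt_succ_of_le (Finset.le_sup (f := id) he)
  choose nx kk hkk using fun (l : ℕ) (p : {p : (ℕ → Finset ℕ) × ℕ // KInv T s l p}) =>
    kill_next hq hTc hs l p.1 p.2
  let st : ∀ l, {p : (ℕ → Finset ℕ) × ℕ // KInv T s l p} := fun l =>
    Nat.rec (motive := fun l => {p : (ℕ → Finset ℕ) × ℕ // KInv T s l p}) ⟨_, h0⟩
      (fun l p => nx l p) l
  have hst : ∀ l, st (l + 1) = nx l (st l) := fun l => rfl
  let y : ℕ → ℕ → Finset ℕ := fun l => (st l).1.1
  let N : ℕ → ℕ := fun l => (st l).1.2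
  let J : ℕ → ℕ := fun l => kk l (st l)
  have hR : ∀ l, KRel H q m T l (y l, N l) (J l) (y (l + 1), N (l + 1)) := by
    intro l
    have := hkk l (st l)
    rw [← hst l] at this
    exact this
  have hI : ∀ l, KInv T s l (y l, N l) := fun l => (st l).2
  have hNJ : ∀ l, N l ≤ J l := fun l => (hR l).1
  have hJN : ∀ l, J l < N (l + 1) := fun l => (hR l).2.1
  have hJ : StrictMono J := strictMono_nat_of_lt_succ fun l =>
    lt_of_lt_of_le (hJN l) (hNJ (l + 1))
  have hNm : Monotone N := monotone_nat_of_le_succ fun l => (hNJ l).trans (hJN l).le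
  have hy0 : ∀ t, y 0 t = s := fun t => (hI 0).2.1 t (Nat.zero_le t)
  have hylt : ∀ l t, ∀ e ∈ y l t, e < N l := fun l => (hI l).2.2.1
  have hysub : ∀ l t, y l t ⊆ y (l + 1) t := by
    intro l t
    by_cases h : t ≤ l
    · obtain ⟨S, a, hS, ha, hSk, hy⟩ := (hR l).2.2.2.1 t h
      change y (l + 1) t = insert a S at hy
      rw [hy]
      exact hS.1.trans (Finset.subset_insert _ _)
    · have : y (l + 1) t = y l t := (hR l).2.2.1 t (by omega)
      rw [this]
  have hnew : ∀ l t, ∀ e ∈ y (l + 1) t, e ∉ y l t → t ≤ l ∧ N l ≤ e := by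
    intro l t e he he'
    by_cases h : t ≤ l
    · obtain ⟨S, a, hS, ha, hSk, hy⟩ := (hR l).2.2.2.1 t h
      change y (l + 1) t = insert a S at hy
      rw [hy, Finset.mem_insert] at he
      refine ⟨h, ?_⟩
      rcases he with rfl | he
      · exact (hNJ l).trans ha.1.1
      · exact (hS.2 e he he').1
    · have : y (l + 1) t = y l t := (hR l).2.2.1 t (by omega)
      rw [this] at he
      exact absurd he he'
  have hymono : ∀ t, Monotone (fun l => y l t) := fun t =>
    monotone_nat_of_le_succ fun l => hysub l t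
  have hnew2 : ∀ l l' t, l ≤ l' → ∀ e ∈ y l' t, e ∉ y l t → N l ≤ e := by
    intro l l' t hll
    induction l', hll using Nat.le_induction with
    | base => exact fun e he he' => absurd he he'
    | succ l' hll ih =>
      intro e he he'
      by_cases h : e ∈ y l' t
      · exact ih e h he'
      · exact (hNm hll).trans (hnew l' t e he h).2
  let x : ℕ → Set ℕ := fun t => {e | ∃ l, e ∈ y l t}
  have hagree : ∀ l t m', m' < N l → (m' ∈ x t ↔ m' ∈ y l t) := by
    intro l t m' hm'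
    constructor
    · rintro ⟨l', hl'⟩
      by_contra hcon
      rcases le_total l l' with h | h
      · have := hnew2 l l' t h m' hl' hcon
        omega
      · exact hcon (hymono t h hl')
    · exact fun h => ⟨l, h⟩
  -- the step at which a point enters
  have henter : ∀ t, ∀ e ∈ x t, e ∉ s → ∃ l, t ≤ l ∧ e ∈ y (l + 1) t ∧ e ∉ y l t ∧ N l ≤ e ∧
      e < N (l + 1) := by
    intro t e he hes
    have hex : ∃ l, e ∈ y l t := he
    have hpos : Nat.find hex ≠ 0 := by
      intro h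
      have := Nat.find_spec hex
      rw [h, hy0 t] at this
      exact hes this
    obtain ⟨l, hl⟩ := Nat.exists_eq_succ_of_ne_zero hpos
    have h1 : e ∈ y (l + 1) t := by
      have := Nat.find_spec hex
      rwa [hl] at this
    have h2 : e ∉ y l t := Nat.find_min hex (by omega)
    exact ⟨l, (hnew l t e h1 h2).1, h1, h2, (hnew l t e h1 h2).2, hylt (l + 1) t e h1⟩
  refine ⟨J, s, x, hJ, ?_, ?_, ?_, ?_⟩
  · intro t
    refine ⟨?_, N 0, ?_⟩
    · refine Set.infinite_of_forall_exists_gt fun n => ?_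
      have htl : t ≤ max t (n + 1) := le_max_left _ _
      obtain ⟨S, a, hS, ha, hSk, hy⟩ := (hR (max t (n + 1))).2.2.2.1 t htl
      change y (max t (n + 1) + 1) t = insert a S at hy
      refine ⟨a, ⟨max t (n + 1) + 1, by rw [hy]; exact Finset.mem_insert_self _ _⟩, ?_⟩
      have h1 : J (max t (n + 1)) ≤ a := ha.1.1
      have h2 : max t (n + 1) ≤ J (max t (n + 1)) := hJ.le_apply
      have h3 : n + 1 ≤ max t (n + 1) := le_max_right _ _
      omega
    · intro a ha b hb hNa hab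
      have hbs : b ∉ s := by
        intro h
        have := hylt 0 t b (by rw [hy0]; exact h)
        omega
      obtain ⟨l, htl, hb1, hb2, hb3, hb4⟩ := henter t b hb hbs
      have ha1 : a ∈ y (l + 1) t := (hagree (l + 1) t a (by omega)).1 ha
      obtain ⟨S, c, hS, hc, hSk, hy⟩ := (hR l).2.2.2.1 t htl
      change y (l + 1) t = insert c S at hy
      rw [hy, Finset.mem_insert] at ha1 hb1
      rcases hb1 with rfl | hb1
      · rcases ha1 with rfl | ha1
        · omega
        · exact (hc.2.1 a ha1).2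
      · rcases ha1 with rfl | ha1
        · have h1 : J l ≤ a := hc.1.1
          have h2 : b < J l := hSk b hb1
          omega
        · exact (hS.2 b hb1 hb2).2.2 a ha1 hab
  · intro t t' htt
    refine s.finite_toSet.subset ?_
    rintro e ⟨he, he'⟩
    by_contra hes
    obtain ⟨l, htl, h1, h2, h3, h4⟩ := henter t e he hes
    obtain ⟨l', htl', h1', h2', h3', h4'⟩ := henter t' e he' hes
    have hll : l = l' := by
      by_contra hne
      rcases Nat.lt_or_gt_of_ne hne with h | h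
      · have : N (l + 1) ≤ N l' := hNm h
        omega
      · have : N (l' + 1) ≤ N l := hNm h
        omega
    subst hll
    have hd := (hR l).2.2.2.2.1 t t' htl htl' htt
    change Disjoint (y (l + 1) t \ y l t) (y (l + 1) t' \ y l t') at hd
    exact (Finset.disjoint_left.1 hd (Finset.mem_sdiff.2 ⟨h1, h2⟩)) (Finset.mem_sdiff.2 ⟨h1', h2'⟩)
  · intro n
    filter_upwards [eventually_ge_atTop n] with t ht
    intro m' hm'
    have h1 : y t t = s := (hI t).2.1 t le_rfl
    have h2 : t ≤ N t := (hI t).2.2.2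
    have h3 := hagree t t m' (by omega)
    rw [h1] at h3
    exact h3
  · intro t
    filter_upwards [eventually_ge_atTop t] with l hl
    intro v hv
    obtain ⟨S, a, hS, ha, hSk, hy⟩ := (hR l).2.2.2.1 t hl
    change y (l + 1) t = insert a S at hy
    have h1 : |v - q (J l) (y (l + 1) t)| ≤ 1 / (2 * ((m : ℝ) + 1)) :=
      kill_lim_bound hv (M := N (l + 1)) (hagree (l + 1) t) ((hR l).2.2.2.2.2 t hl)
    have h2 : 1 / ((m : ℝ) + 1) ≤ |q (J l) (y (l + 1) t)| := by
      rw [hy]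
      exact ha.1.2
    have h3 : |q (J l) (y (l + 1) t)| ≤ |v - q (J l) (y (l + 1) t)| + |v| := by
      have := abs_sub_abs_le_abs_sub (q (J l) (y (l + 1) t)) v
      rw [abs_sub_comm] at this
      linarith
    have h4 : 1 / ((m : ℝ) + 1) = 1 / (2 * ((m : ℝ) + 1)) + 1 / (2 * ((m : ℝ) + 1)) := by
      have : (m : ℝ) + 1 ≠ 0 := by positivity
      field_simp
      norm_num
    linarith

end Pool.Agent.Lib.MP_ab53ee_gt.GS
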