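import Pool.Agent.Lib.MP_ab53ee_gt.GS.Match

/-!
# GS-KillStep: one step of the killing construction
Proof.  (1) By induction on `t < L` (recursively over `Fin L`, or a statement with `L' ≤ L`) choose with `matching` for `y t` a family `S t r`, `b t r` (`r < L`) with
`Ext H (N t) (y t) (S t r)`, where `N t ≥ N` and `N t` is larger than all points of all `y t'` and of all `S t' r`, `t' < t`.  So the sets `S t r \ y t` for different `t` are
disjoint (the new points of `t` lie above `N t`, those of `t' < t` below `N t`).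
(2) The intersection of the finitely many eventual conditions, of `k ≥ N` and of `k >` all points of all `S t r` is in the ultrafilter, so there is such a `k`.
(3) For each `t` the `L` values `b t r k` are distinct; by Hall's theorem (`Finset.all_card_le_biUnion_card_iff_exists_injective`; a union of at least one
set with `L` elements has at least `L` elements) there is an injective `a` with `a t ∈ {b t r k | r}`; take `S t := S t (r t)` with `a t = b t (r t) k`.
(4) `a t ≥ k >` all points of all the `S t'`, and `a` is injective, so the sets of new points `insert (a t) (S t) \ y t` are pairwise disjoint.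
-/

set_option autoImplicit false

namespace Pool.Agent.Lib.MP_ab53ee_gt.GS

open Filter Topology Set

private theorem ext_mono {H : ℕ → Set ℕ} {N N' : ℕ} {s s' : Finset ℕ} (hN : N ≤ N')
    (h : Ext H N' s s') : Ext H N s s' :=
  ⟨h.1, fun e he hes => ⟨hN.trans (h.2 e he hes).1, (h.2 e he hes).2⟩⟩

private theorem kill_aux {H : ℕ → Set ℕ} {q : ℕ → Finset ℕ → ℝ} {m : ℕ} {T : Set (Finset ℕ)}
    (hTc : ∀ s ∈ T, ¬ Covered H q m T s) (r N : ℕ) :
    ∀ (L : ℕ) (y : Fin L → Finset ℕ), (∀ t, y t ∈ T) →
    ∃ (S : Fin L → Fin r → Finset ℕ) (b : Fin L → Fin r → ℕ → ℕ),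
      (∀ t l, Ext H N (y t) (S t l)) ∧
      (∀ t, ∀ᶠ k in (hyperfilter ℕ : Filter ℕ), (∀ l, b t l k ∈ Nxt H T q m k (S t l)) ∧
        Function.Injective (fun l => b t l k)) ∧
      ∀ t t' l l', t ≠ t' → Disjoint (S t l \ y t) (S t' l' \ y t') := by
  intro L
  induction L with
  | zero =>
    intro y _
    exact ⟨fun t => t.elim0, fun t => t.elim0, fun t => t.elim0, fun t => t.elim0,
      fun t => t.elim0⟩
  | succ L ih =>
    intro y hy
    obtain ⟨S', b', h1, h2, h3⟩ := ih (fun t => y t.succ) (fun t => hy t.succ)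
    obtain ⟨N', hN'⟩ : ∃ N', N ≤ N' ∧ ∀ t l, ∀ e ∈ S' t l, e < N' := by
      have hfin : (⋃ t, ⋃ l, ((S' t l : Finset ℕ) : Set ℕ)).Finite :=
        Set.finite_iUnion fun t => Set.finite_iUnion fun l => (S' t l).finite_toSet
      obtain ⟨M, hM⟩ := hfin.bddAbove
      refine ⟨max N (M + 1), le_max_left _ _, fun t l e he => ?_⟩
      have : e ≤ M := hM (Set.mem_iUnion.2 ⟨t, Set.mem_iUnion.2 ⟨l, he⟩⟩)
      exact lt_of_lt_of_le (Nat.lt_succ_of_le this) (le_max_right _ _)
    obtain ⟨S0, b0, g1, g2⟩ := matching (hTc (y 0) (hy 0)) N' r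
    refine ⟨Fin.cons S0 S', Fin.cons b0 b', ?_, ?_, ?_⟩
    · intro t
      refine Fin.cases ?_ (fun t => ?_) t
      · intro l
        simpa using ext_mono hN'.1 (g1 l)
      · intro l
        simpa using h1 t l
    · intro t
      refine Fin.cases ?_ (fun t => ?_) t
      · simpa using g2
      · simpa using h2 t
    · have key : ∀ t l l', Disjoint (S0 l \ y 0) (S' t l' \ y t.succ) := by
        intro t l l'
        rw [Finset.disjoint_left]
        intro e he he'
        rw [Finset.mem_sdiff] at he he'
        have e1 := ((g1 l).2 e he.1 he.2).1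
        have e2 := hN'.2 t l' e he'.1
        omega
      intro t t' l l'
      refine Fin.cases ?_ (fun t => ?_) t
      · refine Fin.cases ?_ (fun t' => ?_) t'
        · intro h
          exact absurd rfl h
        · intro _
          simpa using key t' l l'
      · refine Fin.cases ?_ (fun t' => ?_) t'
        · intro _
          simpa using (key t l' l).symm
        · intro h
          have h' : t ≠ t' := fun h'' => h (by rw [h''])
          simpa using h3 t t' l l' h'

theorem kill_step {H : ℕ → Set ℕ} {q : ℕ → Finset ℕ → ℝ} {m : ℕ} {T : Set (Finset ℕ)}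
    (hTc : ∀ s ∈ T, ¬ Covered H q m T s) (L : ℕ) (y : Fin L → Finset ℕ) (hy : ∀ t, y t ∈ T)
    (N : ℕ) :
    ∃ k, N ≤ k ∧ ∃ (S : Fin L → Finset ℕ) (a : Fin L → ℕ), (∀ t, Ext H N (y t) (S t)) ∧
      (∀ t, a t ∈ Nxt H T q m k (S t)) ∧ (∀ t, ∀ e ∈ S t, e < k) ∧
      ∀ t t', t ≠ t' →
        Disjoint ((insert (a t) (S t)) \ y t) ((insert (a t') (S t')) \ y t') := by
  classical
  obtain ⟨S, b, h1, h2, h3⟩ := kill_aux hTc L N L y hy
  have hev : ∀ᶠ k in (hyperfilter ℕ : Filter ℕ), N ≤ k ∧ ∀ t l, ∀ e ∈ S t l, e < k := by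
    have hfin : (⋃ t, ⋃ l, ((S t l : Finset ℕ) : Set ℕ)).Finite :=
      Set.finite_iUnion fun t => Set.finite_iUnion fun l => (S t l).finite_toSet
    obtain ⟨M, hM⟩ := hfin.bddAbove
    have hat : ∀ᶠ k : ℕ in atTop, max N (M + 1) ≤ k := eventually_ge_atTop _
    rw [← Nat.cofinite_eq_atTop] at hat
    refine (hat.filter_mono (hyperfilter_le_cofinite)).mono fun k hk => ?_
    refine ⟨(le_max_left _ _).trans hk, fun t l e he => ?_⟩
    have : e ≤ M := hM (Set.mem_iUnion.2 ⟨t, Set.mem_iUnion.2 ⟨l, he⟩⟩)
    exact lt_of_lt_of_le (Nat.lt_succ_of_le this) ((le_max_right _ _).trans hk)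
  obtain ⟨k, ⟨hkN, hkS⟩, hk⟩ := (hev.and (Filter.eventually_all.2 h2)).exists
  have hHall : ∃ f : Fin L → ℕ, Function.Injective f ∧
      ∀ t, f t ∈ (Finset.univ : Finset (Fin L)).image (fun l => b t l k) := by
    rw [← Finset.all_card_le_biUnion_card_iff_exists_injective]
    intro s
    rcases s.eq_empty_or_nonempty with rfl | ⟨t0, ht0⟩
    · simp
    · have c1 : s.card ≤ L := by
        have := Finset.card_le_univ s
        simpa using this
      have c2 : ((Finset.univ : Finset (Fin L)).image (fun l => b t0 l k)).card = L := by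
        rw [Finset.card_image_of_injective _ (hk t0).2]
        simp
      have c3 : ((Finset.univ : Finset (Fin L)).image (fun l => b t0 l k)).card ≤
          (s.biUnion fun t => (Finset.univ : Finset (Fin L)).image (fun l => b t l k)).card :=
        Finset.card_le_card (Finset.subset_biUnion_of_mem
          (fun t => (Finset.univ : Finset (Fin L)).image (fun l => b t l k)) ht0)
      omega
  obtain ⟨a, ha, hat⟩ := hHall
  have hat' : ∀ t, ∃ l, b t l k = a t := fun t => by
    obtain ⟨l, _, hl⟩ := Finset.mem_image.1 (hat t)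
    exact ⟨l, hl⟩
  choose l hl using hat'
  have hNx : ∀ t, a t ∈ Nxt H T q m k (S t (l t)) := fun t => by
    rw [← hl t]
    exact (hk t).1 (l t)
  have hka : ∀ t, k ≤ a t := fun t => (hNx t).1.1
  refine ⟨k, hkN, fun t => S t (l t), a, fun t => h1 t (l t), hNx, fun t => hkS t (l t), ?_⟩
  intro t t' htt'
  rw [Finset.disjoint_left]
  intro e he he'
  rw [Finset.mem_sdiff, Finset.mem_insert] at he he'
  obtain ⟨he1, he2⟩ := he
  obtain ⟨he1', he2'⟩ := he'
  rcases he1 with rfl | he1
  · rcases he1' with h | h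
    · exact htt' (ha h)
    · have := hkS t' (l t') _ h
      have := hka t
      omega
  · rcases he1' with rfl | h
    · have := hkS t (l t) _ he1
      have := hka t'
      omega
    · exact Finset.disjoint_left.1 (h3 t t' (l t) (l t') htt')
        (Finset.mem_sdiff.2 ⟨he1, he2⟩) (Finset.mem_sdiff.2 ⟨h, he2'⟩)

end Pool.Agent.Lib.MP_ab53ee_gt.GS
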