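import Pool.Agent.Lib.MP_ab53ee_gt.GS.Defs

/-!
# GS-Match: if `s` is not covered there are arbitrarily large families of distinct bad next points
Proof by induction on `r`.  Given `S, b` for `r`, `¬ Covered` with this `N, r, b` gives `s'` with `Ext H N s s'` and
`¬ ∀ᶠ k, ∀ a ∈ Nxt .. s', ∃ l, a = b l k`; the filter is an ultrafilter, so `∀ᶠ k, ∃ a ∈ Nxt .. s', ∀ l, a ≠ b l k` (`Ultrafilter.eventually_not`, or
`Filter.hyperfilter`); choose the new function and append (`Fin.snoc` or `Fin.cons`).
-/

set_option autoImplicit false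

namespace Pool.Agent.Lib.MP_ab53ee_gt.GS

open Filter Topology Set

theorem matching {H : ℕ → Set ℕ} {q : ℕ → Finset ℕ → ℝ} {m : ℕ} {T : Set (Finset ℕ)}
    {s : Finset ℕ} (h : ¬ Covered H q m T s) (N r : ℕ) :
    ∃ (S : Fin r → Finset ℕ) (b : Fin r → ℕ → ℕ), (∀ l, Ext H N s (S l)) ∧
      ∀ᶠ k in (hyperfilter ℕ : Filter ℕ), (∀ l, b l k ∈ Nxt H T q m k (S l)) ∧
        Function.Injective (fun l => b l k) := by
  classical
  induction r with
  | zero =>
    refine ⟨fun l => l.elim0, fun l => l.elim0, fun l => l.elim0, Eventually.of_forall fun k => ?_⟩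
    exact ⟨fun l => l.elim0, fun l => l.elim0⟩
  | succ r ih =>
    obtain ⟨S, b, hS, hb⟩ := ih
    have h1 : ¬ ∀ s', Ext H N s s' → ∀ᶠ k in (hyperfilter ℕ : Filter ℕ),
        ∀ a ∈ Nxt H T q m k s', ∃ l, a = b l k := fun hcon => h ⟨N, r, b, hcon⟩
    push Not at h1
    obtain ⟨s', hs', h2⟩ := h1
    have h3 : ∀ᶠ k in (hyperfilter ℕ : Filter ℕ),
        ¬ ∀ a ∈ Nxt H T q m k s', ∃ l, a = b l k := by
      filter_upwards [h2] with k hk hcon
      obtain ⟨a, ha, ha'⟩ := hk
      obtain ⟨l, hl⟩ := hcon a ha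
      exact ha' l hl
    have h4 : ∀ k, ∃ a, (¬ ∀ a ∈ Nxt H T q m k s', ∃ l, a = b l k) →
        a ∈ Nxt H T q m k s' ∧ ∀ l, a ≠ b l k := by
      intro k
      by_cases hk : ∀ a ∈ Nxt H T q m k s', ∃ l, a = b l k
      · exact ⟨0, fun h => absurd hk h⟩
      · have hk' := hk
        push Not at hk'
        obtain ⟨a, ha, ha'⟩ := hk'
        exact ⟨a, fun _ => ⟨ha, ha'⟩⟩
    choose c hc using h4
    refine ⟨Fin.cons s' S, Fin.cons c b, ?_, ?_⟩
    · intro l
      refine Fin.cases ?_ ?_ l
      · simpa using hs'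
      · intro l
        simpa using hS l
    · filter_upwards [hb, h3] with k hk hk3
      obtain ⟨h5, h6⟩ := hc k hk3
      constructor
      · intro l
        refine Fin.cases ?_ ?_ l
        · simpa using h5
        · intro l
          simpa using hk.1 l
      · intro l l'
        refine Fin.cases ?_ ?_ l
        · refine Fin.cases ?_ ?_ l'
          · intro _
            rfl
          · intro l' hl'
            exact absurd (by simpa using hl') (h6 l')
        · intro l
          refine Fin.cases ?_ ?_ l'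
          · intro hl'
            exact absurd (by simpa using hl'.symm) (h6 l)
          · intro l' hl'
            have := hk.2 (show b l k = b l' k by simpa using hl')
            rw [this]

/-- a larger target set is harder to cover -/
theorem covered_anti {H : ℕ → Set ℕ} {q : ℕ → Finset ℕ → ℝ} {m : ℕ} {T T' : Set (Finset ℕ)}
    (hT : T ⊆ T') {s : Finset ℕ} (h : Covered H q m T' s) : Covered H q m T s := by
  obtain ⟨N, r, b, hb⟩ := h
  refine ⟨N, r, b, fun s' hs' => ?_⟩
  filter_upwards [hb s' hs'] with k hk a ha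
  exact hk a ⟨ha.1, ha.2.1, hT ha.2.2⟩

end Pool.Agent.Lib.MP_ab53ee_gt.GS
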