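import Pool.Agent.Lib.MP_ab53ee_gt.GS.CondA

/-!
# GS-Selector: thinning so that the selectors lie in members or are new members
Let `u` be the hyperfilter.  Call `e` OLD if there is `B ∈ p.all` with `∀ᶠ k in u, β e k ∈ B`; otherwise NEW.  For new `e` and every `c`: `∀ᶠ k in u, β e k ∉ p.H c` (`p.H c` is covered by
finitely many members and a finite set; `u` is an ultrafilter; `β e k ≥ k` leaves every finite set).  Let `e ~ e'` if `∀ᶠ k in u, β e k = β e' k`; otherwise `∀ᶠ k in u, β e k ≠ β e' k`.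
Let `G n := max_{e, k ≤ n} β e k` and let `W n` be the set of all `k ∈ V n` with `k > n`, `k > G n` and for all `e, e' ≤ n`: `β e k ∈ B_e` if `e` is old (fixed witness), `β e k ∉ p.H c` for all
`c ≤ G n` if `e` is new, `β e k = β e' k` if `e ~ e'`, `β e k ≠ β e' k` if not `e ~ e'`.  `W n ∈ u`.  Choose `J (t+1) ∈ W (J t)` (sets in `u` are nonempty), `J 0 = 0`.
`L := {L_e | e new, no e' < e with e' ~ e}`, `L_e := {β e (J t) | t ≥ e}`.
* `L_e` is infinite (`β e k ≥ k`), and thin: for `e ≤ t < t'`: `β e (J t) ≤ G (J t) ≤ G (J (t'-1))`, so `β e (J t') ∉ p.H (β e (J t))`; moreover `β e (J t) < J t' ≤ β e (J t')`, so the enumeration is increasing.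
* `L_e ∩ L_e'` is finite for different representatives: if `β e (J t) = β e' (J t')` with `max e e' < t ≤ t'`, then `t < t'` is impossible since `β e' (J t') ≥ J t' > G (J (t'-1)) ≥ β e (J t)`;
  and `t = t'` is impossible by `J t ∈ W (J (t-1))`.
* every `e`: if `e` is old, `β e (J t) ∈ B_e` for `t > e`; if `e` is new and `e'` is the least element of its class, `β e (J t) = β e' (J t) ∈ L_e'` for large `t`.
-/

set_option autoImplicit false

namespace Pool.Agent.Lib.MP_ab53ee_gt.GS

open Filter Topology Set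

theorem selector (p : Cond) (β : ℕ → ℕ → ℕ) (hβ : ∀ e k, k ≤ β e k) (V : ℕ → Set ℕ)
    (hV : ∀ n, V n ∈ (hyperfilter ℕ : Filter ℕ)) :
    ∃ (J : ℕ → ℕ) (L : Set (Set ℕ)), StrictMono J ∧ (∀ t, J (t + 1) ∈ V (J t)) ∧ L.Countable ∧
      (∀ B ∈ L, B.Infinite ∧ ∃ n, Thin p.H n B) ∧
      (∀ B ∈ L, ∀ C ∈ L, B ≠ C → (B ∩ C).Finite) ∧
      ∀ e, ∃ B ∈ p.all ∪ L, ∀ᶠ t in atTop, β e (J t) ∈ B := by
  classical
  -- the ultrafilter
  have hlarge : ∀ M : ℕ, ∀ᶠ k in (hyperfilter ℕ : Filter ℕ), M < k := by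
    intro M
    have h : ∀ᶠ k in (cofinite : Filter ℕ), M < k := by
      rw [Nat.cofinite_eq_atTop]
      exact eventually_gt_atTop M
    exact hyperfilter_le_cofinite h
  have hne : ∀ P : ℕ → Prop, (∀ᶠ k in (hyperfilter ℕ : Filter ℕ), P k) → ∃ k, P k :=
    fun P h => h.exists
  let Old : ℕ → Prop := fun e => ∃ B ∈ p.all, ∀ᶠ k in (hyperfilter ℕ : Filter ℕ), β e k ∈ B
  let Sim : ℕ → ℕ → Prop := fun e e' => ∀ᶠ k in (hyperfilter ℕ : Filter ℕ), β e k = β e' k
  have hnot : ∀ P : ℕ → Prop, (¬ ∀ᶠ k in (hyperfilter ℕ : Filter ℕ), P k) →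
      ∀ᶠ k in (hyperfilter ℕ : Filter ℕ), ¬ P k := by
    intro P h
    exact Ultrafilter.eventually_not.mpr h
  have hnew : ∀ e, ¬ Old e → ∀ c, ∀ᶠ k in (hyperfilter ℕ : Filter ℕ), β e k ∉ p.H c := by
    intro e he c
    obtain ⟨F, hF, hfin⟩ := p.small c
    have h1 : ∀ᶠ k in (hyperfilter ℕ : Filter ℕ), ∀ B ∈ F, β e k ∉ B := by
      rw [Filter.eventually_all_finset]
      intro B hB
      apply hnot
      intro h
      exact he ⟨B, hF hB, h⟩
    obtain ⟨M, hM⟩ := hfin.bddAbove
    have h2 := hlarge M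
    filter_upwards [h1, h2] with k hk1 hk2 hk3
    have hk4 : β e k ∈ p.H c \ ⋃ B ∈ F, B := by
      refine ⟨hk3, ?_⟩
      simp only [mem_iUnion, not_exists]
      exact fun B hB => hk1 B hB
    have h5 := hM hk4
    have h6 := hβ e k
    omega
  -- the bounding function
  let G : ℕ → ℕ := fun n =>
    (Finset.range (n + 1) ×ˢ Finset.range (n + 1)).sup (fun x => β x.1 x.2)
  have hG : ∀ n e k, e ≤ n → k ≤ n → β e k ≤ G n := by
    intro n e k he hk
    have hm : (e, k) ∈ Finset.range (n + 1) ×ˢ Finset.range (n + 1) := by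
      simp only [Finset.mem_product, Finset.mem_range]
      omega
    exact Finset.le_sup (f := fun x : ℕ × ℕ => β x.1 x.2) hm
  have hBw : ∀ e, ∃ B : Set ℕ, Old e → B ∈ p.all ∧
      ∀ᶠ k in (hyperfilter ℕ : Filter ℕ), β e k ∈ B := by
    intro e
    by_cases h : Old e
    · obtain ⟨B, hB, hB'⟩ := h
      exact ⟨B, fun _ => ⟨hB, hB'⟩⟩
    · exact ⟨∅, fun h' => absurd h' h⟩
  choose Bw hBw using hBw
  let W : ℕ → ℕ → Prop := fun n k => k ∈ V n ∧ n < k ∧ G n < k ∧
    ∀ e, e ∈ Iic n → ((Old e → β e k ∈ Bw e) ∧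
      (¬ Old e → ∀ c, c ∈ Iic (G n) → β e k ∉ p.H c) ∧
      ∀ e', e' ∈ Iic n → ((Sim e e' → β e k = β e' k) ∧ (¬ Sim e e' → β e k ≠ β e' k)))
  have hW : ∀ n, ∀ᶠ k in (hyperfilter ℕ : Filter ℕ), W n k := by
    intro n
    have himp : ∀ (Q : Prop) (P : ℕ → Prop),
        (Q → ∀ᶠ k in (hyperfilter ℕ : Filter ℕ), P k) →
        ∀ᶠ k in (hyperfilter ℕ : Filter ℕ), Q → P k := by
      intro Q P h
      by_cases hQ : Q
      · filter_upwards [h hQ] with k hk _
        exact hk
      · exact Eventually.of_forall fun k hq => absurd hq hQ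
    have hVn : ∀ᶠ k in (hyperfilter ℕ : Filter ℕ), k ∈ V n := hV n
    refine Eventually.and hVn (Eventually.and (hlarge n) (Eventually.and (hlarge (G n)) ?_))
    rw [Filter.eventually_all_finite (finite_Iic n)]
    intro e _
    refine (himp _ _ fun h => (hBw e h).2).and ((himp _ _ fun h => ?_).and ?_)
    · rw [Filter.eventually_all_finite (finite_Iic (G n))]
      intro c _
      exact hnew e h c
    · rw [Filter.eventually_all_finite (finite_Iic n)]
      intro e' _
      exact (himp _ _ fun h => h).and (himp _ _ fun h => hnot _ h)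
  choose nx hnx using fun n => hne _ (hW n)
  let J : ℕ → ℕ := fun t => Nat.rec 0 (fun _ j => nx j) t
  have hJW : ∀ t, W (J t) (J (t + 1)) := fun t => hnx (J t)
  have hJm : StrictMono J := strictMono_nat_of_lt_succ fun t => (hJW t).2.1
  have hJt : ∀ t, t ≤ J t := fun t => hJm.le_apply
  let Le : ℕ → Set ℕ := fun e => {x | ∃ t, e ≤ t ∧ x = β e (J t)}
  -- basic comparison
  have hlt : ∀ e e' t t', e < t' → t < t' → β e (J t) < β e' (J t') := by
    intro e e' t t' he htt
    obtain ⟨s, rfl⟩ : ∃ s, t' = s + 1 := ⟨t' - 1, by omega⟩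
    have h1 : β e (J t) ≤ G (J s) :=
      hG _ _ _ (by have := hJt s; omega) (hJm.monotone (by omega))
    have h2 := (hJW s).2.2.1
    have h3 := hβ e' (J (s + 1))
    omega
  have hthin : ∀ e, ¬ Old e → ∀ t t', e ≤ t → t < t' → β e (J t') ∉ p.H (β e (J t)) := by
    intro e he t t' het htt
    obtain ⟨s, rfl⟩ : ∃ s, t' = s + 1 := ⟨t' - 1, by omega⟩
    have h1 : β e (J t) ≤ G (J s) :=
      hG _ _ _ (by have := hJt s; omega) (hJm.monotone (by omega))
    exact ((hJW s).2.2.2 e (by have := hJt s; simp only [mem_Iic]; omega)).2.1 he _ h1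
  have hsimsymm : ∀ e e', Sim e e' → Sim e' e := by
    intro e e' h
    filter_upwards [h] with k hk
    exact hk.symm
  have hsimtrans : ∀ e e' e'', Sim e e' → Sim e' e'' → Sim e e'' := by
    intro e e' e'' h h'
    filter_upwards [h, h'] with k hk hk'
    exact hk.trans hk'
  refine ⟨J, {B | ∃ e, ¬ Old e ∧ (∀ e', e' < e → ¬ Sim e' e) ∧ B = Le e}, hJm,
    fun t => (hJW t).1, ?_, ?_, ?_, ?_⟩
  · apply (countable_range Le).mono
    rintro B ⟨e, _, _, rfl⟩
    exact ⟨e, rfl⟩
  · rintro B ⟨e, he, _, rfl⟩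
    constructor
    · apply infinite_of_forall_exists_gt
      intro a
      refine ⟨β e (J (max e (a + 1))), ⟨_, le_max_left _ _, rfl⟩, ?_⟩
      have h1 := hβ e (J (max e (a + 1)))
      have h2 := hJt (max e (a + 1))
      have h3 := le_max_right e (a + 1)
      omega
    · refine ⟨0, ?_⟩
      rintro a ⟨t, ht, rfl⟩ c ⟨t', ht', rfl⟩ _ hab
      rcases lt_trichotomy t t' with h | h | h
      · exact hthin e he t t' ht h
      · subst h
        exact absurd hab (lt_irrefl _)
      · have := hlt e e t' t (by omega) h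
        omega
  · rintro B ⟨e, he, hm, rfl⟩ C ⟨e', he', hm', rfl⟩ hBC
    have hee : e ≠ e' := fun h => hBC (by rw [h])
    have hns : ¬ Sim e e' := by
      rcases lt_or_gt_of_ne hee with h | h
      · exact hm' e h
      · exact fun h' => hm e' h (hsimsymm _ _ h')
    have hsub : Le e ∩ Le e' ⊆ ((fun t => β e (J t)) '' Iic (max e e')) ∪
        ((fun t => β e' (J t)) '' Iic (max e e')) := by
      rintro x ⟨⟨t, ht, rfl⟩, ⟨t', ht', hx⟩⟩
      by_cases h1 : t ≤ max e e'
      · exact Or.inl ⟨t, h1, rfl⟩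
      by_cases h2 : t' ≤ max e e'
      · exact Or.inr ⟨t', h2, hx.symm⟩
      exfalso
      have h3 := le_max_left e e'
      have h4 := le_max_right e e'
      rcases lt_trichotomy t t' with h | h | h
      · have := hlt e e' t t' (by omega) h
        omega
      · subst h
        obtain ⟨s, rfl⟩ : ∃ s, t = s + 1 := ⟨t - 1, by omega⟩
        have hs := hJt s
        exact (((hJW s).2.2.2 e (by simp only [mem_Iic]; omega)).2.2 e'
          (by simp only [mem_Iic]; omega)).2 hns hx
      · have := hlt e' e t' t (by omega) h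
        omega
    exact (((finite_Iic _).image _).union ((finite_Iic _).image _)).subset hsub
  · intro e
    by_cases he : Old e
    · refine ⟨Bw e, Or.inl (hBw e he).1, ?_⟩
      filter_upwards [eventually_ge_atTop (e + 1)] with t ht
      obtain ⟨s, rfl⟩ : ∃ s, t = s + 1 := ⟨t - 1, by omega⟩
      have hs := hJt s
      exact ((hJW s).2.2.2 e (by simp only [mem_Iic]; omega)).1 he
    · have hex : ∃ e', Sim e' e := ⟨e, Eventually.of_forall fun _ => rfl⟩
      have hf := Nat.find_spec hex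
      have hle : Nat.find hex ≤ e := Nat.find_min' hex (Eventually.of_forall fun _ => rfl)
      refine ⟨Le (Nat.find hex), Or.inr ⟨Nat.find hex, ?_, ?_, rfl⟩, ?_⟩
      · rintro ⟨B, hB, hB'⟩
        apply he
        refine ⟨B, hB, ?_⟩
        filter_upwards [hf, hB'] with k hk hk'
        rw [← hk]
        exact hk'
      · intro e' he' h
        exact Nat.find_min hex he' (hsimtrans _ _ _ h hf)
      · filter_upwards [eventually_ge_atTop (e + 1)] with t ht
        refine ⟨t, by omega, ?_⟩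
        obtain ⟨s, rfl⟩ : ∃ s, t = s + 1 := ⟨t - 1, by omega⟩
        have hs := hJt s
        exact ((((hJW s).2.2.2 (Nat.find hex) (by simp only [mem_Iic]; omega)).2.2 e
          (by simp only [mem_Iic]; omega)).1 hf).symm

end Pool.Agent.Lib.MP_ab53ee_gt.GS
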