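import Pool.Agent.Lib.MP_ab53ee_gt.GS.Defs

/-!
# GS-TopA: the topology of `X(𝒜)`
Proof.  `coord` is injective (two sets with the same characteristic function are equal), so `Pt 𝒜` embeds in a compact
Hausdorff (hence completely regular) space: `T35Space` via `Topology.IsInducing.completelyRegularSpace` and `T0Space`.
`mem_nhds_iff'`: basic neighbourhoods in a product of discrete spaces depend on finitely many coordinates
(`nhds_induced`, `nhds_prod_eq`, `nhds_pi`, `Filter.mem_pi`).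
`mem_nhds_fin`: no member is almost equal to a finite set (members are infinite).
`mem_nhds_mem`: if `x` is almost `A`, then for `B ∈ 𝒜`, `B ≠ A` no `y` almost `A` is almost `B`.
-/

set_option autoImplicit false

namespace Pool.Agent.Lib.MP_ab53ee_gt.GS

open Filter Topology Set

theorem coord_injective (𝒜 : Set (Set ℕ)) : Function.Injective (coord 𝒜) := by
  intro x y h
  apply Subtype.ext
  ext m
  have h1 := congrFun (congrArg Prod.fst h) m
  simp only [coord] at h1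
  exact decide_eq_decide.1 h1

theorem continuous_coord (𝒜 : Set (Set ℕ)) : Continuous (coord 𝒜) := continuous_induced_dom

theorem t35Space_pt (𝒜 : Set (Set ℕ)) : T35Space (Pt 𝒜) := by
  have hind : Topology.IsInducing (coord 𝒜) := ⟨rfl⟩
  have hemb : Topology.IsEmbedding (coord 𝒜) := ⟨hind, coord_injective 𝒜⟩
  exact hemb.t35Space

theorem isOpen_mem (𝒜 : Set (Set ℕ)) (x : Pt 𝒜) (m : ℕ) :
    IsOpen {y : Pt 𝒜 | m ∈ y.1 ↔ m ∈ x.1} := by
  classical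
  have hc : Continuous (fun y : Pt 𝒜 => (coord 𝒜 y).1 m) :=
    (continuous_apply m).comp (continuous_fst.comp (continuous_coord 𝒜))
  have h2 := (isOpen_discrete ({(coord 𝒜 x).1 m} : Set Bool)).preimage hc
  convert h2 using 1
  ext y
  simp only [Set.mem_ofPred_eq, Set.mem_preimage, Set.mem_singleton_iff, coord]
  exact (decide_eq_decide).symm

theorem isOpen_aeq (𝒜 : Set (Set ℕ)) (x : Pt 𝒜) {B : Set ℕ} (hB : B ∈ 𝒜) :
    IsOpen {y : Pt 𝒜 | AEq y.1 B ↔ AEq x.1 B} := by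
  classical
  have hc : Continuous (fun y : Pt 𝒜 => (coord 𝒜 y).2 ⟨B, hB⟩) :=
    (continuous_apply (⟨B, hB⟩ : 𝒜)).comp (continuous_snd.comp (continuous_coord 𝒜))
  have h2 := (isOpen_discrete ({(coord 𝒜 x).2 ⟨B, hB⟩} : Set Bool)).preimage hc
  convert h2 using 1
  ext y
  simp only [Set.mem_ofPred_eq, Set.mem_preimage, Set.mem_singleton_iff, coord]
  exact (decide_eq_decide).symm

theorem mem_nhds_iff' {𝒜 : Set (Set ℕ)} (x : Pt 𝒜) (U : Set (Pt 𝒜)) :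
    U ∈ 𝓝 x ↔ ∃ (n : ℕ) (F : Finset (Set ℕ)), (F : Set (Set ℕ)) ⊆ 𝒜 ∧
      ∀ y : Pt 𝒜, Agree n y.1 x.1 → (∀ B ∈ F, (AEq y.1 B ↔ AEq x.1 B)) → y ∈ U := by
  classical
  constructor
  · intro hU
    rw [nhds_induced, Filter.mem_comap] at hU
    obtain ⟨V, hV, hVU⟩ := hU
    rw [show coord 𝒜 x = ((coord 𝒜 x).1, (coord 𝒜 x).2) from rfl, nhds_prod_eq,
      Filter.mem_prod_iff] at hV
    obtain ⟨S, hS, T, hT, hST⟩ := hV
    rw [nhds_pi, Filter.mem_pi] at hS hT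
    obtain ⟨I, hI, s, hs, hIs⟩ := hS
    obtain ⟨I', hI', t, ht, hIt⟩ := hT
    obtain ⟨n, hn⟩ := hI.bddAbove
    refine ⟨n + 1, hI'.toFinset.image (fun A : 𝒜 => A.1), ?_, ?_⟩
    · intro B hB
      simp only [Finset.coe_image, Set.mem_image] at hB
      obtain ⟨A, _, rfl⟩ := hB
      exact A.2
    · intro y hy hF
      apply hVU
      apply hST
      refine ⟨hIs ?_, hIt ?_⟩
      · intro m hm
        have h1 : (coord 𝒜 y).1 m = (coord 𝒜 x).1 m := by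
          simp only [coord]
          exact decide_eq_decide.2 (hy m (by have := hn hm; omega))
        rw [h1]
        exact mem_of_mem_nhds (hs m)
      · intro A hA
        have h1 : (coord 𝒜 y).2 A = (coord 𝒜 x).2 A := by
          simp only [coord]
          refine decide_eq_decide.2 (hF A.1 ?_)
          exact Finset.mem_image_of_mem _ (hI'.mem_toFinset.2 hA)
        rw [h1]
        exact mem_of_mem_nhds (ht A)
  · rintro ⟨n, F, hF, h⟩
    have h1 : (⋂ m ∈ Finset.range n, {y : Pt 𝒜 | m ∈ y.1 ↔ m ∈ x.1}) ∈ 𝓝 x := by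
      rw [Filter.biInter_finset_mem]
      intro m _
      exact (isOpen_mem 𝒜 x m).mem_nhds (by simp)
    have h2 : (⋂ B ∈ F, {y : Pt 𝒜 | AEq y.1 B ↔ AEq x.1 B}) ∈ 𝓝 x := by
      rw [Filter.biInter_finset_mem]
      intro B hB
      exact (isOpen_aeq 𝒜 x (hF hB)).mem_nhds (by simp)
    filter_upwards [h1, h2] with y hy1 hy2
    apply h y
    · intro m hm
      have := Set.mem_iInter₂.1 hy1 m (Finset.mem_range.2 hm)
      exact this
    · intro B hB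
      exact Set.mem_iInter₂.1 hy2 B hB

theorem not_aeq_of_finite {x B : Set ℕ} (hx : x.Finite) (hB : B.Infinite) : ¬ AEq x B := by
  rintro ⟨_, h2⟩
  apply hB
  have : B ⊆ (B \ x) ∪ x := by
    intro a ha
    by_cases h : a ∈ x
    · exact Or.inr h
    · exact Or.inl ⟨ha, h⟩
  exact (h2.union hx).subset this

theorem aeq_unique {𝒜 : Set (Set ℕ)} (h𝒜 : ADF 𝒜) {x A B : Set ℕ} (hA : A ∈ 𝒜) (hB : B ∈ 𝒜)
    (h1 : AEq x A) (h2 : AEq x B) : A = B := by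
  by_contra hne
  have h3 := h𝒜.2 A hA B hB hne
  apply h𝒜.1 A hA
  have : A ⊆ (A \ x) ∪ (x \ B) ∪ (A ∩ B) := by
    intro a ha
    by_cases h : a ∈ x
    · by_cases h' : a ∈ B
      · exact Or.inr ⟨ha, h'⟩
      · exact Or.inl (Or.inr ⟨h, h'⟩)
    · exact Or.inl (Or.inl ⟨ha, h⟩)
  exact ((h1.2.union h2.1).union h3).subset this

theorem mem_nhds_fin {𝒜 : Set (Set ℕ)} (h𝒜 : ADF 𝒜) (x : Pt 𝒜) (hx : x.1.Finite)
    (U : Set (Pt 𝒜)) :
    U ∈ 𝓝 x ↔ ∃ (n : ℕ) (F : Finset (Set ℕ)), (F : Set (Set ℕ)) ⊆ 𝒜 ∧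
      ∀ y : Pt 𝒜, Agree n y.1 x.1 → (∀ B ∈ F, ¬ AEq y.1 B) → y ∈ U := by
  rw [mem_nhds_iff']
  constructor
  · rintro ⟨n, F, hF, h⟩
    refine ⟨n, F, hF, fun y hy hB => h y hy (fun B hBF => ?_)⟩
    exact ⟨fun h1 => absurd h1 (hB B hBF),
      fun h1 => absurd h1 (not_aeq_of_finite hx (h𝒜.1 B (hF hBF)))⟩
  · rintro ⟨n, F, hF, h⟩
    refine ⟨n, F, hF, fun y hy hB => h y hy (fun B hBF h1 => ?_)⟩
    exact not_aeq_of_finite hx (h𝒜.1 B (hF hBF)) ((hB B hBF).1 h1)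

theorem mem_nhds_mem {𝒜 : Set (Set ℕ)} (h𝒜 : ADF 𝒜) (x : Pt 𝒜) {A : Set ℕ} (hA : A ∈ 𝒜)
    (hx : AEq x.1 A) (U : Set (Pt 𝒜)) :
    U ∈ 𝓝 x ↔ ∃ n : ℕ, ∀ y : Pt 𝒜, Agree n y.1 x.1 → AEq y.1 A → y ∈ U := by
  rw [mem_nhds_iff']
  constructor
  · rintro ⟨n, F, hF, h⟩
    refine ⟨n, fun y hy hyA => h y hy (fun B hB => ?_)⟩
    constructor
    · intro h1
      have := aeq_unique h𝒜 hA (hF hB) hyA h1
      rwa [← this]
    · intro h1
      have := aeq_unique h𝒜 hA (hF hB) hx h1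
      rwa [← this]
  · rintro ⟨n, h⟩
    refine ⟨n, {A}, by simpa using hA, fun y hy hB => h y hy ?_⟩
    exact (hB A (Finset.mem_singleton_self A)).2 hx

theorem tendsto_fin {𝒜 : Set (Set ℕ)} (h𝒜 : ADF 𝒜) (x : Pt 𝒜) (hx : x.1.Finite)
    (y : ℕ → Pt 𝒜) (h1 : ∀ n, ∀ᶠ k in atTop, Agree n (y k).1 x.1)
    (h2 : ∀ B ∈ 𝒜, ∀ᶠ k in atTop, ¬ AEq (y k).1 B) : Tendsto y atTop (𝓝 x) := by
  intro U hU
  obtain ⟨n, F, hF, h⟩ := (mem_nhds_fin h𝒜 x hx U).1 hU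
  have h3 : ∀ᶠ k in atTop, ∀ B ∈ F, ¬ AEq (y k).1 B :=
    (Filter.eventually_all_finset F).2 (fun B hB => h2 B (hF hB))
  rw [Filter.mem_map]
  filter_upwards [h1 n, h3] with k hk1 hk2
  exact h (y k) hk1 hk2

theorem tendsto_mem {𝒜 : Set (Set ℕ)} (h𝒜 : ADF 𝒜) (x : Pt 𝒜) {A : Set ℕ} (hA : A ∈ 𝒜)
    (hx : AEq x.1 A) (y : ℕ → Pt 𝒜) (h1 : ∀ n, ∀ᶠ k in atTop, Agree n (y k).1 x.1)
    (h2 : ∀ᶠ k in atTop, AEq (y k).1 A) : Tendsto y atTop (𝓝 x) := by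
  intro U hU
  obtain ⟨n, h⟩ := (mem_nhds_mem h𝒜 x hA hx U).1 hU
  rw [Filter.mem_map]
  filter_upwards [h1 n, h2] with k hk1 hk2
  exact h (y k) hk1 hk2

/-- the characteristic functions of points are continuous -/
theorem continuous_memFn (𝒜 : Set (Set ℕ)) (n : ℕ) [∀ x : Pt 𝒜, Decidable (n ∈ x.1)] :
    Continuous (fun x : Pt 𝒜 => if n ∈ x.1 then (1 : ℝ) else 0) := by
  refine (IsLocallyConstant.iff_exists_open _).2 (fun x => ?_) |>.continuous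
  refine ⟨_, isOpen_mem 𝒜 x n, by simp, ?_⟩
  intro y hy
  have hy' : n ∈ y.1 ↔ n ∈ x.1 := hy
  simp only [hy']

/-- the characteristic functions of the classes are continuous -/
theorem continuous_classFn (𝒜 : Set (Set ℕ)) {A : Set ℕ} (hA : A ∈ 𝒜)
    [∀ x : Pt 𝒜, Decidable (AEq x.1 A)] :
    Continuous (fun x : Pt 𝒜 => if AEq x.1 A then (1 : ℝ) else 0) := by
  refine (IsLocallyConstant.iff_exists_open _).2 (fun x => ?_) |>.continuous
  refine ⟨_, isOpen_aeq 𝒜 x hA, by simp, ?_⟩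
  intro y hy
  have hy' : AEq y.1 A ↔ AEq x.1 A := hy
  simp only [hy']

end Pool.Agent.Lib.MP_ab53ee_gt.GS
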