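import Pool.Agent.Lib.MP_ab53ee_gt.GS.TopA

/-!
# GS-TopB: `X(𝒜)` is Frechet-Urysohn
Proof.  Let `x ∈ closure B`.  If `x` is almost `A ∈ 𝒜`: for each `n` the set `{y | Agree n y x, AEq y A}` is a neighbourhood
(`mem_nhds_mem`), choose `b n ∈ B` in it; `b n → x` by `tendsto_mem`.
If `x` is finite: choose recursively `b n ∈ B` with `Agree n (b n) x` and `b n` not almost equal to a member of `𝒜` that is
almost equal to one of `b 0, ..., b (n-1)` (each `b k` is almost equal to at most one member; the finite set of these members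
and `n` define a neighbourhood by `mem_nhds_fin`).  For `A ∈ 𝒜` at most one `b n` is almost `A`, so `b n → x` by `tendsto_fin`.
-/

set_option autoImplicit false

namespace Pool.Agent.Lib.MP_ab53ee_gt.GS

open Filter Topology Set

theorem frechetUrysohn_pt {𝒜 : Set (Set ℕ)} (h𝒜 : ADF 𝒜) : FrechetUrysohnSpace (Pt 𝒜) := by
  classical
  refine ⟨fun B x hx => ?_⟩
  rw [mem_closure_iff_nhds] at hx
  rcases x.2 with hfin | ⟨A, hA, hxA⟩
  · have hch : ∀ (n : ℕ) (F : Finset (Set ℕ)), (F : Set (Set ℕ)) ⊆ 𝒜 →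
        ∃ b ∈ B, Agree n b.1 x.1 ∧ ∀ A ∈ F, ¬ AEq b.1 A := by
      intro n F hF
      have hU : {y : Pt 𝒜 | Agree n y.1 x.1 ∧ ∀ A ∈ F, ¬ AEq y.1 A} ∈ 𝓝 x :=
        (mem_nhds_fin h𝒜 x hfin _).2 ⟨n, F, hF, fun y h1 h2 => ⟨h1, h2⟩⟩
      obtain ⟨b, hb1, hb2⟩ := hx _ hU
      exact ⟨b, hb2, hb1⟩
    let g : ℕ → Finset (Set ℕ) → Pt 𝒜 := fun n F =>
      if h : (F : Set (Set ℕ)) ⊆ 𝒜 then (hch n F h).choose else x
    let mo : Pt 𝒜 → Finset (Set ℕ) := fun y => if h : ∃ A ∈ 𝒜, AEq y.1 A then {h.choose} else ∅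
    obtain ⟨S, hS0, hS1⟩ : ∃ S : ℕ → Finset (Set ℕ), S 0 = ∅ ∧
        ∀ n, S (n + 1) = S n ∪ mo (g n (S n)) :=
      ⟨fun n => Nat.rec ∅ (fun n F => F ∪ mo (g n F)) n, rfl, fun n => rfl⟩
    have hmo : ∀ y, (↑(mo y) : Set (Set ℕ)) ⊆ 𝒜 := by
      intro y C hC
      by_cases h : ∃ A ∈ 𝒜, AEq y.1 A
      · simp only [mo, dif_pos h, Finset.coe_singleton, Set.mem_singleton_iff] at hC
        rw [hC]
        exact h.choose_spec.1
      · simp only [mo, dif_neg h, Finset.coe_empty, Set.mem_empty_iff_false] at hC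
    have hmem : ∀ (y : Pt 𝒜) (C : Set ℕ), C ∈ 𝒜 → AEq y.1 C → C ∈ mo y := by
      intro y C hC hy
      have h : ∃ A ∈ 𝒜, AEq y.1 A := ⟨C, hC, hy⟩
      simp only [mo, dif_pos h, Finset.mem_singleton]
      exact aeq_unique h𝒜 hC h.choose_spec.1 hy h.choose_spec.2
    have hSsub : ∀ n, (↑(S n) : Set (Set ℕ)) ⊆ 𝒜 := by
      intro n
      induction n with
      | zero => rw [hS0]; simp
      | succ n ih =>
        rw [hS1, Finset.coe_union]
        exact Set.union_subset ih (hmo _)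
    have hg : ∀ n, g n (S n) ∈ B ∧ Agree n (g n (S n)).1 x.1 ∧ ∀ A ∈ S n, ¬ AEq (g n (S n)).1 A := by
      intro n
      have h := (hch n (S n) (hSsub n)).choose_spec
      simp only [g, dif_pos (hSsub n)]
      exact h
    have hmono : ∀ n m, n ≤ m → S n ⊆ S m := by
      intro n m hnm
      induction m, hnm using Nat.le_induction with
      | base => exact Finset.Subset.refl _
      | succ m _ ih =>
        rw [hS1]
        exact ih.trans Finset.subset_union_left
    refine ⟨fun n => g n (S n), fun n => (hg n).1, ?_⟩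
    refine tendsto_fin h𝒜 x hfin _ ?_ ?_
    · intro n
      filter_upwards [Filter.eventually_ge_atTop n] with k hk m hm
      exact (hg k).2.1 m (by omega)
    · intro C hC
      by_cases hex : ∃ k, AEq (g k (S k)).1 C
      · obtain ⟨k0, hk0⟩ := hex
        filter_upwards [Filter.eventually_ge_atTop (k0 + 1)] with k hk
        apply (hg k).2.2
        apply hmono (k0 + 1) k hk
        rw [hS1]
        exact Finset.mem_union_right _ (hmem _ C hC hk0)
      · push Not at hex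
        exact Filter.Eventually.of_forall hex
  · have hch : ∀ n : ℕ, ∃ b ∈ B, Agree n b.1 x.1 ∧ AEq b.1 A := by
      intro n
      have hU : {y : Pt 𝒜 | Agree n y.1 x.1 ∧ AEq y.1 A} ∈ 𝓝 x :=
        (mem_nhds_mem h𝒜 x hA hxA _).2 ⟨n, fun y h1 h2 => ⟨h1, h2⟩⟩
      obtain ⟨b, hb1, hb2⟩ := hx _ hU
      exact ⟨b, hb2, hb1⟩
    choose b hb1 hb2 hb3 using hch
    refine ⟨b, hb1, ?_⟩
    refine tendsto_mem h𝒜 x hA hxA _ ?_ (Filter.Eventually.of_forall hb3)
    intro n
    filter_upwards [Filter.eventually_ge_atTop n] with k hk m hm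
    exact hb2 k m (by omega)

end Pool.Agent.Lib.MP_ab53ee_gt.GS
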