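import Pool.Agent.Lib.MP_ab53ee_gt.GS.TopA

/-!
# GS-TopC: a continuous function is given by its values at the finite sets outside countably many classes
Proof.  For each finite set `s` and each `k` continuity at `finPt 𝒜 s` and `mem_nhds_fin` give `n(s,k)` and a finite `F(s,k) ⊆ 𝒜`
with `|φ y - φ s| ≤ 1/(k+1)` for all `y` with `Agree n(s,k) y s` and `y` almost equal to no member of `F(s,k)`.
`F := ⋃ F(s,k)` is countable.  Let `A ∈ 𝒜`, `A ∉ F`, `x` almost `A`, `ε > 0`.  Continuity at `x` (`mem_nhds_mem`): there is `n` with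
`|φ y - φ x| ≤ ε/2` for `y` almost `A`, `Agree n y x`.  Take `s` finite with `Agree n s x` and `k` with `1/(k+1) ≤ ε/2`, `m = max n n(s,k)`,
`y := (s ∩ [0,m)) ∪ (A ∩ [m,∞))`: `y` is almost `A`, `Agree m y s`, so `Agree n y x` and `|φ y - φ s| ≤ ε/2`, `|φ y - φ x| ≤ ε/2`.
`isLim_unique`: the sets `x ∩ [0,n)` are finite and agree with `x` below `n`.
`qcont_of_continuous`: `mem_nhds_fin` (finite sets are almost equal to no member).
-/

set_option autoImplicit false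

namespace Pool.Agent.Lib.MP_ab53ee_gt.GS

open Filter Topology Set

theorem agree_trunc (x : Set ℕ) [DecidablePred (· ∈ x)] (n : ℕ) :
    Agree n (((Finset.range n).filter (· ∈ x) : Finset ℕ) : Set ℕ) x := by
  intro m hm
  simp [hm]

theorem Agree.symm {n : ℕ} {x y : Set ℕ} (h : Agree n x y) : Agree n y x :=
  fun m hm => (h m hm).symm

theorem Agree.trans {n : ℕ} {x y z : Set ℕ} (h : Agree n x y) (h' : Agree n y z) : Agree n x z :=
  fun m hm => (h m hm).trans (h' m hm)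

theorem Agree.mono {n m : ℕ} {x y : Set ℕ} (h : Agree n x y) (hm : m ≤ n) : Agree m x y :=
  fun a ha => h a (lt_of_lt_of_le ha hm)

theorem isLim_unique {q : Finset ℕ → ℝ} {x : Set ℕ} {v w : ℝ} (hv : IsLim q x v)
    (hw : IsLim q x w) : v = w := by
  classical
  refine eq_of_forall_dist_le (fun ε hε => ?_)
  obtain ⟨n, hn⟩ := hv (ε / 2) (half_pos hε)
  obtain ⟨m, hm⟩ := hw (ε / 2) (half_pos hε)
  have h1 := agree_trunc x (max n m)
  have h2 := hn _ (h1.mono (le_max_left n m))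
  have h3 := hm _ (h1.mono (le_max_right n m))
  rw [Real.dist_eq]
  rw [abs_le] at h2 h3 ⊢
  constructor <;> linarith [h2.1, h2.2, h3.1, h3.2]

theorem qcont_of_continuous {𝒜 : Set (Set ℕ)} (h𝒜 : ADF 𝒜) {φ : Pt 𝒜 → ℝ}
    (hφ : Continuous φ) : QCont (fun s => φ (finPt 𝒜 s)) := by
  intro s ε hε
  have hU : {y : Pt 𝒜 | dist (φ y) (φ (finPt 𝒜 s)) < ε} ∈ 𝓝 (finPt 𝒜 s) := by
    have := (Metric.continuous_iff'.1 hφ) (finPt 𝒜 s) ε hε
    exact this
  obtain ⟨n, F, hF, h⟩ := (mem_nhds_fin h𝒜 (finPt 𝒜 s) s.finite_toSet _).1 hU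
  refine ⟨n, fun s' hs' => ?_⟩
  have h1 := h (finPt 𝒜 s') hs'
    (fun B hB => not_aeq_of_finite s'.finite_toSet (h𝒜.1 B (hF hB)))
  have h2 : dist (φ (finPt 𝒜 s')) (φ (finPt 𝒜 s)) < ε := h1
  rw [Real.dist_eq] at h2
  exact h2.le

theorem exists_countable_isLim {𝒜 : Set (Set ℕ)} (h𝒜 : ADF 𝒜) {φ : Pt 𝒜 → ℝ}
    (hφ : Continuous φ) :
    ∃ F : Set (Set ℕ), F.Countable ∧ F ⊆ 𝒜 ∧ ∀ A ∈ 𝒜, A ∉ F → ∀ x : Pt 𝒜, AEq x.1 A →
      IsLim (fun s => φ (finPt 𝒜 s)) x.1 (φ x) := by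
  classical
  have hex : ∀ (s : Finset ℕ) (k : ℕ), ∃ (n : ℕ) (F : Finset (Set ℕ)), (F : Set (Set ℕ)) ⊆ 𝒜 ∧
      ∀ y : Pt 𝒜, Agree n y.1 (s : Set ℕ) → (∀ B ∈ F, ¬ AEq y.1 B) →
        dist (φ y) (φ (finPt 𝒜 s)) < 1 / ((k : ℝ) + 1) := by
    intro s k
    have hU : {y : Pt 𝒜 | dist (φ y) (φ (finPt 𝒜 s)) < 1 / ((k : ℝ) + 1)} ∈ 𝓝 (finPt 𝒜 s) := by
      have := (Metric.continuous_iff'.1 hφ) (finPt 𝒜 s) (1 / ((k : ℝ) + 1)) (by positivity)
      exact this
    exact (mem_nhds_fin h𝒜 (finPt 𝒜 s) s.finite_toSet _).1 hU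
  choose N F hF hφF using hex
  refine ⟨⋃ s : Finset ℕ, ⋃ k : ℕ, (F s k : Set (Set ℕ)), ?_, ?_, ?_⟩
  · exact Set.countable_iUnion (fun s => Set.countable_iUnion (fun k => (F s k).countable_toSet))
  · exact Set.iUnion_subset (fun s => Set.iUnion_subset (fun k => hF s k))
  · intro A hA hAF x hx ε hε
    have hU : {y : Pt 𝒜 | dist (φ y) (φ x) < ε / 2} ∈ 𝓝 x := by
      have := (Metric.continuous_iff'.1 hφ) x (ε / 2) (half_pos hε)
      exact this
    obtain ⟨n, hn⟩ := (mem_nhds_mem h𝒜 x hA hx _).1 hU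
    obtain ⟨k, hk⟩ := exists_nat_one_div_lt (half_pos hε)
    refine ⟨n, fun s hs => ?_⟩
    let m := max n (N s k)
    let y : Set ℕ := ((s : Set ℕ) ∩ {a | a < m}) ∪ (A ∩ {a | m ≤ a})
    have hyA : AEq y A := by
      constructor
      · refine (Set.finite_lt_nat m).subset ?_
        rintro a ⟨h1 | h1, h2⟩
        · exact h1.2
        · exact absurd h1.1 h2
      · refine (Set.finite_lt_nat m).subset ?_
        rintro a ⟨h1, h2⟩
        by_contra h3
        apply h2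
        exact Or.inr ⟨h1, by simpa using h3⟩
    have hys : Agree m y (s : Set ℕ) := by
      intro a ha
      constructor
      · rintro (h1 | h1)
        · exact h1.1
        · exact absurd h1.2 (by simpa using ha)
      · intro h1
        exact Or.inl ⟨h1, ha⟩
    let yp : Pt 𝒜 := ⟨y, Or.inr ⟨A, hA, hyA⟩⟩
    have h1 := hφF s k yp (hys.mono (le_max_right _ _)) (by
      intro B hB hyB
      apply hAF
      have : A = B := aeq_unique h𝒜 hA (hF s k hB) hyA hyB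
      rw [this]
      exact Set.mem_iUnion.2 ⟨s, Set.mem_iUnion.2 ⟨k, hB⟩⟩)
    have h2 : dist (φ yp) (φ x) < ε / 2 :=
      hn yp ((hys.mono (le_max_left _ _)).trans hs) hyA
    rw [Real.dist_eq] at h1 h2
    have h3 : |φ yp - φ (finPt 𝒜 s)| < ε / 2 := h1.trans hk
    rw [abs_lt] at h2 h3
    rw [abs_le]
    constructor <;> linarith [h2.1, h2.2, h3.1, h3.2]

end Pool.Agent.Lib.MP_ab53ee_gt.GS
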